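import Mathlib
import Pool.Agent.SDG.St
import Pool.Agent.MDR.St

/-!
# SSC: subset sums in groups of odd order with cyclic Sylow 3-subgroup (MP_ec93d3_co)

Architect helper22 (with helper48, helper86).  Definitions: `FS`, `lam` (Helper64.Rho), `Aper`, `Cap`, `gen`, `cf`, `jj`, `it`, `st`, `TT`
(Pool.Agent.SDG.St), `AS`, `sym`, `Prog`, `NearP`, `EngX`, `Grow`, `ins`, `outs` (Pool.Agent.MDR.St).

Aim (`St_PF`): a family of `t` nonzero elements of a group of the class `Cls`, at most two of them equal to `± x` for each `x`, with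
aperiodic set of sums, has at least `cf 2 t = 1 + (t + 1) ^ 2 / 4` sums.  No density condition.

Notation in the docstrings: `N = |G|`, `T = FS s f`, `F1 l = 1 + l (l + 1) / 2`, `F2 t = cf 2 t`, `J = (t + 1) / 2`.
Every `St_X` is a statement; its proof is in the docstring.  A module proves `thm_X : St_A → St_B → ... → St_X` with exactly the
hypotheses listed in the docstring (facts of `SDG` and `MDR` have the prefix `SDG.` or `MDR.`).
-/

set_option autoImplicit false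

noncomputable section

open Finset Pool.Agent.Helper64.Rho Pool.Agent.SDG Pool.Agent.MDR
open scoped Classical Pointwise

namespace Pool.Agent.SSC

/-- odd order, and at most one subgroup of order three -/
def Cls (G : Type) [AddCommGroup G] : Prop :=
  Odd (Nat.card G) ∧ ∀ x y : G, x ≠ 0 → (3 : ℕ) • x = 0 → (3 : ℕ) • y = 0 → y = 0 ∨ y = x ∨ y = -x

/-- the lower bound for all families with `t` members in the groups of the class -/
def PF (t : ℕ) : Prop :=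
  ∀ (G ι : Type) [AddCommGroup G] [Finite G] (s : Finset ι) (f : ι → G), Cls G → s.card = t → (∀ i ∈ s, f i ≠ 0) →
    Cap 2 s f → Aper (FS s f) → cf 2 t ≤ (FS s f).card

/-- `s` is a violating family with the least number of members, it generates `G` -/
def Ctx {G ι : Type} [AddCommGroup G] [Finite G] (t : ℕ) (s : Finset ι) (f : ι → G) : Prop :=
  (∀ u < t, PF u) ∧ (∀ h u : ℕ, 2 ≤ h → TT h u) ∧ Cls G ∧ s.card = t ∧ (∀ i ∈ s, f i ≠ 0) ∧ Cap 2 s f ∧ Aper (FS s f) ∧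
    gen s f = ⊤ ∧ (FS s f).card < cf 2 t

/-- the sums of `k` different elements of `A` -/
def ks {G : Type} [AddCommGroup G] (k : ℕ) (A : Finset G) : Finset G := (A.powersetCard k).image fun U => ∑ x ∈ U, x

/-- the cosets of `d, 2 d, ..., (m - 1) d` are contained in `X` -/
def Per {G : Type} [AddCommGroup G] (X : Finset G) (K : AddSubgroup G) (d : G) (m : ℕ) : Prop :=
  ∀ v : ℕ, 1 ≤ v → v + 1 ≤ m → ∀ k ∈ K, v • d + k ∈ X

/-- exceptional families: one element of the group `K` of order three, the full cosets `± (k d + K)`, `1 ≤ k ≤ a`, and at most two elements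
of `± ((a + 1) d + K)` (always up to sign) -/
def KAP {G ι : Type} [AddCommGroup G] (u : Finset ι) (f : ι → G) (K : AddSubgroup G) (a : ℕ) : Prop :=
  Nat.card K = 3 ∧ (ins u f K).card = 1 ∧ 1 ≤ a ∧ ∃ (d : G) (lv : ι → ℕ), (∀ x : G, ∃ k : ℕ, x - k • d ∈ K) ∧
    (∀ i ∈ outs u f K, 1 ≤ lv i ∧ lv i ≤ a + 1 ∧ (f i - lv i • d ∈ K ∨ f i + lv i • d ∈ K)) ∧
    (∀ k, 1 ≤ k → k ≤ a → ((outs u f K).filter fun i => lv i = k).card = 3) ∧
    ((outs u f K).filter fun i => lv i = a + 1).card ≤ 2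

/-- exceptional -/
def Exc {G ι : Type} [AddCommGroup G] (f : ι → G) (u : Finset ι) : Prop := ∃ (K : AddSubgroup G) (a : ℕ), KAP u f K a

/-- the families of the engine -/
def Fam {G ι : Type} [AddCommGroup G] (s : Finset ι) (f : ι → G) (u : Finset ι) : Prop :=
  u ⊆ s ∧ AS u f ∧ (∀ M : AddSubgroup G, M ≠ ⊤ → 2 ≤ (outs u f M).card) ∧ 2 * (FS u f).card ≤ Nat.card G

/-! ## Numbers, the class -/

/-- **Nu** (1 h, from SDG.Nm1: `cf 2 t = 1 + (t+1)^2/4` and the block formula).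
(1) the index inequalities: write `t = 2 J` or `2 J - 1` and `τ = t - e`.  First part: `e = 1, 2, 3`: `(e+1) (1 + (t-e+1)^2/4) ≥ 1 + (t+1)^2/4` for `t ≥ 9`.  Second: with `a = τ + 1`:
`4 (5 cf 2 τ + cf 2 (e-4) - 1) ≥ 16 + 5 a^2 + (t-a-2)^2 + 4 - 6` (floors cost at most `5 + 1` quarters; better: check `τ = t/2 - 1` and `τ ≥ t/2` separately), compare with `4 + (t+1)^2`; the left side grows with `τ`; at
`τ = t/2 - 1` one has `t = 9: 25 + 3 - 1 = 27 ≥ 26`, `t = 10: 35 + 2... ≥ 31`, and for larger `t` the difference grows (it is `≥ (t^2 - 8 t - 9)/8`).  Third: `a ≥ t/2 + 1`: `4 (3 cf 2 τ + cf 2 (e-2) - 1 - cf 2 t) ≥ 4 a^2 - 2 a t + ... ≥ 0`; a clean way: put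
`τ = J + v`, `v ≥ 0`, treat the four parity cases, everything is a polynomial inequality in `J, v` (brute-forced for `t ≤ 300`).
(2) the drop of two elements: `6 cf 2 (l-2) ≥ 3 + l (l+1)` for `l ≥ 7`.  (3) `cf 2 (1 + w) ≤ 3 cf 6 (w - 2) + 2` for `2 ≤ w ≤ 6` (`decide`). -/
def St_Nu : Prop :=
  (∀ t τ e : ℕ, 9 ≤ t → τ + e = t → 1 ≤ e → e ≤ 3 → cf 2 t ≤ (e + 1) * cf 2 τ) ∧
  (∀ t τ e : ℕ, 9 ≤ t → τ + e = t → 4 ≤ e → t / 2 ≤ τ + 1 → cf 2 t + 1 ≤ 5 * cf 2 τ + cf 2 (e - 4)) ∧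
  (∀ t τ e : ℕ, 9 ≤ t → τ + e = t → 2 ≤ e → (t + 1) / 2 ≤ τ → cf 2 t + 1 ≤ 3 * cf 2 τ + cf 2 (e - 2)) ∧
  (∀ l : ℕ, 7 ≤ l → 3 + l * (l + 1) ≤ 6 * cf 2 (l - 2)) ∧
  (∀ w : ℕ, 2 ≤ w → w ≤ 6 → cf 2 (1 + w) ≤ 3 * cf 6 (w - 2) + 2)

/-- **Cl** (1 h).  The class.  (1) subgroups.  (2) two subgroups `K, K'` of order 3: take `0 ≠ x ∈ K`, `y ∈ K'`; `3 x = 3 y = 0`, so `y ∈ {0, x, -x} ⊆ K`.  (3) two subgroups of index 3: both contain `3 G = {3 • x}`; `|G / 3G| = |{x | 3 x = 0}| ≤ 3` (kernel and cokernel of `x ↦ 3 x`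
have the same order), so both are equal to `3 G` (`3 G ≤ M` and `[G : 3 G] ≤ 3 = [G : M]`).  (4) `2 x = 0` implies `x = 0` (odd order). -/
def St_Cl : Prop :=
  ∀ (G : Type) [AddCommGroup G] [Finite G], Cls G →
    (∀ M : AddSubgroup G, Cls M) ∧ (∀ K K' : AddSubgroup G, Nat.card K = 3 → Nat.card K' = 3 → K = K') ∧
    (∀ M M' : AddSubgroup G, M.index = 3 → M'.index = 3 → M = M') ∧ (∀ x : G, x + x = 0 → x = 0)

/-! ## Full slices -/

/-- **KS** (1.8 h, from Helper64.Rho.Olson: `lam`, `sum_cnt` or direct double counting).  Odd order, `1 ≤ k ≤ |A| - 1`: at least `|A|` sums of `k` different elements.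
Proof.  Induction on `n = |A|`, all `k`.  `k = 1`: clear.  `k = n - 1`: `U ↦ A \ U` gives `∑ A` minus one element, `n` sums.  Let `2 ≤ k ≤ n - 2` (`n ≥ 4`), and suppose `|ks k A| ≤ n - 1`.  For `a ∈ A`, `ks k (A.erase a) ⊆ ks k A =: Q` has at least `n - 1` elements; so `|Q| = n - 1`.
Let `x ≠ y` in `A`, `R = ks (k-1) (A \ {x, y})`, `1 ≤ k - 1 ≤ n - 3`, so `|R| ≥ n - 2`, and `x + R ⊆ Q`, `y + R ⊆ Q`.  So at least `n - 2` elements `q ∈ Q` (those of `y + R`) have `q + (x - y) ∈ Q`.  Count the pairs `(q, q') ∈ Q × Q` by the difference `q' - q`: difference `0`: `n - 1` pairs; every nonzero difference in `Δ = A - A`: at least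
`n - 2` pairs.  `(n - 1) + (|Δ| - 1)(n - 2) ≤ (n-1)^2`, so `(|Δ| - 1)(n-2) ≤ (n-1)(n-2)`, `|Δ| ≤ n`.  Fix `a0 ∈ A`: `A - a0 ⊆ Δ`, so `|Δ| = n` and `Δ = A - a0 = A - a` for every `a ∈ A`.  Hence `Δ` is closed under subtraction (`(a - a0) - (b - a0) ∈ Δ`), contains `0`: it is a subgroup `L` with
`n` elements, `A = a0 + L`.  `ks k A = k a0 + ks k L`; for `k < n` the set `W = ks k L` satisfies `W = -W` (`-L = L`), `W ⊆ L`, `|W| = n - 1`, so the missing element `m` of `L` satisfies `-m = m`, `m = 0`.  But `0 ∈ W`: `L \ {0}` (even number of elements, since `n` divides the odd number `N`) splits into pairs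
`{x, -x}`; take `k / 2` pairs, and the element `0` if `k` is odd.  Contradiction. -/
def St_KS : Prop :=
  ∀ (G : Type) [AddCommGroup G] [Finite G], Odd (Nat.card G) → ∀ (A : Finset G) (k : ℕ), 1 ≤ k → k + 1 ≤ A.card → A.card ≤ (ks k A).card

/-- **Fl** (1.2 h, from KS, SDG.Sm).  Full slices.  `u` antisymmetric, aperiodic sums, `Z ⊆ u`, all `f i` (`i ∈ Z`) in the coset `c + K`, `c ∉ K`, `|K| ≤ |Z| + |ins u f K|`: for `1 ≤ k ≤ |Z| - 1` the whole coset `k c + K` is in `FS (Z ∪ ins u f K) f`.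
Proof.  `A = Z.image f` has `|Z|` elements (`Cap 1`: `f i = f j` implies `i = j`).  `ks k A ⊆ k c + K` has at least `|Z|` elements.  `Y = FS (ins u f K) f ⊆ K` is aperiodic (SDG.Ba1 (2) or the fact for subfamilies), so `|Y| ≥ |ins u f K| + 1` (SDG.Sm).  For `x ∈ k c + K` the sets
`{x - w : w ∈ ks k A}` and `Y` are subsets of `K` with together at least `|K| + 1` elements, so they meet: `x = y + w`.  `Z` and `ins u f K` are disjoint (`c ∉ K`), so `x` is a sum over a subset of the union. -/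
def St_Fl : Prop :=
  ∀ (G ι : Type) [AddCommGroup G] [Finite G] (u Z : Finset ι) (f : ι → G) (K : AddSubgroup G) (c : G), Odd (Nat.card G) → AS u f →
    Aper (FS u f) → Z ⊆ u → (∀ i ∈ Z, f i - c ∈ K) → c ∉ K → Nat.card K ≤ Z.card + (ins u f K).card →
      ∀ (x : G) (k : ℕ), 1 ≤ k → k + 1 ≤ Z.card → x - k • c ∈ K → x ∈ FS (Z ∪ ins u f K) f

/-- **Wi** (1 h, from Fl).  The window.  `u ⊆ s`, `i0 ≠ i1` in `Z`: the set `P = st (FS (s \ {i0, i1}) f) K` satisfies `P + c ⊆ FS s f`.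
Proof.  `x ∈ P`: `x = k0 + ∑_R f`, `k0 ∈ K`, `R ⊆ s \ {i0, i1}`; `R = R1 ∪ R2 ∪ R3`, `R1 = R ∩ Z`, `R2 = R ∩ ins u f K`, `R3` the rest (disjoint from `Z ∪ ins u f K`).  `y = k0 + c + ∑_{R1 ∪ R2} f` is in `(|R1| + 1) c + K` and `1 ≤ |R1| + 1 ≤ |Z| - 1`; by Fl `y ∈ FS (Z ∪ ins u f K) f`, and `x + c = y + ∑_{R3} f`. -/
def St_Wi : Prop :=
  ∀ (G ι : Type) [AddCommGroup G] [Finite G] (s u Z : Finset ι) (f : ι → G) (K : AddSubgroup G) (c : G) (i0 i1 : ι), Odd (Nat.card G) →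
    u ⊆ s → AS u f → Aper (FS u f) → Z ⊆ u → (∀ i ∈ Z, f i - c ∈ K) → c ∉ K → Nat.card K ≤ Z.card + (ins u f K).card →
    i0 ∈ Z → i1 ∈ Z → i0 ≠ i1 → ∀ x ∈ st (FS ((s.erase i0).erase i1) f) K, x + c ∈ FS s f

/-- **Nf** (1.5 h, from MDR.Sy).  Nearly filling, counts.  `K` nearly fills `sym u f`, `i1 ∈ u`, `c = f i1 ∉ K`; `f' i = - f i` if `f i + c ∈ K`, `f' i = f i` otherwise.  `Z = {i ∈ u | f' i - c ∈ K}`: `i1 ∈ Z`, `|Z| ≥ 2`, `|K| ≤ |Z| + |ins u f K|`.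
Proof.  Odd order: `2 c ∉ K` (multiplication by 2 is bijective on `K`), so `K, c + K, - c + K` are three different cosets and `f' i1 = c`.  `D = sym u f`, `|D| = 2 |u| + 1`.  `D ∩ (c + K) = {f' i : i ∈ Z}` (if `± f i ∈ c + K` then this element is `f' i`) has `|Z|` elements (`Cap 1`), the same for `- c + K`; `|D ∩ K| = 1 + 2 b`,
`b = |ins u f K|`.  `|st D K| - |D| ≥ 2 (|K| - |Z|) + (|K| - 1 - 2 b)` (every coset meeting `D` contributes the number of its elements not in `D`), and this is `≤ |K| - 1`.  So `|K| ≤ |Z| + b`.  `2 b + 1 ≤ |K|` and `|K| ≥ 3` give `|Z| ≥ (|K| + 1) / 2 ≥ 2`. -/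
def St_Nf : Prop :=
  ∀ (G ι : Type) [AddCommGroup G] [Finite G] (u : Finset ι) (f : ι → G) (K : AddSubgroup G) (i1 : ι), Odd (Nat.card G) → AS u f → K ≠ ⊥ →
    i1 ∈ u → f i1 ∉ K → (st (sym u f) K).card + 1 ≤ (sym u f).card + Nat.card K →
      let f' : ι → G := fun i => if f i + f i1 ∈ K then - f i else f i
      let Z := u.filter fun i => f' i - f i1 ∈ K
      i1 ∈ Z ∧ 2 ≤ Z.card ∧ Nat.card K ≤ Z.card + (ins u f K).card ∧ ins u f' K = ins u f K ∧ f' i1 = f i1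

/-- **SR** (2 h, from SDG.Nm1, SDG.Ba1, SDG.Kn, SDG.Qu, MDR.Sg, MDR.SC, MDR.N5, Nu, Cl, Wi, Nf).  THE STRUCTURE LEMMA.  In a minimal violating family no antisymmetric subfamily is nearly filled by a subgroup, except by the group of order three, and then this group contains exactly one member of `s`.
Proof.  `i1 ∈ u` with `c = f i1 ∉ K` exists since `gen u f = ⊤ ≠ K`.  Nf gives `f'` (used for all `i`), `Z`, and `i0 ∈ Z`, `i0 ≠ i1`.  By MDR.Sg we may replace `f` by `f'` everywhere (`T' = FS s f'` has the same cardinality, is aperiodic; `Cap`, `AS`, `gen` are preserved; `FS u f'` is aperiodic as `u ⊆ s`).  `P = st (FS (s \ {i0, i1}) f') K`,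
`P + c ⊆ T'` (Wi).  Let `M` = group of the periods of `P`, `K ≤ M`, `P` is a union of `M`-cosets, `P = st (FS (s \ {i0,i1}) f') M`.  `M ≠ ⊤`: otherwise `P = G = T'` is not aperiodic (`N > 1`).  `c ∉ M`: otherwise `P + c = P` and every element of `T'` is an element of `FS (s \ {i0, i1}) f'` plus `0`, one or two elements
of `c + K ⊆ M`, so `T' ⊆ P ⊆ T'`, and `T' = P` has the periods `K ≠ ⊥`: contradiction.  So `f' i0, f' i1 ∉ M`.  `μ = |M|`, `a = |ins s f' M|`, `w = t - a`; `Z1 = outs (s \ {i0, i1}) f' M` has `w - 2` members; SDG.Qu for `s \ {i0, i1}` and `M`: `μ |FS Z1 f̄| = |P|`, `FS Z1 f̄` is aperiodic (the periods of `P` are in `M`),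
`Cap (2 μ)`, nonzero members.  `TT μ (w - 2)` (`μ ≥ 2`): `μ cf (2μ) (w-2) ≤ |P|`.  MDR.SC (with `Z := s \ {i0,i1}`, `g := c`): `|P| + |FS (ins s f' M) f'| ≤ |T'|`.  `PF a` (`a ≤ t - 2 < t`): `cf 2 a ≤ |FS (ins s f' M) f'|`, and this is `≤ μ - 1` (SDG.Kn (4)).  If `μ ≥ 5`: `a + 3 ≤ μ` and `cf 2 t ≤ |T|` (MDR.N5): contradiction.
`μ` is odd and `≥ |K| ≥ 3`, so `μ = 3`, `K = M`, `cf 2 a ≤ 2` gives `a ≤ 1`; `a = 0` is again excluded by MDR.N5 (`a + 3 ≤ 3`).  So `a = 1`.  Finally `t ≥ 8`: otherwise `w ≤ 6` and Nu (5) with `cf 2 1 = 2` gives `cf 2 t ≤ |T|`. -/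
def St_SR : Prop :=
  ∀ (G ι : Type) [AddCommGroup G] [Finite G] (t : ℕ) (s u : Finset ι) (f : ι → G) (K : AddSubgroup G), Ctx t s f → u ⊆ s → AS u f →
    (∃ i ∈ u, f i ∉ K) → K ≠ ⊥ → (st (sym u f) K).card + 1 ≤ (sym u f).card + Nat.card K →
      Nat.card K = 3 ∧ (ins s f K).card = 1 ∧ 8 ≤ t

/-! ## Subgroups with many members, the halves -/

/-- **Ix** (2 h, from SDG.Ba1, SDG.Kn, SDG.Sm, Nu).  `M` of prime index `p`.
Proof.  `G / M` has prime order `p` (odd).  Let `R ⊆ outs s f M`, `|R| ≤ p - 1`.  The sums of the images of `R` in `G / M` are at least `|R| + 1` (adding a nonzero element `x̄` to a set `Ā` which is not the whole group of prime order: `Ā + x̄ ≠ Ā`, so at least one new element), and every `M`-coset that contains a sum `z` of `R` contains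
`z + FS (ins s f M) f`.  So `|FS (ins s f M ∪ R) f| ≥ (|R| + 1) |FS (ins s f M) f|`, and `|FS (ins s f M) f| ≥ cf 2 τ`, `τ = |ins s f M| < t` (`PF τ`; `outs s f M` is not empty since `gen s f = ⊤`).  By SDG.Kn (1) (aperiodic): `|T| + 1 ≥ |FS (ins ∪ R) f| + |FS (outs \ R) f| ≥ (|R|+1) cf 2 τ + cf 2 (e - |R|)`, `e = |outs s f M| = t - τ`.
`e ≤ 3`, `e ≤ p - 1`: `R = outs`, Nu (1): contradiction.  `p ≥ 5`, `e ≥ 4`: `|R| = 4`; if `t / 2 ≤ τ + 1`, Nu (2) is a contradiction to `|T| < cf 2 t`.  `p = 3`, `e ≥ 2` (`e = 1` was excluded): `|R| = 2`, if `(t+1)/2 ≤ τ`, Nu (3) is a contradiction. -/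
def St_Ix : Prop :=
  ∀ (G ι : Type) [AddCommGroup G] [Finite G] (t : ℕ) (s : Finset ι) (f : ι → G) (M : AddSubgroup G), Ctx t s f → 9 ≤ t → M.index.Prime →
    (5 ≤ M.index → (ins s f M).card + 2 ≤ t / 2) ∧ (M.index = 3 → (ins s f M).card + 1 ≤ (t + 1) / 2)

/-- **Hv** (2 h, from MDR.Sp2).  The halves.  At most half of the members in `M`, `i0 ∈ s`: a splitting into two antisymmetric parts of sizes `J = (t+1)/2`, `t / 2`, the first one contains `i0`, both have at least two members outside `M`.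
Proof.  Splittings with the right sizes exist (MDR.Sp2; sizes differ by at most one).  One with `i0 ∈ s1`: if `i0 ∈ s2`: if some `j ∈ s1` has `f j = ± f i0`, exchange `i0` and `j`.  Otherwise, if `t` is even, exchange the names `s1`, `s2`; if `t` is odd, `|s1| > |s2|`, so some `j ∈ s1` has no `j' ∈ s2` with `f j' = ± f j` (otherwise `s1` injects into `s2`);
exchange `i0` and `j`: both parts are antisymmetric.  Among all these splittings choose one that maximises `min (|outs s1 f M|, 2) + min (|outs s2 f M|, 2)`.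
Suppose `|outs s1 f M| ≤ 1`.  Then `|ins s1 f M| ≥ J - 1 ≥ |ins s f M|`, so `ins s2 f M = ∅`.  Choose `x ∈ ins s1 f M`, `x ≠ i0` (`J - 1 ≥ 4`), and `y ∈ s2` with no member `± f y` in `s1` (such a member would be outside `M`, at most one `j ∈ s1` is outside, and it has at most one partner in `s2`; `|s2| ≥ 4`).  `x` has no partner in `s2` (it would be in `M`).
Exchange `x` and `y`: `|outs s1|` grows by one and `|outs s2| ≥ |s2| - 1 ≥ 3`: contradiction to the choice.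
Suppose `|outs s2 f M| ≤ 1`.  Then `|ins s2 f M| ≥ t/2 - 1`, `|ins s1 f M| ≤ J - 1 - (t/2 - 1) ≤ 1`.  Choose `x ∈ ins s2 f M` without partner in `s1` (`|ins s2 f M| ≥ 3`, at most one has a partner) and `y ∈ outs s1 f M`, `y ≠ i0`, without partner in `s2` (`|outs s1 f M| ≥ J - 1 ≥ 4`, at most one has a partner, since a partner is outside `M`).
Exchange `x` and `y`: `|outs s2|` grows by one, `|outs s1| ≥ J - 2 ≥ 3`: contradiction. -/
def St_Hv : Prop :=
  ∀ (G ι : Type) [AddCommGroup G] (s : Finset ι) (f : ι → G) (M : AddSubgroup G) (i0 : ι), (∀ i ∈ s, f i ≠ 0) → Cap 2 s f → 9 ≤ s.card →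
    (ins s f M).card + 1 ≤ (s.card + 1) / 2 → i0 ∈ s →
      ∃ s1 s2 : Finset ι, Disjoint s1 s2 ∧ s1 ∪ s2 = s ∧ AS s1 f ∧ AS s2 f ∧ s1.card = (s.card + 1) / 2 ∧ s2.card = s.card / 2 ∧ i0 ∈ s1 ∧
        2 ≤ (outs s1 f M).card ∧ 2 ≤ (outs s2 f M).card

/-- **Dr** (1 h, from SDG.Ba1, SDG.Sm, MDR.B3, Nu).  No subgroup with exactly two members outside.  `u ⊆ s`, `|u| = l ≥ 5`, `2 |FS u f| ≤ 2 + l (l+1)`.
Proof.  Let `outs u f M = {x, y}`.  In `G / M` (odd order) the classes `0, x̄, ȳ, x̄ + ȳ` contain at least three different ones (`x̄ = ȳ`: `0, x̄, 2 x̄`; `x̄ = - ȳ`: `0, x̄, - x̄`; otherwise `0, x̄, ȳ`), so `|FS u f| ≥ 3 |FS (ins u f M) f|`, `|ins u f M| = l - 2`.  `l = 5`: `|FS (ins)| ≥ 7` (MDR.B3), `42 > 32`.  `l = 6`: `|FS (ins)| ≥ 8` (MDR.B3 for three of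
the four members, and one more member adds at least one sum since the sums are aperiodic), `48 > 44`.  `l ≥ 7`: `|FS (ins)| ≥ cf 2 (l - 2)` (`PF (l-2)`, `Cap 1` implies `Cap 2`), Nu (4). -/
def St_Dr : Prop :=
  ∀ (G ι : Type) [AddCommGroup G] [Finite G] (t : ℕ) (s u : Finset ι) (f : ι → G) (M : AddSubgroup G), Ctx t s f → u ⊆ s → AS u f →
    5 ≤ u.card → 2 * (FS u f).card ≤ 2 + u.card * (u.card + 1) → (outs u f M).card ≠ 2

/-- **Bn** (0.7 h, from SDG.Ba1, SDG.Kn, SDG.Sm).  `N ≥ F2 (t-1) + 2`.  `|FS (s.erase i) f| ≥ cf 2 (t-1)` (`PF (t-1)`), `T` has more elements (otherwise `T = FS (s.erase i) f` and `f i ≠ 0` is a period), and `T ≠ G`. -/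
def St_Bn : Prop :=
  ∀ (G ι : Type) [AddCommGroup G] [Finite G] (t : ℕ) (s : Finset ι) (f : ι → G), Ctx t s f → 1 ≤ t → cf 2 (t - 1) + 2 ≤ Nat.card G

/-- **Bo** (1.8 h, from MDR.Sg).  Four members, odd order.  `|FS| ≥ 12`, or a progression, or `{h, z, z + h, z - h}` with `3 h = 0`.
Proof.  Values `v1, ..., v4`.  Two different subsets with the same sum give a relation `∑ ε_j v_j = 0`, `ε_j ∈ {-1, 0, 1}`, not all zero (up to sign of the whole relation); relations with one or two nonzero signs are impossible (`AS`), for each of the four triples there is at most one relation (two of them differ in one sign up to a global sign: `2 v_j = 0`), for the whole set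
there is at most one relation with four nonzero signs?  Two of them can differ in two signs: `2 (v_i ± v_j) = 0`, so `v_i = ∓ v_j`, impossible; so at most one.  Each triple relation identifies two pairs of subsets, the 4-relation one pair.  So `|FS| ≥ 16 - 2 τ - 1` if there are `τ` triple relations, and `|FS| ≥ 13` for `τ ≤ 1`.
`τ ≥ 2`: two triples share two members `a, b`; changing signs (MDR.Sg) `c = a + b`, `e = a - b` (`e = ± a ± b`, `e ≠ ± c`).  The 16 sums of `a, b, a + b, a - b` are the twelve elements `0, a, b, a+b, a-b, 2a, 2a+b, 2a-b, 2a+2b, a+2b, 3a, 3a+b`.  If they are different, `|FS| = 12`.  Otherwise there is a third relation (a relation different from the two triple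
relations `c = a + b`, `e = a - b`).  The third relation is on `{a, c, e}`: `± a ± (a+b) ± (a-b) = 0`, i.e. `3 a = 0`, `a = 0`, `a + 2 b = 0` or `a - 2 b = 0`; or on `{b, c, e}`: `3 b = 0`, `b = 0`, `2 a + b = 0`, `2 a - b = 0`; or on all four: `3 a ± b = 0`, `a ± b = 0`, `a ± 3 b = 0`.
`a = 0`, `b = 0`, `a ± b = 0` are impossible; `a = ∓ 2 b` gives `c = ∓ b` or `e = ± b`, impossible, in the same way `b = ∓ 2 a` (then `c = - a` or `e = - a`).  `3 a = 0`: `h = a`, `z = b`: the members are `h, z, z + h, -(z - h)`.  `3 b = 0`: `h = b`, `z = a`.  `b = ± 3 a`: up to sign `a, 3a, 4a, 2a`; `a = ± 3 b`: `3b, b, 4b, 2b`: progressions.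
(For Lean: it is also possible to avoid the counting of relations: put `X = {0, a} + {0, b} + {0, c}`, etc.; the only thing that matters is the finite case distinction.) -/
def St_Bo : Prop :=
  ∀ (G ι : Type) [AddCommGroup G] [Finite G] (s : Finset ι) (f : ι → G), Odd (Nat.card G) → AS s f → s.card = 4 →
    12 ≤ (FS s f).card ∨ Prog s f ∨ ∃ h z : G, h ≠ 0 ∧ (3 : ℕ) • h = 0 ∧
      ∀ i ∈ s, f i = h ∨ f i = -h ∨ f i = z ∨ f i = -z ∨ f i = z + h ∨ f i = -(z + h) ∨ f i = z - h ∨ f i = -(z - h)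

/-! ## Levels modulo the group of order three -/

/-- **Lv** (1 h).  Levels.  `G / K` is cyclic, generated by `d`, of odd order `q = K.index`.  Every `f i` is congruent to `n d`, `0 ≤ n < q`; if `2 n + 1 ≤ q` take `lv i = n`, `f' i = f i`, otherwise `lv i = q - n`, `f' i = - f i`.  (For `f i ∈ K`: `n = 0`.)  Uniqueness: `k d ≡ ± k' d` modulo `K`, `k, k' ≤ (q-1)/2` implies `k = k'`
(the class of `d` has order `q`, `|k ∓ k'| < q`, and `k + k' = 0` only for `k = k' = 0`). -/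
def St_Lv : Prop :=
  ∀ (G ι : Type) [AddCommGroup G] [Finite G] (f : ι → G) (K : AddSubgroup G) (d : G), Odd (Nat.card G) → (∀ x : G, ∃ k : ℕ, x - k • d ∈ K) →
    ∃ (f' : ι → G) (lv : ι → ℕ), (∀ i, f' i = f i ∨ f' i = - f i) ∧ (∀ i, f' i - lv i • d ∈ K) ∧ (∀ i, lv i = 0 ↔ f i ∈ K) ∧
      (∀ i, 2 * lv i + 1 ≤ K.index) ∧ (∀ (i : ι) (k : ℕ), 2 * k + 1 ≤ K.index → (f i - k • d ∈ K ∨ f i + k • d ∈ K) → lv i = k)

/-- **Et** (1 h).  Extension of a periodic interval.  `f i ∈ lv i • d + K` for `i ∈ R`, `s0`, `R` disjoint, `Per (FS s0 f) K d m`, and `1 ≤ lv i`, `lv i + 1 ≤ m + ∑_{j ∈ R, lv j < lv i} lv j` for `i ∈ R`.  Then `Per (FS (s0 ∪ R) f) K d (m + ∑_R lv)`.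
Proof.  Induction on `|R|`.  Let `i ∈ R` have maximal level, `R' = R.erase i`; the condition holds for `R'` (the members of level `< lv j`, `j ∈ R'`, are in `R'`).  `m' = m + ∑_{R'} lv ≥ lv i + 1`.  `FS (s0 ∪ R) f ⊇ Y ∪ (Y + f i)`, `Y = FS (s0 ∪ R') f`.  Let `1 ≤ v ≤ m' + lv i - 1`.  If `v ≤ m' - 1`: use `Y`.  Otherwise `1 ≤ v - lv i ≤ m' - 1`
(`v ≥ m' ≥ lv i + 1`), and `v • d + k = ((v - lv i) • d + k') + f i`, `k' = k - (f i - lv i • d) ∈ K`. -/
def St_Et : Prop :=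
  ∀ (G ι : Type) [AddCommGroup G] [Finite G] (s0 R : Finset ι) (f : ι → G) (K : AddSubgroup G) (d : G) (lv : ι → ℕ) (m : ℕ), Disjoint s0 R →
    (∀ i ∈ R, f i - lv i • d ∈ K) → Per (FS s0 f) K d m →
    (∀ i ∈ R, 1 ≤ lv i ∧ lv i + 1 ≤ m + ∑ j ∈ R.filter (fun j => lv j < lv i), lv j) → Per (FS (s0 ∪ R) f) K d (m + ∑ i ∈ R, lv i)

/-- **Fu** (1.8 h, from Et).  Periodic intervals from full cosets.  `|K| = 3`, `u` antisymmetric, `f i ∈ lv i • d + K`, `lv i ≥ 1` exactly for the members outside `K`.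
(1) three members of level 1 and `lv i + 1 ≤ ∑_{lv j < lv i} lv j` for every member of level `≥ 2`: `Per (FS u f) K d (∑_u lv)`.
(2) two members of level 1, three members of level 2, a member in `K`, and the same condition for the members of level `≥ 3`: the same conclusion.
Proof.  (1) `z1, z2, z3` = the members of level 1, three different elements (`Cap 1`) of the coset `d + K` which has three elements; so `{z1, z2, z3} = d + K`, and `z1 + z2, z1 + z3, z2 + z3` are three different elements of `2 d + K`: `Per (FS {1,2,3} f) K d 3`.  Et with `s0` = the three members, `m = 3`, `R` = members of level `≥ 2`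
(`3 + ∑_{j ∈ R, lv j < lv i} lv j = ∑_{j ∈ u, lv j < lv i} lv j` for `lv i ≥ 2`); the member in `K` is added at the end (`FS_mono`; its level is 0).
(2) `h` = the member in `K`, `h ≠ 0`; `z, z'` level 1; `y1, y2, y3` level 2.  For an element `y` of a coset of `K` the set `{y, y + h}` is the coset minus `y - h`; so for `y ≠ y'` in the same coset `{y, y+h} ∪ {y', y'+h}` is the whole coset (*).  `Per (FS {h, z, z', y1, y2} f) K d 6`: level 1: `{z, z+h} ∪ {z', z'+h}`; level 2: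
`{y1, y1+h} ∪ {y2, y2+h}`; level 3: level 1 plus `y1`; level 4: `z + z' + y1 + {0,h}` and `z + z' + y2 + {0,h}`; level 5: level 1 plus `y1 + y2`.  Then Et with `s0` = these five, `m = 6`, `R` = `y3` and the members of level `≥ 3` (for `y3`: `2 + 1 ≤ 6`; for level `≥ 3`: `6 + ∑_{j ∈ R, lv j < lv i} lv j = ∑_{j ∈ u, lv j < lv i} lv j`). -/
def St_Fu : Prop :=
  ∀ (G ι : Type) [AddCommGroup G] [Finite G] (u : Finset ι) (f : ι → G) (K : AddSubgroup G) (d : G) (lv : ι → ℕ), Nat.card K = 3 → AS u f →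
    (∀ i ∈ u, f i - lv i • d ∈ K) →
    ((u.filter fun i => lv i = 1).card = 3 →
      (∀ i ∈ u, 2 ≤ lv i → lv i + 1 ≤ ∑ j ∈ u.filter (fun j => lv j < lv i), lv j) → Per (FS u f) K d (∑ i ∈ u, lv i)) ∧
    ((u.filter fun i => lv i = 1).card = 2 → (u.filter fun i => lv i = 2).card = 3 → (∃ i ∈ u, lv i = 0) →
      (∀ i ∈ u, 3 ≤ lv i → lv i + 1 ≤ ∑ j ∈ u.filter (fun j => lv j < lv i), lv j) → Per (FS u f) K d (∑ i ∈ u, lv i))

/-- **Ct** (1 h).  Counting by levels.  `|K| = 3`, `G / K` cyclic of order `q = K.index` generated by `d`; `Per X K d m`.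
The cosets `v d + K`, `0 ≤ v < q`, are different and cover `G`.  (1) `m + 1 ≤ q`: levels `1, ..., m-1` are full, plus the elements of `X` of level `0` and of level `m`.  (2) `m = q`: levels `1, ..., q - 1` are full, plus level 0.  (3) `m ≥ q + 1`: also level `q ≡ 0` is full, `X` is everything.  (4) two intervals: `Per X K d m` and
`X ⊇ (Per set) + y`, `y ∈ k d + K`, `m ≤ k`, `k + m + 1 ≤ q`: the levels `1, ..., m-1` and `k+1, ..., k+m-1` are full; the levels `0`, `m`, `k + m` are different from these and from each other. -/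
def St_Ct : Prop :=
  ∀ (G : Type) [AddCommGroup G] [Finite G] (X : Finset G) (K : AddSubgroup G) (d : G) (m : ℕ), Nat.card K = 3 → (∀ x : G, ∃ k : ℕ, x - k • d ∈ K) →
    1 ≤ m → Per X K d m →
    (m + 1 ≤ K.index → 3 * (m - 1) + (X.filter fun x => x ∈ K).card + (X.filter fun x => x - m • d ∈ K).card ≤ X.card) ∧
    (m = K.index → 3 * (m - 1) + (X.filter fun x => x ∈ K).card ≤ X.card) ∧
    (K.index + 1 ≤ m → ∀ x, x ∈ X) ∧
    (∀ k : ℕ, m ≤ k → k + m + 1 ≤ K.index → (∀ v : ℕ, 1 ≤ v → v + 1 ≤ m → ∀ x ∈ K, (k + v) • d + x ∈ X) →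
      6 * (m - 1) + (X.filter fun x => x ∈ K).card + (X.filter fun x => x - m • d ∈ K).card + (X.filter fun x => x - (k + m) • d ∈ K).card ≤ X.card)

/-- **Kx** (2 h, from SDG.Ba1, SDG.Kn, MDR.Sg, Lv, Fu, Ct).  Extension of an exceptional family.  `u.erase i` exceptional (`a`, `r` members of level `a + 1`), `f i ∉ K`, `l = |u| = 3 a + r + 2`.
Proof.  Let `m = 3 a (a+1) / 2 + r (a+1)` be the sum of the levels of `u.erase i`; `6 m + 2 = l (l-1) + 2` if `r ≥ 1`, `6 m + 4 = l (l-1) + 2` if `r = 0` (`l - 1 = 3 a + r + 1`).  So `6 m ≤ l (l - 1)`.  CLAIM `2 m + 1 ≤ q`, `q = K.index = N / 3`.  If `l (l-1) + 3 ≤ N`: clear.  If `2 |FS u f| ≤ N`: see below.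
Choose `f', lv` by Lv (MDR.Sg: pass to `f'`).  `u.erase i` has `3 a + r` antisymmetric members outside `K`, so `2 (3 a + r) ≤ |G \ K| = 3 q - 3`, i.e. `2 a + 1 ≤ q`, and `2 a + 3 ≤ q` if `r ≥ 1` (`q` is odd); so `lv` agrees with the levels of the definition on `u.erase i`.
`X' = FS (u.erase i) f'`; the condition of Fu (1) holds (level `k ≥ 2`: `∑_{lv < k} lv = 3 k (k-1)/2 ≥ k + 1`), so `Per X' K d m`.  `X'` contains `0`, `f' h` (`h` the member in `K`) and `w`, `w - f' h` (`w` the sum of all, level `m`), so `|X'| ≥ 3 m + 1` if `m < q`.  If `m ≥ q`: `|X'| ≥ 3 q - 1` (Ct (2), (3)) and `2 |FS u f| ≤ N = 3 q` is impossible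
(`6 q - 2 > 3 q`).  So in the second case `m < q`, `2 (3 m + 1) ≤ 2 |X'| < 2 |FS u f| ≤ 3 q`, and `2 m + 1 ≤ q`.
Let `j = lv i`, `1 ≤ j ≤ (q-1)/2`.  `j ≤ a`: four antisymmetric members in `± (j d + K)`, impossible (three elements in the coset `j d + K`).  `j = a + 1`: `u` is exceptional (`r + 1 ≤ 2` members of level `a + 1`, or `r = 2` and the cosets are full up to `a + 1`).  Let `j ≥ a + 2`; `X = FS u f' = X' ∪ (X' + f' i)`.
If `j + 1 ≤ m`: `Per X K d (m + j)` (Et with one member), `m + j < q`, `|X| ≥ 3 (m + j - 1) + 4 ≥ 3 m + 3 a + 7` (level 0: `0, f' h`; top level: `w + f' i`, `w + f' i - f' h`).  If `j ≥ m`: Ct (4) with `k = j` (`j + m ≤ q - 1`): `|X| ≥ 6 (m-1) + 2 + 2 + 2 = 6 m` (level `m`: `w, w - f' h`; level `j + m`: `w + f' i` and this minus `f' h`), and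
`6 m ≥ 3 m + 3 a + 6` as `m ≥ a + 2`.  In both cases `2 |X| ≥ 6 m + 6 a + 12 ≥ 4 + l (l+1)`: `l (l+1) = l (l-1) + 2 l ≤ 6 m + 2 + 2 (3 a + r + 2) ≤ 6 m + 6 a + 8` for `r = 0` (here `l (l-1) = 6 m + 2`, `2 l = 6 a + 4`: sum `6 m + 6 a + 6`) and `l (l-1) = 6 m`, `2 l = 6 a + 2 r + 4 ≤ 6 a + 8` for `r ≥ 1`. -/
def St_Kx : Prop :=
  ∀ (G ι : Type) [AddCommGroup G] [Finite G] (u : Finset ι) (f : ι → G) (K : AddSubgroup G) (a : ℕ) (i : ι), Cls G → AS u f → Aper (FS u f) →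
    i ∈ u → KAP (u.erase i) f K a → f i ∉ K →
    (u.card * (u.card - 1) + 3 ≤ Nat.card G ∨ 2 * (FS u f).card ≤ Nat.card G) →
      Exc f u ∨ 4 + u.card * (u.card + 1) ≤ 2 * (FS u f).card

/-- **Kh** (2 h, from SDG.Ba1, MDR.Sg, MDR.Sy, Lv, Fu, Ct).  Nearly filled by `K`, `|K| = 3`, and a progression modulo `K`.  `b = |ins u f K| ≤ 1`; `a'` = number of classes: every member outside `K` is congruent to `± k d`, `1 ≤ k ≤ a'`, and `3 (2 a' + 1) = |st (sym u f) K| ≤ |sym u f| + 2 = 2 l + 3`.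
Proof.  `3 a' ≤ l`.  Antisymmetric members: at most three of each level; so `l ≤ b + 3 a'`.  Levels: `2 a' + 1 ≤ q` as the `2 a'` cosets `± k d + K` are different from each other (they are all in `st (sym u f) K`, which has `2 a' + 1` cosets).
`b = 0`: `l = 3 a'`, all levels full.  Fu (1): `m = 3 a' (a'+1)/2`, `Per`.  `m < q`: if `m ≥ q` then `|FS| ≥ 3 (q-1) + 1`; this contradicts `2 |FS u f| ≤ 3 q` (`q ≥ 2`), and if `l (l-1) + 3 ≤ N = 3 q` then `q ≥ 3 a'^2 - a' + 1 > m` (`a' ≥ 2`).  Ct (1): `|FS| ≥ 3 (m-1) + 2`, `2 |FS| ≥ 9 a'^2 + 9 a' - 2 ≥ 4 + l (l+1) = 4 + 9 a'^2 + 3 a'`.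
`b = 1`: `l = 3 a' + 1`: all levels full, `KAP u f K a'`.  Or `l = 3 a'`: exactly one level `i0` has two members, the others three.  `i0 = a'`: `KAP u f K (a' - 1)` (`a' ≥ 2`, since `l ≥ 5`).  `i0 < a'`: `m = 3 a' (a'+1)/2 - i0`; Fu (1) for `i0 ≥ 2` (level `k ≥ 2`: the sum of the lower levels is `≥ 3 k (k-1)/2 - (k-1) ≥ k + 1` for `k ≥ 3`, and `= 3` for `k = 2`), Fu (2) for
`i0 = 1`.  `m < q` as before, `|FS| ≥ 3 (m - 1) + 4` (level 0: `0, h`; level `m`: `w, w - h`), `2 |FS| ≥ 6 m + 2 = 9 a'^2 + 9 a' - 6 i0 + 2 ≥ 9 a'^2 + 3 a' + 8 = 8 + l (l+1)`. -/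
def St_Kh : Prop :=
  ∀ (G ι : Type) [AddCommGroup G] [Finite G] (u : Finset ι) (f : ι → G) (K : AddSubgroup G) (d : G) (a' : ℕ), Cls G → AS u f → Aper (FS u f) →
    5 ≤ u.card → Nat.card K = 3 → (ins u f K).card ≤ 1 → (∀ x : G, ∃ k : ℕ, x - k • d ∈ K) →
    (∀ i ∈ u, ∃ k : ℕ, k ≤ a' ∧ (f i - k • d ∈ K ∨ f i + k • d ∈ K)) → (st (sym u f) K).card = 3 * (2 * a' + 1) →
    (st (sym u f) K).card ≤ (sym u f).card + 2 →
    (u.card * (u.card - 1) + 3 ≤ Nat.card G ∨ 2 * (FS u f).card ≤ Nat.card G) →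
      Exc f u ∨ 4 + u.card * (u.card + 1) ≤ 2 * (FS u f).card

/-- **Ke** (1 h, from SDG.Ba1, SDG.Kn, MDR.Sg, Lv, Fu, Ct).  Exceptional families with `r ≥ 1` (i.e. `l ≠ 3 a + 1`) have at least `F1 l` sums if `l (l-1) + 3 ≤ N`.
Proof.  As in Kx: `m = 3 a (a+1)/2 + r (a+1)`, `l = 3 a + r + 1`, `2 + l (l+1) = 6 m + 2` for `r = 1, 2`.  `m < q = N / 3`: `6 m = l (l+1)`, `3 q ≥ l (l-1) + 3`, and `l (l+1) < 2 (l (l-1) + 3)`.  Levels: `2 (3 a + r) ≤ 3 q - 3` and `r ≥ 1` give `2 a + 3 ≤ q` (`q` odd), so `lv` of Lv agrees with the levels of the definition.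
`Per` by Fu (1), `|FS| ≥ 3 (m-1) + 4 = 3 m + 1`. -/
def St_Ke : Prop :=
  ∀ (G ι : Type) [AddCommGroup G] [Finite G] (u : Finset ι) (f : ι → G) (K : AddSubgroup G) (a : ℕ), Cls G → AS u f → Aper (FS u f) →
    KAP u f K a → u.card ≠ 3 * a + 1 → u.card * (u.card - 1) + 3 ≤ Nat.card G → 2 + u.card * (u.card + 1) ≤ 2 * (FS u f).card

/-- **Kg** (2.5 h, from SDG.Nm1, SDG.Ba1, SDG.Kn, MDR.Sg, Lv, Et, Fu, Ct).  The last step.  `s1` exceptional with `r = 0` (`|s1| = 3 a + 1`), `s2` antisymmetric without members in `K`, `|s2| = 3 a` or `|s2| = 3 a + 1`: at least `cf 2 |s|` sums.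
Proof.  `f', lv` by Lv for all of `s = s1 ∪ s2` (MDR.Sg); `q = K.index ≥ 2 a + 1` as in Kx, so the levels of `s1` are those of the definition.  `m = 3 a (a+1)/2`; `Per (FS s1 f') K d m` (Fu (1)).  `h ∈ s1` the member in `K`.  Let `R ⊆ s2` be maximal (number of members) with `Per (FS (s1 ∪ R) f') K d m'`, `m' = m + ∑_R lv`.  By Et (one member) every
`i ∈ s2 \ R` has `lv i ≥ m'`.
(a) `R = s2`.  At most three members of `s2` have the same level (antisymmetric, `|K| = 3`), so `∑_{s2} lv ≥ 3 a (a+1)/2` if `|s2| = 3 a`, `≥ 3 a (a+1)/2 + (a + 1)` if `|s2| = 3 a + 1`.  `m' > q` is impossible (Ct (3), aperiodic); `|T| ≥ 3 (m' - 1) + 4` if `m' < q`, `≥ 3 (m'-1) + 2` if `m' = q` (level 0: `0, f' h`; top level: `w, w - f' h`).  So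
`|T| ≥ 3 m' - 1 ≥ 9 a^2 + 9 a - 1 ≥ 9 a^2 + 6 a + 2 = cf 2 (6 a + 1)`, resp. `|T| ≥ 9 a^2 + 12 a + 2 ≥ 9 a^2 + 9 a + 3 = cf 2 (6 a + 2)`.
(b) `R ≠ s2`, `i ∈ s2 \ R`, `k = lv i ≥ m'`, `2 k + 1 ≤ q`; `Y = FS (s1 ∪ R) f'`, `T' ⊇ Y ∪ (Y + f' i)`; Ct (4) (`k + m' + 1 ≤ 2 k + 1 ≤ q`) gives `|T| ≥ 6 (m' - 1) + 2 + 2 + 2 = 6 m'` (level 0: `0, f' h`; level `m'`: `w, w - f' h`, `w` the sum of `s1 ∪ R`; level `k + m'`: these plus `f' i`).  `|s2| = 3 a`: `6 m' ≥ 9 a^2 + 9 a ≥ cf 2 (6 a + 1)`.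
`|s2| = 3 a + 1`, `R ≠ ∅`: `6 m' ≥ 6 (m + 1) ≥ 9 a^2 + 9 a + 3`.  `R = ∅`: all members of `s2` have level `≥ m`; as `3 a + 1 > 3` there are two members `i, i'` with levels `k < k'`.  The levels `1, ..., m-1`, `k+1, ..., k+m-1` and `k' + m - 1` are full in `T'` (`k' + m - 1 > k + m - 1`, `k' + m ≤ 2 k' ≤ q - 1`), the levels `0`, `m`, `k' + m` contain two
elements each and are different from the full ones (`m ≤ k < k'`) and from each other: `|T| ≥ 3 (2 m - 1) + 6 = 6 m + 3 = 9 a^2 + 9 a + 3`. -/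
def St_Kg : Prop :=
  ∀ (G ι : Type) [AddCommGroup G] [Finite G] (s1 s2 : Finset ι) (f : ι → G) (K : AddSubgroup G) (a : ℕ), Cls G → Disjoint s1 s2 → AS s1 f → AS s2 f →
    Aper (FS (s1 ∪ s2) f) → KAP s1 f K a → s1.card = 3 * a + 1 → (∀ i ∈ s2, f i ∉ K) →
    (s2.card = 3 * a + 1 ∨ s2.card = 3 * a) → cf 2 (s1.card + s2.card) ≤ (FS (s1 ∪ s2) f).card

/-! ## Growth, the engine -/

/-- **Gq** (1.5 h).  `|K| = 3`, `D` symmetric, `K` nearly fills `D`, `D ⊄ K`.  Then `it D i` is `K`-periodic for `i ≥ 2`, `|it D i| = 3 |it D̄ i|`.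
Proof.  `D + K` has at most two elements more than `D`; `N` odd.  A coset `y + K ≠ K` that meets `D` is contained in `D`, or it contains exactly two elements of `D`; in the second case the same holds for `- y + K ≠ y + K`, these are the two missing elements, so `K ⊆ D` and all other cosets are full.  (A coset that contains exactly one element of `D`: four elements missing,
impossible.)  Let `x = y + y'`, `y, y' ∈ D`, `k ∈ K`; claim `x + k ∈ D + D`.  If `y ∉ K` has a full coset: `(y + k) + y'`; the same for `y'`.  If `y ∉ K` has a coset with two elements of `D` and `y' ∈ K`: `K ⊆ D`, `y + (y' + k)`.  If both have such cosets: these are `A = D ∩ (z + K)`, `|A| = 2`, and `- A`; `A + A` and `A - A` are full cosets (two different elements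
`p, p + h`: `2p, 2p + h, 2p + 2h`; `0, ± h`).  If `y, y' ∈ K`: `x + k ∈ K`; take a coset `z + K` meeting `D`, `z ∉ K`: `K ⊆ (D ∩ (z + K)) - (D ∩ (z + K)) ⊆ D + D`.  So `it D 2 = {0} + D + D` is `K`-periodic and so is `it D i = it D 2 + ...`.  The image of `it D i` in `G / K` is `it D̄ i`. -/
def St_Gq : Prop :=
  ∀ (G : Type) [AddCommGroup G] [Finite G] (D : Finset G) (K : AddSubgroup G), Odd (Nat.card G) → Nat.card K = 3 → (0 : G) ∈ D → (∀ y ∈ D, -y ∈ D) →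
    (∃ y ∈ D, y ∉ K) → (st D K).card ≤ D.card + 2 →
      ∀ i, 2 ≤ i → (it D i).card = 3 * (it (D.image fun x => (QuotientAddGroup.mk x : G ⧸ K)) i).card

/-- **G3** (1.8 h, from MDR.Sy, MDR.Gw, Gq).  Growth if `K`, `|K| = 3`, nearly fills `D = sym u f`, and all subgroups that nearly fill `D` have order 3.
Proof.  `D̄` = image of `D` in `Ḡ = G / K` (odd order `q`), symmetric, contains `0`, so `|D̄| = 2 a' + 1`; `3 |D̄| = |st D K|`, and `|D| ≤ 3 |D̄| ≤ |D| + 2`, i.e. `2 l + 1 ≤ 6 a' + 3 ≤ 2 l + 3`; `a' ≥ 1`.  `¬ NearP D̄`: if `K̄' ≠ ⊥, ⊤` nearly fills `D̄`, let `K'` be its preimage, `|K'| = 3 |K̄'| ≥ 9`, `K' ≠ ⊤`; `|st D K'| = 3 |st D̄ K̄'| ≤ 3 (|D̄| + |K̄'| - 1) ≤ |D| + 2 + |K'| - 3`, so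
`K'` nearly fills `D` and must have order 3: contradiction.  MDR.Gw for `D̄`, `l := a'`.  Either all elements of `D̄` are `± k d̄`, `k ≤ a'`: then `d̄` generates `Ḡ` (`D` generates `G`), and with `d` a representative the second alternative holds (every element of the finite cyclic group `Ḡ` is `k d̄`, `k : ℕ`).  Or for `i ≥ 1`: `|it D̄ i| ≥ q` or `i (2 a' + 2) ≤ |it D̄ i| + 1`.  `Grow`: `i = 1`:
`it D 1 = D` has `2 l + 1` elements.  `i ≥ 2`: Gq: `|it D i| = 3 |it D̄ i|`, so `|it D i| ≥ 3 q = N`, or `|it D i| + 3 ≥ 3 i (2 a' + 2) = i (6 a' + 4) + 2 i ≥ i (2 l + 2) + 2 i` (`l ≤ 3 a' + 1`), and `2 i ≥ 4`. -/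
def St_G3 : Prop :=
  ∀ (G ι : Type) [AddCommGroup G] [Finite G] (u : Finset ι) (f : ι → G) (K : AddSubgroup G), Odd (Nat.card G) → AS u f → gen u f = ⊤ →
    Nat.card K = 3 → K ≠ ⊤ → (st (sym u f) K).card ≤ (sym u f).card + 2 →
    (∀ K' : AddSubgroup G, K' ≠ ⊥ → K' ≠ ⊤ → (st (sym u f) K').card + 1 ≤ (sym u f).card + Nat.card K' → Nat.card K' = 3) →
      Grow f u ∨ ∃ (d : G) (a' : ℕ), (∀ x : G, ∃ k : ℕ, x - k • d ∈ K) ∧ (st (sym u f) K).card = 3 * (2 * a' + 1) ∧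
        ∀ i ∈ u, ∃ k : ℕ, k ≤ a' ∧ (f i - k • d ∈ K ∨ f i + k • d ∈ K)

/-- **H5** (1 h, from SDG.Ba1, SDG.Sm, MDR.GwF, Cl, SR, G3, Kh).  Growth in a minimal violating family.  If `¬ NearP (sym u f)`: MDR.GwF.  Otherwise SR: every `K ≠ ⊥, ⊤` that nearly fills `sym u f` has order 3 (`∃ i ∈ u, f i ∉ K` since `gen u f = ⊤`); take one, `|ins u f K| ≤ |ins s f K| = 1`.
G3: `Grow f u`, or Kh: `Exc f u` (excluded) or `4 + l (l+1) ≤ 2 |FS u f|` (excluded). -/
def St_H5 : Prop :=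
  ∀ (G ι : Type) [AddCommGroup G] [Finite G] (t : ℕ) (s u : Finset ι) (f : ι → G), Ctx t s f → u ⊆ s → AS u f → gen u f = ⊤ → 5 ≤ u.card →
    2 * (FS u f).card ≤ 2 + u.card * (u.card + 1) →
    (u.card * (u.card - 1) + 3 ≤ Nat.card G ∨ 2 * (FS u f).card ≤ Nat.card G) → ¬ Exc f u → Prog u f ∨ Grow f u

/-- **FE** (2 h, from SDG.Ba1, SDG.Sm, MDR.Pg, MDR.En, Cl, Dr, Bo, Kx, H5).  The engine applies.  `Fam := Fam s f`, `Exc := Exc f` in MDR.En.
Proof.  H1: `AS`, `Aper` (subfamily of `s`), `gen u f = ⊤` (otherwise `outs u f (gen u f) = ∅`), `2 |FS| ≤ N`.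
H2 (four members): Bo: `|FS| ≥ 12`: both conclusions (`2 |FS| ≥ 24 > 22`).  `Prog`: MDR.Pg, `2 |FS| = 22`.  `{h, z, z+h, z-h}` up to sign: the four members are, up to sign, exactly these four elements (antisymmetric: four members, four classes); `K = {0, h, -h}`, `z ∉ K` (otherwise `z ∈ {0, h, -h}` and two of the classes agree), so `ins u f K` is one member,
`gen u f = ⊤` gives `∀ x, ∃ k : ℕ, x - k • z ∈ K`; `KAP u f K 1` with `d = z`, `lv = 1` on the other three members; so `Exc`.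
H3: `|u| ≥ 5`, `2 |FS u f| ≤ 2 + l (l+1)`: for `M ≠ ⊤` `|outs u f M| ≥ 2` and `≠ 2` (Dr), so `≥ 3` and `≥ 2` for `u.erase i`; `FS (u.erase i) f ⊆ FS u f`.
H4: `KAP (u.erase i) f K a`.  `f i ∉ K`: `ins u f K` has at most one member, because its sums are aperiodic, contained in `K`, so at most two of them, and at least `|ins| + 1` (SDG.Sm); `u.erase i` has one already.  Kx (second alternative of the hypothesis) gives `Exc f u` or `2 |FS| ≥ 4 + l (l+1)`; both give `EngX`.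
H5: `H5` of this file. -/
def St_FE : Prop :=
  ∀ (G ι : Type) [AddCommGroup G] [Finite G] (t : ℕ) (s : Finset ι) (f : ι → G), Ctx t s f →
    ∀ u, Fam s f u → 4 ≤ u.card → EngX (Exc f) f u

/-- **Ho** (1.2 h, from SDG.Sm, SDG.Ba1, Cl, Ix, Hv, Bn).  The halves have two members outside every proper subgroup.  `t ≥ 9`.  `s1` contains all members of `s` in subgroups of order 3.
Proof.  If `K`, `|K| = 3`, has a member `i0 ∈ s`, it is the only one (see FE, H4), and `K` is unique (Cl); otherwise `i0` is arbitrary.  If there is a subgroup `M` of index 3, it is unique (Cl) and Ix gives the hypothesis of Hv; if there is none use `M = ⊥` in Hv (`ins s f ⊥ = ∅`).  Let `M' ≠ ⊤`; it is contained in a subgroup `M''` of prime index (maximal subgroup), `outs u f M'' ⊆ outs u f M'`.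
Index 3: Hv.  Index 2 is impossible (odd).  Index `≥ 5`: `|outs s_j f M''| ≥ |s_j| - |ins s f M''| ≥ t/2 - (t/2 - 2) = 2`. -/
def St_Ho : Prop :=
  ∀ (G ι : Type) [AddCommGroup G] [Finite G] (t : ℕ) (s : Finset ι) (f : ι → G), Ctx t s f → 9 ≤ t →
    ∃ s1 s2 : Finset ι, Disjoint s1 s2 ∧ s1 ∪ s2 = s ∧ AS s1 f ∧ AS s2 f ∧ s1.card = (t + 1) / 2 ∧ s2.card = t / 2 ∧
      (∀ M : AddSubgroup G, M ≠ ⊤ → 2 ≤ (outs s1 f M).card ∧ 2 ≤ (outs s2 f M).card) ∧
      (∀ K : AddSubgroup G, Nat.card K = 3 → ins s2 f K = ∅)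

/-- **Ev** (1.2 h, from SDG.Nm1, SDG.Kn, SDG.Ba1, Bn, FE, Ho, Ke, Kg).  `t = 2 l ≥ 10`: contradiction.
Proof.  Ho.  `X_j = FS s_j f`, `|X_1| + |X_2| ≤ |T| + 1 ≤ cf 2 (2 l) = 1 + l (l+1)` (SDG.Kn (1)) and `|X_1| + |X_2| ≤ N` (SDG.Kn (2), `M = ⊤`).  The smaller one, `X_j`, has `2 |X_j| ≤ 1 + l (l+1)` and `2 |X_j| ≤ N`, so `Fam s f s_j`, and FE gives `Exc f s_j`.  `s_2` is not exceptional (no member in `K`).  So `KAP s_1 f K a`.  Bn: `N ≥ cf 2 (2l - 1) + 2 = l^2 + 3 ≥ l (l-1) + 3`.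
`l ≠ 3 a + 1`: Ke gives `2 |X_1| ≥ 2 + l (l+1)`: contradiction.  `l = 3 a + 1`: Kg (`|s2| = 3 a + 1`) gives `cf 2 t ≤ |T|`: contradiction. -/
def St_Ev : Prop :=
  ∀ (G ι : Type) [AddCommGroup G] [Finite G] (l : ℕ) (s : Finset ι) (f : ι → G), 5 ≤ l → ¬ Ctx (2 * l) s f

/-- **Od** (2 h, from SDG.Nm1, SDG.Kn, SDG.Ba1, MDR.Sy, MDR.Pg, MDR.Ex, MDR.A1, Dr, Bn, Kx, H5, FE, Ho, Ke, Kg; `lam_compl` of Helper64.Rho.Olson).  `t = 2 l - 1 ≥ 9`: contradiction.
Proof.  Ho: `|s1| = l ≥ 5`, `|s2| = l - 1 ≥ 4`.  `X = FS s1 f`, `X_2 = FS s2 f`.  `|X| + |X_2| ≤ cf 2 (2l-1) = 1 + l^2`, `|X| + |X_2| ≤ N`.  Bn: `N ≥ cf 2 (2l-2) + 2 = l (l-1) + 3`.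
(i) `2 |X_2| ≥ 2 + l (l-1)`: if `2 |X_2| ≤ N` then `Fam s f s2`, FE, `s2` is not exceptional; otherwise `2 |X_2| > N`.  (ii) So `2 |X| ≤ 2 + 2 l^2 - 2 - l (l-1) = l (l+1)`.
(iii) `s1` is not exceptional: `l ≠ 3 a + 1`: Ke contradicts (ii); `l = 3 a + 1`: Kg with `|s2| = 3 a`: `cf 2 t ≤ |T|`.
(iv) Let `i ∈ s1`, `u' = s1.erase i`; `|outs u' f M| ≥ 2` for `M ≠ ⊤` (Dr for `s1`), so `gen u' f = ⊤`.  `u'` is not exceptional: otherwise (`f i ∉ K` as in FE) Kx for `s1` (first alternative) contradicts (iii) or (ii).  `2 |FS u' f| ≥ 2 + l (l-1)`: if `2 |FS u' f| ≤ N`: FE; otherwise clear.  `lam X (f i) ≤ |X| - |FS u' f|` (SDG.Ba1 (3)).  Suppose `lam X (f i) ≥ l - 1`: then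
`2 |X| ≥ 2 + l (l-1) + 2 (l-1) = l (l+1)`, so equality everywhere: `2 |X| = l (l+1)`, `2 |FS u' f| = 2 + l (l-1) ≤ N`, `2 N ≥ 2 |X| + 2 |X_2| ≥ 2 l^2 + 2`, `N ≥ (l-1)^2 + 2 (l-1)`, so FE (second conclusion): `Prog u' f`, and MDR.Ex (`N ≥ 2 + l (l-1)`) gives `2 |X| ≥ 2 + l (l+1)`: contradiction.  So `lam X y ≤ l - 2` for all `y ∈ sym s1 f` (MDR.Sy).
(v) H5 for `s1` (first alternative): `Prog s1 f` is impossible (MDR.Pg: `2 |X| = 2 + l (l+1)`), so `Grow f s1`.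
(vi) If `2 |X| ≤ N`: MDR.A1 for `X` (`2 |X| ≥ 2 |FS u' f| ≥ 2 + l (l-1)`; `|it D i| ≥ N ≥ 2 |X|` or growth): contradiction.  Otherwise MDR.A1 for the complement `X^c`: `|X^c| = N - |X| ≥ |X_2|`, `2 |X^c| ≥ 2 + l (l-1)`, `2 |X^c| ≤ N`, `lam X^c = lam X`: contradiction. -/
def St_Od : Prop :=
  ∀ (G ι : Type) [AddCommGroup G] [Finite G] (l : ℕ) (s : Finset ι) (f : ι → G), 5 ≤ l → ¬ Ctx (2 * l - 1) s f

/-- **S8** (2 h, from SDG.Nm1, SDG.Kn, SDG.Ba1, SDG.Sm, MDR.Sp2, MDR.B3, MDR.Pg, MDR.Sy, Cl, SR, Bo, Kg).  `t ≤ 8`: contradiction.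
Proof.  MDR.Sp2: `s = s1 ∪ s2`, `|T| + 1 ≥ |FS s1 f| + |FS s2 f|` (SDG.Kn (1)).  If both parts have at most three members (`t ≤ 6`): MDR.B3, `|T| ≥ F1 |s1| + F1 |s2| - 1 = cf 2 t`.
A part `v` with four members: Bo: `|FS v f| ≥ 12`, or a progression and `|FS v f| = 11` (MDR.Pg), or `v = {h, z, z+h, z-h}` up to sign (type K).  If `|FS v f| ≥ 11` for all parts with four members: `t = 7`: `11 + 7 - 1 = 17 = cf 2 7`, `t = 8`: `11 + 11 - 1 = 21 = cf 2 8`: contradiction.  So some part `v` is of type K; let `K = {0, h, -h}`, `z ∉ K`.  `sym v f = K ∪ (z + K) ∪ (- z + K)`, so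
`|st (sym v f) K| = 9 = |sym v f|` and SR gives `t ≥ 8`, so `t = 8`, both parts have four members, and `|ins s f K| = 1`, so the other part `v'` has no member in `K`.  Let `L = gen v f`.
`L = ⊤`: then `KAP v f K 1` (see FE, H2) and Kg with `a = 1`, `|v'| = 4 = 3 a + 1`: `cf 2 8 ≤ |T|`: contradiction.
`L ≠ ⊤`: `outs s f L` is not empty.  One member outside: SDG.Ba1 (4), `|T| = 2 |FS (s.erase i) f| ≥ 2 cf 2 7 = 34`.  At least two members `x, y` outside `L`: the classes `0, x̄, ȳ, x̄ + ȳ` in `G / L` contain three different ones (see Dr), so `|T| ≥ |FS (v ∪ {x, y}) f| ≥ 3 |FS v f| ≥ 3 cf 2 4 = 21` (`PF 4`): contradiction. -/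
def St_S8 : Prop :=
  ∀ (G ι : Type) [AddCommGroup G] [Finite G] (t : ℕ) (s : Finset ι) (f : ι → G), t ≤ 8 → ¬ Ctx t s f

/-- **PF** (0.7 h, from SDG.Tr, SDG.main, Cl, S8, Ev, Od).  Strong induction on `t`.  Suppose `PF u` for `u < t` and `PF t` fails for `G, s, f`.  By SDG.Tr pass to the group `gen s f` (in the class by Cl (1)); this is `Ctx t`.  `t ≤ 8`: S8; `t = 2 l ≥ 10`: Ev; `t = 2 l - 1 ≥ 9`: Od. -/
def St_PF : Prop := ∀ t : ℕ, PF t

/-- **Fn** (1.2 h, from PF, SDG.main, SDG.Nm1, SDG.Se, SDG.Up; see the proofs of SDG.Lo and SDG.Fi).  The final statement.  `G` of the class, `n = |G| ≥ 2`.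
(1) for every finite set `A` of nonzero elements and `H` = periods of the set `FS A id` of all subset sums, `H ≠ ⊤`: `|H| cf (2 |H|) |A \ H| ≤ |FS A id|` (SDG.Se for `|H| ≥ 2`, `PF` for `H = ⊥`).
(2) `bd n m ≤ rho G m` if `sizes G m` is nonempty and `m ≥ 1` (as in SDG.Lo, without the range condition).  (3) if `G` is cyclic and `1 ≤ m < n` then `sizes G m` is nonempty and `rho G m = bd n m` (SDG.Up, transport as in SDG.Fi). -/
def St_Fn : Prop :=
  ∀ (G : Type) [AddCommGroup G] [Finite G], Cls G → 2 ≤ Nat.card G →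
    (∀ (A : Finset G) (H : AddSubgroup G), (0 : G) ∉ A → (∀ g : G, g ∈ H ↔ ∀ x ∈ FS A id, x + g ∈ FS A id) → H ≠ ⊤ →
      Nat.card H * cf (2 * Nat.card H) (A.filter fun a => a ∉ H).card ≤ (FS A id).card) ∧
    (∀ m : ℕ, 1 ≤ m → (sizes G m).Nonempty → bd (Nat.card G) m ≤ rho G m) ∧
    (IsAddCyclic G → ∀ m : ℕ, 1 ≤ m → m < Nat.card G → (sizes G m).Nonempty ∧ rho G m = bd (Nat.card G) m)

end Pool.Agent.SSC
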