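import Pool.Agent.SSC.St

/-!
# SSC, module `Bo`: four members, odd order

Counting: `2 |FS| + #{(I, J) : equal sums} ≥ 48`, the pairs are sorted by their symmetric difference `T`, for `|T| = 3, 4`
there are at most `4` of them.  So at least three sets `T` carry a relation if `|FS| < 12`.
-/

set_option autoImplicit false

noncomputable section

open Finset Pool.Agent.Helper64.Rho Pool.Agent.SDG Pool.Agent.MDR
open scoped Classical Pointwise

namespace Pool.Agent.SSC

/-- equal up to sign -/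
def BoPM {G : Type} [AddCommGroup G] (x y : G) : Prop := x = y ∨ x = -y

theorem Bo_pm_symm {G : Type} [AddCommGroup G] {x y : G} (h : BoPM x y) : BoPM y x := by
  rcases h with h | h
  · exact Or.inl h.symm
  · exact Or.inr (by rw [h, neg_neg])

theorem Bo_pm_trans {G : Type} [AddCommGroup G] {x y z : G} (h : BoPM x y) (h' : BoPM y z) :
    BoPM x z := by
  rcases h with rfl | rfl
  · exact h'
  · rcases h' with rfl | rfl
    · exact Or.inr rfl
    · exact Or.inl (neg_neg _)

/-- few values: many coincidences -/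
theorem Bo_count {α G : Type} (S : Finset α) (F : α → G) :
    3 * S.card ≤ 2 * (S.image F).card + ((S ×ˢ S).filter fun p => F p.1 = F p.2).card := by
  have h1 : S.card = ∑ g ∈ S.image F, (S.filter fun a => F a = g).card :=
    Finset.card_eq_sum_card_image F S
  have h2 : ((S ×ˢ S).filter fun p => F p.1 = F p.2).card =
      ∑ g ∈ S.image F, (S.filter fun a => F a = g).card ^ 2 := by
    rw [Finset.card_eq_sum_card_fiberwise (f := fun p : α × α => F p.1) (t := S.image F)]
    · refine Finset.sum_congr rfl fun g _ => ?_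
      rw [pow_two, ← Finset.card_product]
      congr 1
      ext p
      simp only [mem_filter, mem_product]
      constructor
      · rintro ⟨⟨⟨a, b⟩, c⟩, d⟩
        exact ⟨⟨a, d⟩, b, c.symm.trans d⟩
      · rintro ⟨⟨a, d⟩, b, c⟩
        exact ⟨⟨⟨a, b⟩, d.trans c.symm⟩, d⟩
    · intro p hp
      have hp1 := (mem_product.1 (mem_filter.1 (mem_coe.1 hp)).1).1
      exact mem_coe.2 (mem_image_of_mem F hp1)
  have h3 : ∀ m : ℕ, 3 * m ≤ 2 + m ^ 2 := by
    intro m
    rcases Nat.lt_or_ge m 2 with h | h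
    · interval_cases m <;> norm_num
    · obtain ⟨n, rfl⟩ := Nat.exists_eq_add_of_le h
      nlinarith
  rw [h2]
  calc 3 * S.card = ∑ g ∈ S.image F, 3 * (S.filter fun a => F a = g).card := by
        rw [← Finset.mul_sum, ← h1]
    _ ≤ ∑ g ∈ S.image F, (2 + (S.filter fun a => F a = g).card ^ 2) :=
        Finset.sum_le_sum fun g _ => h3 _
    _ = 2 * (S.image F).card + ∑ g ∈ S.image F, (S.filter fun a => F a = g).card ^ 2 := by
        rw [Finset.sum_add_distrib, Finset.sum_const, smul_eq_mul, mul_comm]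

/-- the subsets with `F I = F (I ∆ T)` -/
def BoN {G ι : Type} [AddCommGroup G] (s T : Finset ι) (f : ι → G) : Finset (Finset ι) :=
  s.powerset.filter fun I => ∑ j ∈ I, f j = ∑ j ∈ symmDiff I T, f j

theorem Bo_pairs {G ι : Type} [AddCommGroup G] (s : Finset ι) (f : ι → G) :
    ((s.powerset ×ˢ s.powerset).filter fun p => ∑ j ∈ p.1, f j = ∑ j ∈ p.2, f j).card ≤
      ∑ T ∈ s.powerset, (BoN s T f).card := by
  rw [Finset.card_eq_sum_card_fiberwise (f := fun p : Finset ι × Finset ι => symmDiff p.1 p.2)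
    (t := s.powerset)]
  · refine Finset.sum_le_sum fun T _ => ?_
    refine Finset.card_le_card_of_injOn (fun p => p.1) ?_ ?_
    · intro p hp
      obtain ⟨hp1, hp2⟩ := mem_filter.1 (mem_coe.1 hp)
      obtain ⟨hp3, hp4⟩ := mem_filter.1 hp1
      refine mem_coe.2 (mem_filter.2 ⟨(mem_product.1 hp3).1, ?_⟩)
      rw [← hp2, symmDiff_symmDiff_cancel_left]
      exact hp4
    · intro p hp p' hp' h
      have h1 : symmDiff p.1 p.2 = T := (mem_filter.1 (mem_coe.1 hp)).2
      have h2 : symmDiff p'.1 p'.2 = T := (mem_filter.1 (mem_coe.1 hp')).2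
      have h3 : p.1 = p'.1 := h
      have h4 : p.2 = symmDiff p.1 T := by rw [← h1, symmDiff_symmDiff_cancel_left]
      have h5 : p'.2 = symmDiff p'.1 T := by rw [← h2, symmDiff_symmDiff_cancel_left]
      exact Prod.ext h3 (by rw [h4, h5, h3])
  · intro p hp
    obtain ⟨hp3, _⟩ := mem_filter.1 (mem_coe.1 hp)
    obtain ⟨h1, h2⟩ := mem_product.1 hp3
    rw [mem_powerset] at h1 h2
    refine mem_coe.2 (mem_powerset.2 ?_)
    intro x hx
    rcases Finset.mem_symmDiff.1 hx with h | h
    · exact h1 h.1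
    · exact h2 h.1

theorem Bo_rel {G ι : Type} [AddCommGroup G] (I T : Finset ι) (f : ι → G) :
    ∑ j ∈ T, (if j ∈ I then f j else - f j) = ∑ j ∈ I, f j - ∑ j ∈ symmDiff I T, f j := by
  have h1 : ∑ j ∈ T, (if j ∈ I then f j else - f j) = ∑ j ∈ T ∩ I, f j - ∑ j ∈ T \ I, f j := by
    rw [← Finset.sum_inter_add_sum_sdiff T I, sub_eq_add_neg, ← Finset.sum_neg_distrib]
    congr 1
    · exact Finset.sum_congr rfl fun j hj => if_pos (mem_inter.1 hj).2
    · exact Finset.sum_congr rfl fun j hj => if_neg (mem_sdiff.1 hj).2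
  have h2 : ∑ j ∈ symmDiff I T, f j = ∑ j ∈ I \ T, f j + ∑ j ∈ T \ I, f j := by
    have h3 : symmDiff I T = I \ T ∪ T \ I := rfl
    rw [h3, Finset.sum_union]
    rw [Finset.disjoint_left]
    intro x hx hx'
    exact (mem_sdiff.1 hx).2 (mem_sdiff.1 hx').1
  rw [h1, h2, ← Finset.sum_inter_add_sum_sdiff I T, Finset.inter_comm T I]
  abel

theorem Bo_rel0 {G ι : Type} [AddCommGroup G] {s T I : Finset ι} {f : ι → G}
    (h : I ∈ BoN s T f) : ∑ j ∈ T, (if j ∈ I then f j else - f j) = 0 := by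
  rw [Bo_rel, (mem_filter.1 h).2, sub_self]

theorem Bo_cap {G ι : Type} [AddCommGroup G] {s : Finset ι} {f : ι → G} (h : AS s f) {j k : ι}
    (hj : j ∈ s) (hk : k ∈ s) (hjk : j ≠ k) : ¬ BoPM (f j) (f k) := by
  intro hp
  have h1 := h.2 (f k)
  have h2 : ({j, k} : Finset ι) ⊆ s.filter fun i => f i = f k ∨ f i = -f k := by
    intro x hx
    rw [mem_insert, mem_singleton] at hx
    rcases hx with rfl | rfl
    · exact mem_filter.2 ⟨hj, hp⟩
    · exact mem_filter.2 ⟨hk, Or.inl rfl⟩
  have h3 := (card_le_card h2).trans h1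
  rw [card_pair hjk] at h3
  omega

/-- no short relations -/
theorem Bo_small {G ι : Type} [AddCommGroup G] {s : Finset ι} {f g : ι → G} (h : AS s f)
    {D : Finset ι} (hD : D ⊆ s) (hg : ∀ j ∈ D, BoPM (g j) (f j)) (h1 : 1 ≤ D.card)
    (h2 : D.card ≤ 2) : ∑ j ∈ D, g j ≠ 0 := by
  intro h0
  have hc : D.card = 1 ∨ D.card = 2 := by omega
  rcases hc with hc | hc
  · obtain ⟨j, rfl⟩ := card_eq_one.1 hc
    rw [sum_singleton] at h0
    have hj : j ∈ ({j} : Finset ι) := mem_singleton_self j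
    refine h.1 j (hD hj) ?_
    rcases hg j hj with h3 | h3
    · rw [← h3, h0]
    · rw [← neg_eq_zero, ← h3, h0]
  · obtain ⟨j, k, hjk, rfl⟩ := card_eq_two.1 hc
    rw [sum_pair hjk] at h0
    have hj : j ∈ ({j, k} : Finset ι) := mem_insert_self j _
    have hk : k ∈ ({j, k} : Finset ι) := mem_insert_of_mem (mem_singleton_self k)
    refine Bo_cap h (hD hj) (hD hk) hjk ?_
    have h4 : BoPM (g j) (g k) := Or.inr (eq_neg_of_add_eq_zero_left h0)
    exact Bo_pm_trans (Bo_pm_symm (hg j hj)) (Bo_pm_trans h4 (hg k hk))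

theorem Bo_sgn {G ι : Type} [AddCommGroup G] (I : Finset ι) (f : ι → G) (j : ι) :
    BoPM (if j ∈ I then f j else - f j) (f j) := by
  split_ifs
  · exact Or.inl rfl
  · exact Or.inr rfl

/-- at most one relation with given support of size at most four -/
theorem Bo_two {G ι : Type} [AddCommGroup G] (h2 : ∀ x : G, x + x = 0 → x = 0) {s T : Finset ι}
    {f : ι → G} (h : AS s f) (hT : T ⊆ s) (hTc : T.card ≤ 4) {I I' : Finset ι}
    (hI : I ∈ BoN s T f) (hI' : I' ∈ BoN s T f) : I' ∩ T = I ∩ T ∨ I' ∩ T = T \ I := by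
  set g : ι → G := fun j => if j ∈ I then f j else - f j with hg
  set g' : ι → G := fun j => if j ∈ I' then f j else - f j with hg'
  have e1 : ∑ j ∈ T, g j = 0 := Bo_rel0 hI
  have e2 : ∑ j ∈ T, g' j = 0 := Bo_rel0 hI'
  have s1 := Finset.sum_filter_add_sum_filter_not T (fun j => j ∈ I ↔ j ∈ I') g
  have s2 := Finset.sum_filter_add_sum_filter_not T (fun j => j ∈ I ↔ j ∈ I') g'
  have c1 : ∑ j ∈ T.filter (fun j => j ∈ I ↔ j ∈ I'), g' j =
      ∑ j ∈ T.filter (fun j => j ∈ I ↔ j ∈ I'), g j := by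
    refine Finset.sum_congr rfl fun j hj => ?_
    have hj2 := (mem_filter.1 hj).2
    simp only [hg, hg']
    by_cases hji : j ∈ I
    · rw [if_pos hji, if_pos (hj2.1 hji)]
    · rw [if_neg hji, if_neg (fun h => hji (hj2.2 h))]
  have c2 : ∑ j ∈ T.filter (fun j => ¬ (j ∈ I ↔ j ∈ I')), g' j =
      - ∑ j ∈ T.filter (fun j => ¬ (j ∈ I ↔ j ∈ I')), g j := by
    rw [← Finset.sum_neg_distrib]
    refine Finset.sum_congr rfl fun j hj => ?_
    have hj2 := (mem_filter.1 hj).2
    simp only [hg, hg']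
    by_cases hji : j ∈ I
    · have hji' : j ∉ I' := fun h => hj2 ⟨fun _ => h, fun _ => hji⟩
      rw [if_pos hji, if_neg hji']
    · have hji' : j ∈ I' := by
        by_contra h
        exact hj2 ⟨fun h' => absurd h' hji, fun h' => absurd h' h⟩
      rw [if_neg hji, if_pos hji', neg_neg]
  rw [e1] at s1
  rw [e2, c1, c2] at s2
  set X := ∑ j ∈ T.filter (fun j => j ∈ I ↔ j ∈ I'), g j with hX
  set Y := ∑ j ∈ T.filter (fun j => ¬ (j ∈ I ↔ j ∈ I')), g j with hY
  have hX0 : X = 0 := by
    refine h2 X ?_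
    have : X + X = (X + Y) + (X + -Y) := by abel
    rw [this, s1, s2, add_zero]
  have hY0 : Y = 0 := by
    rw [hX0, zero_add] at s1
    exact s1
  have hcard := Finset.card_filter_add_card_filter_not (s := T) (fun j => j ∈ I ↔ j ∈ I')
  have hsgn : ∀ j, BoPM (g j) (f j) := fun j => Bo_sgn I f j
  have hD : (T.filter (fun j => j ∈ I ↔ j ∈ I')).card = 0 ∨
      3 ≤ (T.filter (fun j => j ∈ I ↔ j ∈ I')).card := by
    by_contra hcon
    rw [not_or] at hcon
    exact Bo_small h ((filter_subset _ _).trans hT) (fun j _ => hsgn j) (by omega) (by omega) hX0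
  have hD' : (T.filter (fun j => ¬ (j ∈ I ↔ j ∈ I'))).card = 0 ∨
      3 ≤ (T.filter (fun j => ¬ (j ∈ I ↔ j ∈ I'))).card := by
    by_contra hcon
    rw [not_or] at hcon
    exact Bo_small h ((filter_subset _ _).trans hT) (fun j _ => hsgn j) (by omega) (by omega) hY0
  have hor : (T.filter (fun j => j ∈ I ↔ j ∈ I')).card = 0 ∨
      (T.filter (fun j => ¬ (j ∈ I ↔ j ∈ I'))).card = 0 := by omega
  rcases hor with h0 | h0
  · right
    rw [card_eq_zero, filter_eq_empty_iff] at h0
    ext j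
    rw [mem_inter, mem_sdiff]
    constructor
    · rintro ⟨hj1, hj2⟩
      exact ⟨hj2, fun h' => h0 hj2 ⟨fun _ => hj1, fun _ => h'⟩⟩
    · rintro ⟨hj1, hj2⟩
      refine ⟨?_, hj1⟩
      by_contra h'
      exact h0 hj1 ⟨fun h'' => absurd h'' hj2, fun h'' => absurd h'' h'⟩
  · left
    rw [card_eq_zero, filter_eq_empty_iff] at h0
    ext j
    rw [mem_inter, mem_inter]
    constructor
    · rintro ⟨hj1, hj2⟩
      have := h0 hj2
      rw [not_not] at this
      exact ⟨this.2 hj1, hj2⟩
    · rintro ⟨hj1, hj2⟩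
      have := h0 hj2
      rw [not_not] at this
      exact ⟨this.1 hj1, hj2⟩

theorem Bo_fib {ι : Type} (s T P : Finset ι) (h : (s \ T).card ≤ 1) :
    (s.powerset.filter fun I => I ∩ T = P).card ≤ 2 := by
  have h1 : (s.powerset.filter fun I => I ∩ T = P).card ≤ (s \ T).powerset.card := by
    refine Finset.card_le_card_of_injOn (fun I => I \ T) ?_ ?_
    · intro I hI
      have hI1 := (mem_filter.1 (mem_coe.1 hI)).1
      exact mem_coe.2 (mem_powerset.2 (sdiff_subset_sdiff (mem_powerset.1 hI1) (Subset.refl _)))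
    · intro I hI J hJ hIJ
      have h1 : I ∩ T = P := (mem_filter.1 (mem_coe.1 hI)).2
      have h2 : J ∩ T = P := (mem_filter.1 (mem_coe.1 hJ)).2
      have h3 : I \ T = J \ T := hIJ
      rw [← sdiff_union_inter I T, ← sdiff_union_inter J T, h1, h2, h3]
  rw [card_powerset] at h1
  refine h1.trans ?_
  calc 2 ^ (s \ T).card ≤ 2 ^ 1 := Nat.pow_le_pow_right (by norm_num) h
    _ = 2 := by norm_num

theorem Bo_N4 {G ι : Type} [AddCommGroup G] (h2 : ∀ x : G, x + x = 0 → x = 0) {s T : Finset ι}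
    {f : ι → G} (h : AS s f) (hs : s.card = 4) (hT : T ⊆ s) (hTc : 3 ≤ T.card) :
    (BoN s T f).card ≤ 4 := by
  rcases (BoN s T f).eq_empty_or_nonempty with h0 | ⟨I, hI⟩
  · rw [h0, card_empty]
    omega
  · have hsd : (s \ T).card ≤ 1 := by
      rw [card_sdiff_of_subset hT]
      omega
    have hTc4 : T.card ≤ 4 := by
      rw [← hs]
      exact card_le_card hT
    have hsub : BoN s T f ⊆ (s.powerset.filter fun J => J ∩ T = I ∩ T) ∪
        (s.powerset.filter fun J => J ∩ T = T \ I) := by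
      intro J hJ
      rw [mem_union]
      rcases Bo_two h2 h hT hTc4 hI hJ with h3 | h3
      · exact Or.inl (mem_filter.2 ⟨(mem_filter.1 hJ).1, h3⟩)
      · exact Or.inr (mem_filter.2 ⟨(mem_filter.1 hJ).1, h3⟩)
    refine (card_le_card hsub).trans ((card_union_le _ _).trans ?_)
    have := Bo_fib s T (I ∩ T) hsd
    have := Bo_fib s T (T \ I) hsd
    omega

/-- the supports of relations -/
def BoW {G ι : Type} [AddCommGroup G] (s : Finset ι) (f : ι → G) : Finset (Finset ι) :=
  (s.powerset.erase ∅).filter fun T => (BoN s T f).Nonempty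

theorem Bo_W3 {G ι : Type} [AddCommGroup G] {s T : Finset ι} {f : ι → G} (h : AS s f)
    (hT : T ∈ BoW s f) : T ⊆ s ∧ 3 ≤ T.card ∧ ∃ g : ι → G, (∀ j, BoPM (g j) (f j)) ∧
      ∑ j ∈ T, g j = 0 := by
  obtain ⟨h1, I, hI⟩ := mem_filter.1 hT
  obtain ⟨hne, hsub⟩ := mem_erase.1 h1
  have hsub' := mem_powerset.1 hsub
  have h0 := Bo_rel0 hI
  refine ⟨hsub', ?_, _, fun j => Bo_sgn I f j, h0⟩
  by_contra hcon
  have hpos : 1 ≤ T.card := card_pos.2 (nonempty_iff_ne_empty.2 hne)
  exact Bo_small h hsub' (fun j _ => Bo_sgn I f j) hpos (by omega) h0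

theorem Bo_Wcard {G ι : Type} [AddCommGroup G] (h2 : ∀ x : G, x + x = 0 → x = 0) {s : Finset ι}
    {f : ι → G} (h : AS s f) (hs : s.card = 4) (hn : (FS s f).card < 12) : 3 ≤ (BoW s f).card := by
  have hFS : FS s f = s.powerset.image fun I => ∑ j ∈ I, f j := by
    ext x
    rw [mem_FS, mem_image]
    constructor
    · rintro ⟨t, ht, hx⟩
      exact ⟨t, mem_powerset.2 ht, hx⟩
    · rintro ⟨t, ht, hx⟩
      exact ⟨t, mem_powerset.1 ht, hx⟩
  have h1 := Bo_count s.powerset (fun I => ∑ j ∈ I, f j)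
  rw [← hFS, card_powerset, hs] at h1
  have h3 := Bo_pairs s f
  have h4 : ∑ T ∈ s.powerset, (BoN s T f).card ≤ 16 + 4 * (BoW s f).card := by
    rw [← Finset.add_sum_erase _ _ (empty_mem_powerset s)]
    refine add_le_add ?_ ?_
    · refine (card_filter_le _ _).trans ?_
      rw [card_powerset, hs]
      norm_num
    · rw [← Finset.sum_filter_add_sum_filter_not _ (fun T => (BoN s T f).Nonempty)]
      have h5 : ∑ T ∈ (s.powerset.erase ∅).filter (fun T => ¬ (BoN s T f).Nonempty),
          (BoN s T f).card = 0 := by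
        refine Finset.sum_eq_zero fun T hT => ?_
        rw [card_eq_zero, ← not_nonempty_iff_eq_empty]
        exact (mem_filter.1 hT).2
      rw [h5, add_zero, mul_comm]
      refine Finset.sum_le_card_nsmul _ _ 4 fun T hT => ?_
      obtain ⟨hT1, hT2, _⟩ := Bo_W3 h hT
      exact Bo_N4 h2 h hs hT1 hT2
  omega

theorem Bo_erase {ι : Type} {s T : Finset ι} (hs : s.card = 4) (hT : T ⊆ s) (hc : 3 ≤ T.card) :
    T = s ∨ ∃ p ∈ s, T = s.erase p := by
  by_cases h : T = s
  · exact Or.inl h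
  · right
    obtain ⟨p, hp, hpT⟩ := exists_of_ssubset (hT.ssubset_of_ne h)
    refine ⟨p, hp, Finset.eq_of_subset_of_card_le ?_ ?_⟩
    · intro x hx
      exact mem_erase.2 ⟨fun h' => hpT (h' ▸ hx), hT hx⟩
    · rw [card_erase_of_mem hp, hs]
      exact hc

/-- signed relation between three elements -/
def BoR3 {G : Type} [AddCommGroup G] (a b c : G) : Prop :=
  ∃ A B C : G, BoPM A a ∧ BoPM B b ∧ BoPM C c ∧ A + (B + C) = 0

/-- signed relation between four elements -/
def BoR4 {G : Type} [AddCommGroup G] (a b c e : G) : Prop :=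
  ∃ A B C D : G, BoPM A a ∧ BoPM B b ∧ BoPM C c ∧ BoPM D e ∧ A + (B + (C + D)) = 0

theorem Bo_R3 {G : Type} [AddCommGroup G] {a b c : G} (h : BoR3 a b c) :
    BoPM c (a + b) ∨ BoPM c (a - b) := by
  obtain ⟨A, B, C, hA, hB, hC, h⟩ := h
  have h1 : C = -(A + B) := by
    rw [eq_neg_iff_add_eq_zero, ← h]
    abel
  have h2 : BoPM c (A + B) := by
    refine Bo_pm_trans (Bo_pm_symm hC) ?_
    exact Or.inr h1
  rcases hA with rfl | rfl <;> rcases hB with rfl | rfl
  · exact Or.inl h2
  · right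
    rw [sub_eq_add_neg]
    exact h2
  · right
    refine Bo_pm_trans h2 (Or.inr ?_)
    abel
  · left
    refine Bo_pm_trans h2 (Or.inr ?_)
    abel

/-- third relation on `a, a + b, a - b` -/
theorem Bo_tA {G : Type} [AddCommGroup G] {a b c e : G} (hc : BoPM c (a + b))
    (he : BoPM e (a - b)) (h : BoR3 a c e) :
    a + a + a = 0 ∨ a + b + b = 0 ∨ a - b - b = 0 ∨ a = 0 := by
  obtain ⟨A, B, C, hA, hB, hC, h⟩ := h
  have hB' := Bo_pm_trans hB hc
  have hC' := Bo_pm_trans hC he
  rcases hA with rfl | rfl <;> rcases hB' with rfl | rfl <;> rcases hC' with rfl | rfl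
  · left; rw [← h]; abel
  · right; left; rw [← h]; abel
  · right; right; left; rw [← h]; abel
  · right; right; right; rw [← neg_eq_zero, ← h]; abel
  · right; right; right; rw [← h]; abel
  · right; right; left; rw [← neg_eq_zero, ← h]; abel
  · right; left; rw [← neg_eq_zero, ← h]; abel
  · left; rw [← neg_eq_zero, ← h]; abel

/-- third relation on `b, a + b, a - b` -/
theorem Bo_tB {G : Type} [AddCommGroup G] {a b c e : G} (hc : BoPM c (a + b))
    (he : BoPM e (a - b)) (h : BoR3 b c e) :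
    b + b + b = 0 ∨ a + a + b = 0 ∨ b - a - a = 0 ∨ b = 0 := by
  obtain ⟨A, B, C, hA, hB, hC, h⟩ := h
  have hB' := Bo_pm_trans hB hc
  have hC' := Bo_pm_trans hC he
  rcases hA with rfl | rfl <;> rcases hB' with rfl | rfl <;> rcases hC' with rfl | rfl
  · right; left; rw [← h]; abel
  · left; rw [← h]; abel
  · right; right; right; rw [← neg_eq_zero, ← h]; abel
  · right; right; left; rw [← h]; abel
  · right; right; left; rw [← neg_eq_zero, ← h]; abel
  · right; right; right; rw [← h]; abel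
  · left; rw [← neg_eq_zero, ← h]; abel
  · right; left; rw [← neg_eq_zero, ← h]; abel

/-- relation between all four -/
theorem Bo_tC {G : Type} [AddCommGroup G] {a b c e : G} (hc : BoPM c (a + b))
    (he : BoPM e (a - b)) (h : BoR4 a b c e) :
    a + a + a + b = 0 ∨ a + b + b + b = 0 ∨ BoPM a b ∨ a + a + a - b = 0 ∨
      a - b - b - b = 0 := by
  obtain ⟨A, B, C, D, hA, hB, hC, hD, h⟩ := h
  have hC' := Bo_pm_trans hC hc
  have hD' := Bo_pm_trans hD he
  rcases hA with rfl | rfl <;> rcases hB with rfl | rfl <;> rcases hC' with rfl | rfl <;>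
    rcases hD' with rfl | rfl
  · left; rw [← h]; abel
  · right; left; rw [← h]; abel
  · right; right; left; left; rw [← sub_eq_zero, ← h]; abel
  · right; right; left; left; rw [← sub_eq_zero, ← neg_eq_zero, ← h]; abel
  · right; right; right; left; rw [← h]; abel
  · right; right; left; right; rw [← sub_eq_zero, ← h]; abel
  · right; right; right; right; rw [← h]; abel
  · right; right; left; right; rw [← sub_eq_zero, ← neg_eq_zero, ← h]; abel
  · right; right; left; right; rw [← sub_eq_zero, ← h]; abel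
  · right; right; right; right; rw [← neg_eq_zero, ← h]; abel
  · right; right; left; right; rw [← sub_eq_zero, ← neg_eq_zero, ← h]; abel
  · right; right; right; left; rw [← neg_eq_zero, ← h]; abel
  · right; right; left; left; rw [← sub_eq_zero, ← h]; abel
  · right; right; left; left; rw [← sub_eq_zero, ← neg_eq_zero, ← h]; abel
  · right; left; rw [← neg_eq_zero, ← h]; abel
  · left; rw [← neg_eq_zero, ← h]; abel

/-- the two exceptional configurations -/
def BoP {G : Type} [AddCommGroup G] (a b c e : G) : Prop :=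
  (∃ d : G, ∀ x, (x = a ∨ x = b ∨ x = c ∨ x = e) →
    ∃ k : ℕ, 1 ≤ k ∧ k ≤ 4 ∧ (x = k • d ∨ x = -(k • d))) ∨
  (∃ h z : G, h ≠ 0 ∧ (3 : ℕ) • h = 0 ∧ ∀ x, (x = a ∨ x = b ∨ x = c ∨ x = e) →
    (x = h ∨ x = -h ∨ x = z ∨ x = -z ∨ x = z + h ∨ x = -(z + h) ∨ x = z - h ∨ x = -(z - h)))

theorem Bo_three {G : Type} [AddCommGroup G] {a : G} (h : a + a + a = 0) : (3 : ℕ) • a = 0 := by
  rw [← h, succ_nsmul, two_nsmul]

theorem Bo_prog {G : Type} [AddCommGroup G] {a b c e : G} (d : G) (k1 k2 k3 k4 : ℕ)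
    (h1 : 1 ≤ k1 ∧ k1 ≤ 4) (h2 : 1 ≤ k2 ∧ k2 ≤ 4) (h3 : 1 ≤ k3 ∧ k3 ≤ 4) (h4 : 1 ≤ k4 ∧ k4 ≤ 4)
    (ha : BoPM a (k1 • d)) (hb : BoPM b (k2 • d)) (hc : BoPM c (k3 • d))
    (he : BoPM e (k4 • d)) : BoP a b c e := by
  left
  refine ⟨d, ?_⟩
  rintro x (rfl | rfl | rfl | rfl)
  · exact ⟨k1, h1.1, h1.2, ha⟩
  · exact ⟨k2, h2.1, h2.2, hb⟩
  · exact ⟨k3, h3.1, h3.2, hc⟩
  · exact ⟨k4, h4.1, h4.2, he⟩

/-- the algebra -/
theorem Bo_core {G : Type} [AddCommGroup G] {a b c e : G} (ha : a ≠ 0) (hb : b ≠ 0)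
    (hab : ¬ BoPM a b) (hac : ¬ BoPM c a) (hae : ¬ BoPM e a) (hbc : ¬ BoPM c b)
    (hbe : ¬ BoPM e b) (hc : BoPM c (a + b)) (he : BoPM e (a - b))
    (h : BoR3 a c e ∨ BoR3 b c e ∨ BoR4 a b c e) : BoP a b c e := by
  rcases h with h | h | h
  · rcases Bo_tA hc he h with h | h | h | h
    · right
      refine ⟨a, b, ha, Bo_three h, ?_⟩
      rintro x (rfl | rfl | rfl | rfl)
      · exact Or.inl rfl
      · exact Or.inr (Or.inr (Or.inl rfl))
      · rcases hc with hc | hc
        · right; right; right; right; left; rw [hc, add_comm]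
        · right; right; right; right; right; left; rw [hc, add_comm]
      · rcases he with he | he
        · right; right; right; right; right; right; right; rw [he, neg_sub]
        · right; right; right; right; right; right; left; rw [he, neg_sub]
    · exact absurd (Bo_pm_trans hc (Or.inr (by rw [← sub_eq_zero, ← h]; abel))) hbc
    · exact absurd (Bo_pm_trans he (Or.inl (by rw [← sub_eq_zero, ← h]))) hbe
    · exact absurd h ha
  · rcases Bo_tB hc he h with h | h | h | h
    · right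
      refine ⟨b, a, hb, Bo_three h, ?_⟩
      rintro x (rfl | rfl | rfl | rfl)
      · exact Or.inr (Or.inr (Or.inl rfl))
      · exact Or.inl rfl
      · rcases hc with hc | hc
        · right; right; right; right; left; exact hc
        · right; right; right; right; right; left; exact hc
      · rcases he with he | he
        · right; right; right; right; right; right; left; exact he
        · right; right; right; right; right; right; right; exact he
    · exact absurd (Bo_pm_trans hc (Or.inr (by rw [← sub_eq_zero, ← h]; abel))) hac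
    · exact absurd (Bo_pm_trans he (Or.inr (by rw [← sub_eq_zero, ← neg_eq_zero, ← h]; abel))) hae
    · exact absurd h hb
  · rcases Bo_tC hc he h with h | h | h | h | h
    · -- b = -3 a
      have e1 : b = -(3 • a) := by rw [← sub_eq_zero, ← h]; abel
      refine Bo_prog a 1 3 2 4 (by omega) (by omega) (by omega) (by omega)
        (Or.inl (one_smul _ a).symm) (Or.inr e1)
        (Bo_pm_trans hc (Or.inr (by rw [e1]; abel)))
        (Bo_pm_trans he (Or.inl (by rw [e1]; abel)))
    · -- a = -3 b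
      have e1 : a = -(3 • b) := by rw [← sub_eq_zero, ← h]; abel
      refine Bo_prog b 3 1 2 4 (by omega) (by omega) (by omega) (by omega)
        (Or.inr e1) (Or.inl (one_smul _ b).symm)
        (Bo_pm_trans hc (Or.inr (by rw [e1]; abel)))
        (Bo_pm_trans he (Or.inr (by rw [e1]; abel)))
    · exact absurd h hab
    · -- b = 3 a
      have e1 : b = 3 • a := by rw [← sub_eq_zero, ← neg_eq_zero, ← h]; abel
      refine Bo_prog a 1 3 4 2 (by omega) (by omega) (by omega) (by omega)
        (Or.inl (one_smul _ a).symm) (Or.inl e1)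
        (Bo_pm_trans hc (Or.inl (by rw [e1]; abel)))
        (Bo_pm_trans he (Or.inr (by rw [e1]; abel)))
    · -- a = 3 b
      have e1 : a = 3 • b := by rw [← sub_eq_zero, ← h]; abel
      refine Bo_prog b 3 1 4 2 (by omega) (by omega) (by omega) (by omega)
        (Or.inl e1) (Or.inl (one_smul _ b).symm)
        (Bo_pm_trans hc (Or.inl (by rw [e1]; abel)))
        (Bo_pm_trans he (Or.inl (by rw [e1]; abel)))

theorem Bo_R3_swap {G : Type} [AddCommGroup G] {a b c : G} (h : BoR3 a b c) : BoR3 a c b := by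
  obtain ⟨A, B, C, hA, hB, hC, h⟩ := h
  exact ⟨A, C, B, hA, hC, hB, by rw [add_comm C B]; exact h⟩

theorem Bo_R4_swap {G : Type} [AddCommGroup G] {a b c e : G} (h : BoR4 a b c e) :
    BoR4 a b e c := by
  obtain ⟨A, B, C, D, hA, hB, hC, hD, h⟩ := h
  exact ⟨A, B, D, C, hA, hB, hD, hC, by rw [add_comm D C]; exact h⟩

theorem Bo_P_swap {G : Type} [AddCommGroup G] {a b c e : G} (h : BoP a b e c) : BoP a b c e := by
  rcases h with ⟨d, h⟩ | ⟨p, z, hp, hp3, h⟩
  · left
    exact ⟨d, fun x hx => h x (by tauto)⟩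
  · right
    exact ⟨p, z, hp, hp3, fun x hx => h x (by tauto)⟩

theorem Bo_full {G : Type} [AddCommGroup G] {a b c e : G} (ha : a ≠ 0) (hb : b ≠ 0)
    (hab : ¬ BoPM a b) (hac : ¬ BoPM c a) (hae : ¬ BoPM e a) (hbc : ¬ BoPM c b)
    (hbe : ¬ BoPM e b) (hce : ¬ BoPM c e) (h1 : BoR3 a b c) (h2 : BoR3 a b e)
    (h : BoR3 a c e ∨ BoR3 b c e ∨ BoR4 a b c e) : BoP a b c e := by
  rcases Bo_R3 h1 with hc | hc <;> rcases Bo_R3 h2 with he | he
  · exact absurd (Bo_pm_trans hc (Bo_pm_symm he)) hce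
  · exact Bo_core ha hb hab hac hae hbc hbe hc he h
  · refine Bo_P_swap (Bo_core ha hb hab hae hac hbe hbc he hc ?_)
    rcases h with h | h | h
    · exact Or.inl (Bo_R3_swap h)
    · exact Or.inr (Or.inl (Bo_R3_swap h))
    · exact Or.inr (Or.inr (Bo_R4_swap h))
  · exact absurd (Bo_pm_trans hc (Bo_pm_symm he)) hce

theorem thm_Bo : St_Bo := by
  intro G ι _ _ s f hodd hAS hs
  by_cases hn : (FS s f).card < 12
  · right
    have h2 : ∀ x : G, x + x = 0 → x = 0 := by
      intro x hx
      have h3 : addOrderOf x ∣ 2 := by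
        rw [addOrderOf_dvd_iff_nsmul_eq_zero, two_nsmul, hx]
      have h4 : addOrderOf x ∣ Nat.card G := addOrderOf_dvd_natCard x
      have h5 : addOrderOf x ∣ 1 := by
        have h6 := Nat.dvd_gcd h3 h4
        rwa [Nat.Coprime.gcd_eq_one (Nat.coprime_two_left.2 hodd)] at h6
      rw [Nat.dvd_one, AddMonoid.addOrderOf_eq_one_iff] at h5
      exact h5
    have hW := Bo_Wcard h2 hAS hs hn
    have hWs : 1 < ((BoW s f).erase s).card := by
      have := Finset.pred_card_le_card_erase (s := BoW s f) (a := s)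
      omega
    obtain ⟨T1, hT1, T2, hT2, hT12⟩ := one_lt_card.1 hWs
    obtain ⟨hT1s, hT1W⟩ := mem_erase.1 hT1
    obtain ⟨hT2s, hT2W⟩ := mem_erase.1 hT2
    obtain ⟨T3, hT3W, hT3n⟩ : ∃ T3 ∈ BoW s f, T3 ∉ ({T1, T2} : Finset (Finset ι)) := by
      refine Finset.exists_mem_notMem_of_card_lt_card ?_
      have := card_le_two (a := T1) (b := T2)
      omega
    rw [mem_insert, mem_singleton, not_or] at hT3n
    obtain ⟨w1, x1, g1, hg1, r1⟩ := Bo_W3 hAS hT1W
    obtain ⟨w2, x2, g2, hg2, r2⟩ := Bo_W3 hAS hT2W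
    obtain ⟨w3, x3, g3, hg3, r3⟩ := Bo_W3 hAS hT3W
    obtain ⟨p, hp, hT1p⟩ := (Bo_erase hs w1 x1).resolve_left hT1s
    obtain ⟨q, hq, hT2q⟩ := (Bo_erase hs w2 x2).resolve_left hT2s
    have hpq : p ≠ q := fun h => hT12 (by rw [hT1p, hT2q, h])
    have hc2 : ((s.erase p).erase q).card = 2 := by
      rw [card_erase_of_mem (mem_erase.2 ⟨hpq.symm, hq⟩), card_erase_of_mem hp, hs]
    obtain ⟨i, j, hij, hijs⟩ := card_eq_two.1 hc2
    have hi : i ∈ (s.erase p).erase q := by rw [hijs]; exact mem_insert_self i _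
    have hj : j ∈ (s.erase p).erase q := by
      rw [hijs]
      exact mem_insert_of_mem (mem_singleton_self j)
    obtain ⟨hiq, hi'⟩ := mem_erase.1 hi
    obtain ⟨hip, his⟩ := mem_erase.1 hi'
    obtain ⟨hjq, hj'⟩ := mem_erase.1 hj
    obtain ⟨hjp, hjs⟩ := mem_erase.1 hj'
    have hsp : s.erase p = {i, j, q} := by
      rw [← insert_erase (mem_erase.2 ⟨hpq.symm, hq⟩ : q ∈ s.erase p), hijs]
      ext x
      simp only [mem_insert, mem_singleton]
      tauto
    have hsq : s.erase q = {i, j, p} := by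
      rw [← insert_erase (mem_erase.2 ⟨hpq, hp⟩ : p ∈ s.erase q), erase_right_comm, hijs]
      ext x
      simp only [mem_insert, mem_singleton]
      tauto
    have hss : s = {i, j, p, q} := by
      rw [← insert_erase hp, hsp]
      ext x
      simp only [mem_insert, mem_singleton]
      tauto
    have sum3 : ∀ (g : ι → G) (x y z : ι), x ≠ y → x ≠ z → y ≠ z →
        ∑ k ∈ ({x, y, z} : Finset ι), g k = g x + (g y + g z) := by
      intro g x y z hxy hxz hyz
      rw [sum_insert (by simp [hxy, hxz]), sum_pair hyz]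
    have R1 : BoR3 (f i) (f j) (f q) := by
      rw [hT1p, hsp, sum3 g1 i j q hij hiq hjq] at r1
      exact ⟨_, _, _, hg1 i, hg1 j, hg1 q, r1⟩
    have R2 : BoR3 (f i) (f j) (f p) := by
      rw [hT2q, hsq, sum3 g2 i j p hij hip hjp] at r2
      exact ⟨_, _, _, hg2 i, hg2 j, hg2 p, r2⟩
    have R3 : BoR3 (f i) (f p) (f q) ∨ BoR3 (f j) (f p) (f q) ∨
        BoR4 (f i) (f j) (f p) (f q) := by
      rcases Bo_erase hs w3 x3 with hT3 | ⟨r, hr, hT3⟩
      · right; right
        rw [hT3, hss, sum_insert (by simp [hij, hip, hiq]), sum3 g3 j p q hjp hjq hpq] at r3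
        exact ⟨_, _, _, _, hg3 i, hg3 j, hg3 p, hg3 q, r3⟩
      · have hrp : r ≠ p := fun h => hT3n.1 (by rw [hT3, hT1p, h])
        have hrq : r ≠ q := fun h => hT3n.2 (by rw [hT3, hT2q, h])
        rw [hss, mem_insert, mem_insert, mem_insert, mem_singleton] at hr
        rcases hr with rfl | rfl | hr | hr
        · right; left
          have hT : s.erase r = {j, p, q} := by
            rw [hss, erase_insert (by simp [hij, hip, hiq])]
          rw [hT3, hT, sum3 g3 j p q hjp hjq hpq] at r3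
          exact ⟨_, _, _, hg3 j, hg3 p, hg3 q, r3⟩
        · left
          have hT : s.erase r = {i, p, q} := by
            rw [hss]
            ext x
            simp only [mem_erase, mem_insert, mem_singleton]
            constructor
            · rintro ⟨h1, h3⟩
              tauto
            · rintro (rfl | rfl | rfl)
              · exact ⟨hij, by tauto⟩
              · exact ⟨hrp.symm, by tauto⟩
              · exact ⟨hrq.symm, by tauto⟩
          rw [hT3, hT, sum3 g3 i p q hip hiq hpq] at r3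
          exact ⟨_, _, _, hg3 i, hg3 p, hg3 q, r3⟩
        · exact absurd hr hrp
        · exact absurd hr hrq
    have hP : BoP (f i) (f j) (f p) (f q) :=
      Bo_full (hAS.1 i his) (hAS.1 j hjs) (Bo_cap hAS his hjs hij)
        (Bo_cap hAS hp his hip.symm) (Bo_cap hAS hq his hiq.symm)
        (Bo_cap hAS hp hjs hjp.symm) (Bo_cap hAS hq hjs hjq.symm) (Bo_cap hAS hp hq hpq)
        R2 R1 R3
    have hmem : ∀ x ∈ s, f x = f i ∨ f x = f j ∨ f x = f p ∨ f x = f q := by
      intro x hx
      rw [hss, mem_insert, mem_insert, mem_insert, mem_singleton] at hx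
      rcases hx with rfl | rfl | rfl | rfl
      · exact Or.inl rfl
      · exact Or.inr (Or.inl rfl)
      · exact Or.inr (Or.inr (Or.inl rfl))
      · exact Or.inr (Or.inr (Or.inr rfl))
    rcases hP with ⟨d, hd⟩ | ⟨p', z, hp', hp3, hz⟩
    · left
      refine ⟨d, fun x hx => ?_⟩
      rw [hs]
      exact hd _ (hmem x hx)
    · right
      exact ⟨p', z, hp', hp3, fun x hx => hz _ (hmem x hx)⟩
  · left
    exact not_lt.1 hn

end Pool.Agent.SSC
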