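import Pool.Agent.SSC.St

/-!
# SSC, module Ct: counting by levels (helper18)
-/

set_option autoImplicit false

noncomputable section

open Finset Pool.Agent.Helper64.Rho Pool.Agent.SDG Pool.Agent.MDR
open scoped Classical Pointwise

namespace Pool.Agent.SSC

/-- the elements of level `v` -/
private def CtF {G : Type} [AddCommGroup G] (X : Finset G) (K : AddSubgroup G) (d : G) (v : ℕ) :
    ℕ := (X.filter fun x => x - v • d ∈ K).card

/-- `n • d ∈ K` only for `n ≥ K.index` -/
theorem Ct_ord {G : Type} [AddCommGroup G] [Finite G] (K : AddSubgroup G) (d : G)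
    (h : ∀ x : G, ∃ k : ℕ, x - k • d ∈ K) (n : ℕ) (hn : 0 < n) (hd : n • d ∈ K) :
    K.index ≤ n := by
  have hs : Function.Surjective (fun j : Fin n => (QuotientAddGroup.mk ((j : ℕ) • d) : G ⧸ K)) := by
    intro y
    obtain ⟨x, rfl⟩ := QuotientAddGroup.mk_surjective y
    obtain ⟨k, hk⟩ := h x
    refine ⟨⟨k % n, Nat.mod_lt _ hn⟩, ?_⟩
    rw [QuotientAddGroup.eq]
    have h1 : k • d = (k % n) • d + (k / n) • (n • d) := by
      rw [smul_smul, ← add_smul]
      congr 1
      rw [Nat.mul_comm]
      exact (Nat.mod_add_div k n).symm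
    have h2 : -((k % n) • d) + x = (x - k • d) + (k / n) • (n • d) := by
      rw [h1]
      abel
    rw [h2]
    exact K.add_mem hk (K.nsmul_mem hd _)
  have h3 := Nat.card_le_card_of_surjective _ hs
  rw [Nat.card_fin] at h3
  exact h3

/-- the levels below `K.index` are disjoint -/
theorem Ct_sum {G : Type} [AddCommGroup G] [Finite G] (X : Finset G) (K : AddSubgroup G) (d : G)
    (h : ∀ x : G, ∃ k : ℕ, x - k • d ∈ K) (V : Finset ℕ) (hV : ∀ v ∈ V, v < K.index) :
    ∑ v ∈ V, CtF X K d v ≤ X.card := by
  have key : ∀ v ∈ V, ∀ w ∈ V, v < w → ∀ x : G, x - v • d ∈ K → x - w • d ∈ K → False := by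
    intro v _ w hw hvw x h1 h2
    have h3 : (w - v) • d ∈ K := by
      have e : (w - v) • d = (x - v • d) - (x - w • d) := by
        have e1 : w • d = (w - v) • d + v • d := by
          rw [← add_smul]
          congr 1
          omega
        rw [e1]
        abel
      rw [e]
      exact K.sub_mem h1 h2
    have h4 := Ct_ord K d h (w - v) (by omega) h3
    have h5 := hV w hw
    omega
  have hdisj : ∀ v ∈ V, ∀ w ∈ V, v ≠ w →
      Disjoint (X.filter fun x => x - v • d ∈ K) (X.filter fun x => x - w • d ∈ K) := by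
    intro v hv w hw hne
    rw [Finset.disjoint_left]
    intro x hx hy
    have h1 := (Finset.mem_filter.1 hx).2
    have h2 := (Finset.mem_filter.1 hy).2
    rcases Nat.lt_or_gt_of_ne hne with hl | hl
    · exact key v hv w hw hl x h1 h2
    · exact key w hw v hv hl x h2 h1
  unfold CtF
  rw [← Finset.card_biUnion hdisj]
  refine Finset.card_le_card ?_
  intro x hx
  obtain ⟨v, _, hv⟩ := Finset.mem_biUnion.1 hx
  exact (Finset.mem_filter.1 hv).1

/-- a full level has three elements -/
theorem Ct_full {G : Type} [AddCommGroup G] [Finite G] (X : Finset G) (K : AddSubgroup G) (d : G)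
    (hK : Nat.card K = 3) (v : ℕ) (h : ∀ x ∈ K, v • d + x ∈ X) : 3 ≤ CtF X K d v := by
  have := Fintype.ofFinite G
  have h1 : (Finset.univ.filter fun x : G => x ∈ K).card = 3 := by
    rw [← hK, Nat.card_eq_fintype_card, ← Fintype.card_subtype]
  rw [← h1]
  unfold CtF
  refine Finset.card_le_card_of_injOn (fun x => v • d + x) ?_ ?_
  · intro x hx
    have hx' := (Finset.mem_filter.1 hx).2
    simp only [Finset.coe_filter, Set.mem_ofPred_eq]
    refine ⟨h x hx', ?_⟩
    rw [add_sub_cancel_left]
    exact hx'
  · intro x _ y _ hxy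
    exact add_left_cancel hxy

theorem Ct_zero {G : Type} [AddCommGroup G] (X : Finset G) (K : AddSubgroup G) (d : G) :
    CtF X K d 0 = (X.filter fun x => x ∈ K).card := by
  unfold CtF
  simp only [zero_smul, sub_zero]

/-- the levels `1, ..., m - 1` and the level `0` -/
theorem Ct_low {G : Type} [AddCommGroup G] [Finite G] (X : Finset G) (K : AddSubgroup G) (d : G)
    (hK : Nat.card K = 3) (m : ℕ) (hm : 1 ≤ m) (hP : Per X K d m) :
    3 * (m - 1) + (X.filter fun x => x ∈ K).card ≤ ∑ v ∈ range m, CtF X K d v := by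
  obtain ⟨n, rfl⟩ : ∃ n, m = n + 1 := ⟨m - 1, by omega⟩
  rw [Finset.sum_range_succ', Ct_zero]
  have h1 : ∑ _v ∈ range n, 3 ≤ ∑ v ∈ range n, CtF X K d (v + 1) := by
    refine Finset.sum_le_sum fun v hv => ?_
    have hv' := Finset.mem_range.1 hv
    exact Ct_full X K d hK (v + 1) fun x hx => hP (v + 1) (by omega) (by omega) x hx
  rw [Finset.sum_const, Finset.card_range, smul_eq_mul] at h1
  omega

theorem thm_Ct : St_Ct := by
  intro G _ _ X K d m hK hgen hm hP
  have hlow := Ct_low X K d hK m hm hP
  refine ⟨?_, ?_, ?_, ?_⟩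
  · intro hq
    have h1 := Ct_sum X K d hgen (range (m + 1)) fun v hv => by
      have := Finset.mem_range.1 hv
      omega
    rw [Finset.sum_range_succ] at h1
    change 3 * (m - 1) + _ + CtF X K d m ≤ _
    omega
  · intro hq
    have h1 := Ct_sum X K d hgen (range m) fun v hv => by
      have := Finset.mem_range.1 hv
      omega
    omega
  · intro hq x
    obtain ⟨k, hk⟩ := hgen x
    have hq0 : K.index ≠ 0 := AddSubgroup.index_ne_zero_of_finite
    have hqd : K.index • d ∈ K := AddSubgroup.nsmul_index_mem K d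
    have h1 : ∀ j : ℕ, j % K.index = k % K.index → x - j • d ∈ K := by
      intro j hj
      have e1 : ∀ i : ℕ, i • d = (i % K.index) • d + (i / K.index) • (K.index • d) := by
        intro i
        rw [smul_smul, ← add_smul]
        congr 1
        rw [Nat.mul_comm]
        exact (Nat.mod_add_div i K.index).symm
      have e2 : x - j • d = (x - k • d) + ((k / K.index) • (K.index • d) -
          (j / K.index) • (K.index • d)) := by
        rw [e1 j, e1 k, hj]
        abel
      rw [e2]
      exact K.add_mem hk (K.sub_mem (K.nsmul_mem hqd _) (K.nsmul_mem hqd _))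
    have h2 : ∃ v : ℕ, 1 ≤ v ∧ v + 1 ≤ m ∧ x - v • d ∈ K := by
      rcases Nat.eq_zero_or_pos (k % K.index) with h0 | h0
      · exact ⟨K.index, by omega, by omega, h1 _ (by rw [Nat.mod_self, h0])⟩
      · have h3 := Nat.mod_lt k (Nat.pos_of_ne_zero hq0)
        exact ⟨k % K.index, h0, by omega, h1 _ (Nat.mod_mod _ _)⟩
    obtain ⟨v, v1, v2, v3⟩ := h2
    have h4 := hP v v1 v2 _ v3
    rwa [add_sub_cancel] at h4
  · intro k hk hq hfull
    have h1 := Ct_sum X K d hgen (range (m + 1) ∪ Ico (k + 1) (k + m + 1)) fun v hv => by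
      rcases Finset.mem_union.1 hv with h | h
      · have := Finset.mem_range.1 h
        omega
      · have := Finset.mem_Ico.1 h
        omega
    rw [Finset.sum_union, Finset.sum_range_succ] at h1
    · have h2 : 3 * (m - 1) + CtF X K d (k + m) ≤
          ∑ v ∈ Ico (k + 1) (k + m + 1), CtF X K d v := by
        obtain ⟨n, rfl⟩ : ∃ n, m = n + 1 := ⟨m - 1, by omega⟩
        rw [Finset.sum_Ico_eq_sum_range]
        have e : k + (n + 1) + 1 - (k + 1) = n + 1 := by omega
        rw [e, Finset.sum_range_succ]
        have h3 : ∑ _v ∈ range n, 3 ≤ ∑ v ∈ range n, CtF X K d (k + 1 + v) := by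
          refine Finset.sum_le_sum fun v hv => ?_
          have hv' := Finset.mem_range.1 hv
          refine Ct_full X K d hK (k + 1 + v) fun x hx => ?_
          have h4 := hfull (v + 1) (by omega) (by omega) x hx
          have e2 : k + (v + 1) = k + 1 + v := by omega
          rwa [e2] at h4
        rw [Finset.sum_const, Finset.card_range, smul_eq_mul] at h3
        have e3 : k + 1 + n = k + (n + 1) := by omega
        rw [e3]
        omega
      change 6 * (m - 1) + _ + CtF X K d m + CtF X K d (k + m) ≤ _
      omega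
    · rw [Finset.disjoint_left]
      intro v hv hv'
      have a1 := Finset.mem_range.1 hv
      have a2 := Finset.mem_Ico.1 hv'
      omega

end Pool.Agent.SSC
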