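import Pool.Agent.SSC.St

/-!
# SSC, module Cl: the class of groups
-/

set_option autoImplicit false

open Finset Pool.Agent.Helper64.Rho Pool.Agent.SDG Pool.Agent.MDR
open scoped Classical Pointwise

namespace Pool.Agent.SSC

private theorem Cl_two {G : Type} [AddCommGroup G] [Finite G]
    (h : ∀ x y : G, x ≠ 0 → (3 : ℕ) • x = 0 → (3 : ℕ) • y = 0 → y = 0 ∨ y = x ∨ y = -x)
    (K K' : AddSubgroup G) (hK : Nat.card K = 3) (hK' : Nat.card K' = 3) : K' ≤ K := by
  have hnt : Nontrivial K := by
    rw [← Finite.one_lt_card_iff_nontrivial, hK]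
    norm_num
  obtain ⟨x, hx⟩ := exists_ne (0 : K)
  have hx0 : (x : G) ≠ 0 := fun h0 => hx (Subtype.ext h0)
  have hx3 : (3 : ℕ) • (x : G) = 0 := by
    have h1 : Nat.card K • x = 0 := card_nsmul_eq_zero'
    rw [hK] at h1
    have h2 := congrArg (fun z : K => (z : G)) h1
    simpa using h2
  intro y hy
  have hy3 : (3 : ℕ) • y = 0 := by
    have h1 : Nat.card K' • (⟨y, hy⟩ : K') = 0 := card_nsmul_eq_zero'
    rw [hK'] at h1
    have h2 := congrArg (fun z : K' => (z : G)) h1
    simpa using h2
  rcases h x y hx0 hx3 hy3 with h1 | h1 | h1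
  · rw [h1]; exact K.zero_mem
  · rw [h1]; exact x.2
  · rw [h1]; exact K.neg_mem x.2

private theorem Cl_three {G : Type} [AddCommGroup G] [Finite G]
    (h : ∀ x y : G, x ≠ 0 → (3 : ℕ) • x = 0 → (3 : ℕ) • y = 0 → y = 0 ∨ y = x ∨ y = -x)
    (M : AddSubgroup G) (hM : M.index = 3) : (nsmulAddMonoidHom (α := G) 3).range = M := by
  have hle : (nsmulAddMonoidHom (α := G) 3).range ≤ M := by
    rintro _ ⟨x, rfl⟩
    have h1 := M.nsmul_index_mem x
    rw [hM] at h1
    exact h1
  have hker : Nat.card (nsmulAddMonoidHom (α := G) 3).ker ≤ 3 := by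
    by_cases hb : ∃ x : G, x ≠ 0 ∧ (3 : ℕ) • x = 0
    · obtain ⟨x, hx0, hx3⟩ := hb
      have h1 : ((nsmulAddMonoidHom (α := G) 3).ker : Set G) ⊆ {0, x, -x} := by
        intro y hy
        have hy3 : (3 : ℕ) • y = 0 := hy
        rcases h x y hx0 hx3 hy3 with h2 | h2 | h2
        · left; exact h2
        · right; left; exact h2
        · right; right; exact h2
      have h2 : Nat.card (nsmulAddMonoidHom (α := G) 3).ker =
          ((nsmulAddMonoidHom (α := G) 3).ker : Set G).ncard := rfl
      rw [h2]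
      refine (Set.ncard_le_ncard h1 (Set.toFinite _)).trans ?_
      refine (Set.ncard_insert_le _ _).trans ?_
      have h3 := Set.ncard_insert_le x ({-x} : Set G)
      rw [Set.ncard_singleton] at h3
      omega
    · push Not at hb
      have h1 : (nsmulAddMonoidHom (α := G) 3).ker = ⊥ := by
        rw [eq_bot_iff]
        intro y hy
        have hy3 : (3 : ℕ) • y = 0 := hy
        by_contra hy0
        exact hb y hy0 hy3
      rw [h1, AddSubgroup.card_bot]
      norm_num
  refine AddSubgroup.eq_of_le_of_card_ge hle ?_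
  have h1 := (nsmulAddMonoidHom (α := G) 3).ker.card_mul_index
  rw [AddSubgroup.index_ker] at h1
  have h2 := M.card_mul_index
  rw [hM] at h2
  have h3 : Nat.card M * 3 ≤ 3 * Nat.card (nsmulAddMonoidHom (α := G) 3).range := by
    rw [h2, ← h1]
    exact Nat.mul_le_mul_right _ hker
  omega

theorem thm_Cl : St_Cl := by
  intro G _ _ hG
  obtain ⟨hodd, h⟩ := hG
  refine ⟨?_, ?_, ?_, ?_⟩
  · intro M
    refine ⟨Odd.of_dvd_nat hodd (AddSubgroup.card_addSubgroup_dvd_card M), ?_⟩
    intro x y hx hx3 hy3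
    have hx0 : (x : G) ≠ 0 := fun h0 => hx (Subtype.ext h0)
    have hx3' : (3 : ℕ) • (x : G) = 0 := by
      have h2 := congrArg (fun z : M => (z : G)) hx3
      simpa using h2
    have hy3' : (3 : ℕ) • (y : G) = 0 := by
      have h2 := congrArg (fun z : M => (z : G)) hy3
      simpa using h2
    rcases h x y hx0 hx3' hy3' with h1 | h1 | h1
    · left; exact Subtype.ext h1
    · right; left; exact Subtype.ext h1
    · right; right; exact Subtype.ext h1
  · intro K K' hK hK'
    exact le_antisymm (Cl_two h K' K hK' hK) (Cl_two h K K' hK hK')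
  · intro M M' hM hM'
    rw [← Cl_three h M hM, ← Cl_three h M' hM']
  · intro x hx
    obtain ⟨m, hm⟩ := hodd
    have h1 : Nat.card G • x = 0 := card_nsmul_eq_zero'
    rw [hm, add_nsmul, one_nsmul, mul_nsmul, two_nsmul, hx, nsmul_zero, zero_add] at h1
    exact h1

end Pool.Agent.SSC
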