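import Pool.Agent.SSC.St

/-!
# SSC, module Et: extension of a periodic interval
-/

set_option autoImplicit false

noncomputable section

open Finset Pool.Agent.Helper64.Rho Pool.Agent.SDG Pool.Agent.MDR
open scoped Classical Pointwise

namespace Pool.Agent.SSC

private theorem Et_aux {G ι : Type} [AddCommGroup G] (s0 : Finset ι) (f : ι → G)
    (K : AddSubgroup G) (d : G) (lv : ι → ℕ) (m : ℕ) (h0 : Per (FS s0 f) K d m) :
    ∀ (n : ℕ) (R : Finset ι), R.card = n → Disjoint s0 R → (∀ i ∈ R, f i - lv i • d ∈ K) →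
    (∀ i ∈ R, 1 ≤ lv i ∧ lv i + 1 ≤ m + ∑ j ∈ R.filter (fun j => lv j < lv i), lv j) →
    Per (FS (s0 ∪ R) f) K d (m + ∑ i ∈ R, lv i) := by
  intro n
  induction n with
  | zero =>
    intro R hR _ _ _
    rw [card_eq_zero] at hR
    subst hR
    simpa using h0
  | succ n ih =>
    intro R hR hd hK hl
    have hne : R.Nonempty := by
      rw [← card_pos, hR]; omega
    obtain ⟨i, hi, hmax⟩ := exists_max_image R lv hne
    have hc : (R.erase i).card = n := by
      rw [card_erase_of_mem hi, hR]; omega
    have hsub : R.erase i ⊆ R := erase_subset _ _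
    have hfil : ∀ j ∈ R.erase i, (R.erase i).filter (fun j' => lv j' < lv j) =
        R.filter (fun j' => lv j' < lv j) := by
      intro j hj
      ext a
      simp only [mem_filter, mem_erase]
      constructor
      · rintro ⟨⟨-, h1⟩, h2⟩
        exact ⟨h1, h2⟩
      · rintro ⟨h1, h2⟩
        refine ⟨⟨?_, h1⟩, h2⟩
        rintro rfl
        exact absurd (hmax j (hsub hj)) (not_le.2 h2)
    have h1 := ih (R.erase i) hc (hd.mono_right hsub) (fun j hj => hK j (hsub hj)) (fun j hj => by
      rw [hfil j hj]
      exact hl j (hsub hj))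
    have hi' : i ∉ s0 ∪ R.erase i := by
      rw [mem_union, not_or]
      exact ⟨fun h => (disjoint_left.1 hd) h hi, notMem_erase i R⟩
    have hins : s0 ∪ R = insert i (s0 ∪ R.erase i) := by
      rw [← union_insert, insert_erase hi]
    have hsum : ∑ j ∈ R, lv j = ∑ j ∈ R.erase i, lv j + lv i := (sum_erase_add R lv hi).symm
    have hle : lv i + 1 ≤ m + ∑ j ∈ R.erase i, lv j := by
      refine (hl i hi).2.trans (Nat.add_le_add_left ?_ m)
      refine sum_le_sum_of_subset fun a ha => ?_
      rw [mem_filter] at ha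
      rw [mem_erase]
      refine ⟨?_, ha.1⟩
      rintro rfl
      exact lt_irrefl _ ha.2
    intro v hv1 hv2 k hk
    rw [hsum] at hv2
    rw [hins, FS_insert hi', mem_union]
    by_cases hv : v + 1 ≤ m + ∑ j ∈ R.erase i, lv j
    · exact Or.inl (h1 v hv1 hv k hk)
    · right
      rw [mem_image]
      have h2 : lv i ≤ v := by omega
      refine ⟨(v - lv i) • d + (k - (f i - lv i • d)),
        h1 (v - lv i) (by omega) (by omega) _ (K.sub_mem hk (hK i hi)), ?_⟩
      have h3 : v • d = (v - lv i) • d + lv i • d := by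
        rw [← add_smul, Nat.sub_add_cancel h2]
      rw [h3]
      abel

theorem thm_Et : St_Et := by
  intro G ι _ _ s0 R f K d lv m hd hK h0 hl
  exact Et_aux s0 f K d lv m h0 R.card R rfl hd hK hl

end Pool.Agent.SSC
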