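import Pool.Agent.SSC.St

/-!
# SSC, Ev: minimal violating families with an even number of members do not exist
-/

set_option autoImplicit false

noncomputable section

open Finset Pool.Agent.Helper64.Rho Pool.Agent.SDG Pool.Agent.MDR
open scoped Classical Pointwise

namespace Pool.Agent.SSC

theorem thm_Ev : SDG.St_Nm1 → SDG.St_Ba1 → SDG.St_Kn → St_Bn → St_FE → St_Ho → St_Ke → St_Kg → St_Ev := by
  intro hN hB hK hBn hFE hHo hKe hKg G ι _ _ l s f hl hC
  obtain ⟨s1, s2, hd, hu, hA1, hA2, hc1, hc2, hout, hK3⟩ := hHo G ι (2 * l) s f hC (by omega)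
  have hBn' := hBn G ι (2 * l) s f hC (by omega)
  have hFE' := hFE G ι (2 * l) s f hC
  obtain ⟨-, -, hcls, hcard, hne, hcap, hap, hgen, hlt⟩ := hC
  obtain ⟨b1, b2, -, -, -, -, -⟩ := hB G ι f
  obtain ⟨k1, k2, -, -⟩ := hK G
  have hc1' : s1.card = l := by omega
  have hc2' : s2.card = l := by omega
  have e1 : FS s f = FS s1 f + FS s2 f := by
    rw [← hu]
    exact b1 s1 s2 hd
  have hap' : Aper (FS s1 f + FS s2 f) := e1 ▸ hap
  have n1 : (FS s1 f).Nonempty := ⟨0, zero_mem_FS s1 f⟩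
  have n2 : (FS s2 f).Nonempty := ⟨0, zero_mem_FS s2 f⟩
  have i1 := k1 _ _ n1 n2 hap'
  rw [← e1] at i1
  have hcf : cf 2 (2 * l) = 1 + l * (l + 1) := by
    rw [hN.2.2.1 (2 * l)]
    have h1 : (2 * l + 1) ^ 2 = 4 * (l * (l + 1)) + 1 := by ring
    rw [h1]
    omega
  have hcf' : cf 2 (2 * l - 1) = 1 + l * l := by
    obtain ⟨k, rfl⟩ : ∃ k, l = k + 1 := ⟨l - 1, by omega⟩
    rw [hN.2.2.1 (2 * (k + 1) - 1)]
    have h1 : (2 * (k + 1) - 1 + 1) ^ 2 = 4 * ((k + 1) * (k + 1)) := by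
      have h2 : 2 * (k + 1) - 1 + 1 = 2 * (k + 1) := by omega
      rw [h2]
      ring
    rw [h1]
    omega
  have htop : (⊤ : AddSubgroup G) ≠ ⊥ := by
    intro h7
    have hs : s.Nonempty := by
      rw [← card_pos]
      omega
    obtain ⟨i, hi⟩ := hs
    have h8 : f i ∈ (⊥ : AddSubgroup G) := h7 ▸ AddSubgroup.mem_top (f i)
    exact hne i hi (AddSubgroup.mem_bot.1 h8)
  have i2 := k2 _ _ ⊤ n1 n2 htop (fun x _ => AddSubgroup.mem_top x) (fun x _ => AddSubgroup.mem_top x) hap'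
  have hct : Nat.card (⊤ : AddSubgroup G) = Nat.card G := AddSubgroup.card_top
  rw [hct] at i2
  have hx2 : ¬ Exc f s2 := by
    rintro ⟨K, a, h3, h1, -⟩
    rw [hK3 K h3] at h1
    simp at h1
  have hs1 : s1 ⊆ s := by
    rw [← hu]
    exact subset_union_left
  have hs2 : s2 ⊆ s := by
    rw [← hu]
    exact subset_union_right
  rcases le_total (FS s1 f).card (FS s2 f).card with h | h
  · have hF1 : Fam s f s1 := ⟨hs1, hA1, fun M hM => (hout M hM).1, by omega⟩
    have hE := (hFE' s1 hF1 (by omega)).1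
    rw [hc1'] at hE
    rcases hE with h2 | ⟨K, a, hKAP⟩
    · omega
    · by_cases hla : l = 3 * a + 1
      · have hKg' := hKg G ι s1 s2 f K a hcls hd hA1 hA2 (by rw [hu]; exact hap) hKAP (by omega) ?_
          (Or.inl (by omega))
        · rw [hc1', hc2', hu, ← two_mul] at hKg'
          omega
        · intro i hi hiK
          have h4 : i ∈ ins s2 f K := mem_filter.2 ⟨hi, hiK⟩
          rw [hK3 K hKAP.1] at h4
          simp at h4
      · have hKe' := hKe G ι s1 f K a hcls hA1 (b2 s s1 hs1 hap) hKAP (by omega) ?_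
        · rw [hc1'] at hKe'
          omega
        · rw [hc1']
          obtain ⟨k, rfl⟩ : ∃ k, l = k + 1 := ⟨l - 1, by omega⟩
          have h5 : (k + 1) * (k + 1 - 1) = (k + 1) * k := by simp
          rw [h5]
          have h6 : (k + 1) * (k + 1) = (k + 1) * k + (k + 1) := by ring
          omega
  · have hF2 : Fam s f s2 := ⟨hs2, hA2, fun M hM => (hout M hM).2, by omega⟩
    have hE := (hFE' s2 hF2 (by omega)).1
    rw [hc2'] at hE
    rcases hE with h2 | h2
    · omega
    · exact hx2 h2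

end Pool.Agent.SSC
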