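import Pool.Agent.SSC.St

/-!
# SSC, module Fu: periodic intervals from full cosets
-/

set_option autoImplicit false

noncomputable section

open Finset Pool.Agent.Helper64.Rho Pool.Agent.SDG Pool.Agent.MDR
open scoped Classical Pointwise

namespace Pool.Agent.SSC

private theorem Fu_inj {G ι : Type} [AddCommGroup G] {u : Finset ι} {f : ι → G} (h : AS u f)
    {a b : ι} (ha : a ∈ u) (hb : b ∈ u) (hab : a ≠ b) : f a ≠ f b := by
  intro he
  have h1 := h.2 (f a)
  have h2 : ({a, b} : Finset ι) ⊆ u.filter fun i => f i = f a ∨ f i = - f a := by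
    intro i hi
    simp only [mem_insert, mem_singleton] at hi
    rw [mem_filter]
    rcases hi with rfl | rfl
    · exact ⟨ha, Or.inl rfl⟩
    · exact ⟨hb, Or.inl he.symm⟩
  have h3 := (card_le_card h2).trans h1
  rw [card_pair hab] at h3
  omega

/-- three different elements of a group with three elements -/
private theorem Fu_three {G : Type} [AddCommGroup G] (K : AddSubgroup G) (hK : Nat.card K = 3)
    {a b c : G} (ha : a ∈ K) (hb : b ∈ K) (hc : c ∈ K) (hab : a ≠ b) (hac : a ≠ c) (hbc : b ≠ c)
    {x : G} (hx : x ∈ K) : x = a ∨ x = b ∨ x = c := by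
  have : Finite K := Nat.finite_of_card_ne_zero (by rw [hK]; norm_num)
  have := Fintype.ofFinite K
  have h1 : ({⟨a, ha⟩, ⟨b, hb⟩, ⟨c, hc⟩} : Finset K).card = 3 := by
    rw [card_insert_of_notMem, card_pair]
    · intro h; exact hbc (congrArg Subtype.val h)
    · simp only [mem_insert, mem_singleton, not_or]
      exact ⟨fun h => hab (congrArg Subtype.val h), fun h => hac (congrArg Subtype.val h)⟩
  have h2 : ({⟨a, ha⟩, ⟨b, hb⟩, ⟨c, hc⟩} : Finset K) = univ := by
    rw [← card_eq_iff_eq_univ, h1, ← Nat.card_eq_fintype_card, hK]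
  have h3 : (⟨x, hx⟩ : K) ∈ ({⟨a, ha⟩, ⟨b, hb⟩, ⟨c, hc⟩} : Finset K) := by
    rw [h2]; exact mem_univ _
  simp only [mem_insert, mem_singleton, Subtype.mk.injEq] at h3
  exact h3

private theorem Fu_sum1 {ι : Type} (u : Finset ι) (lv : ι → ℕ) (n : ℕ) (hn : 2 ≤ n) :
    ∑ j ∈ u.filter (fun j => lv j < n), lv j =
      (u.filter fun i => lv i = 1).card +
        ∑ j ∈ (u.filter fun i => 2 ≤ lv i).filter (fun j => lv j < n), lv j := by
  rw [card_filter, filter_filter, sum_filter, sum_filter, ← sum_add_distrib]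
  refine sum_congr rfl fun j _ => ?_
  split_ifs <;> omega

private theorem Fu_sum1' {ι : Type} (u : Finset ι) (lv : ι → ℕ) :
    ∑ j ∈ u, lv j = (u.filter fun i => lv i = 1).card +
        ∑ j ∈ (u.filter fun i => 2 ≤ lv i), lv j := by
  rw [card_filter, sum_filter, ← sum_add_distrib]
  refine sum_congr rfl fun j _ => ?_
  split_ifs <;> omega

private theorem Fu_sum2 {ι : Type} (u : Finset ι) (lv : ι → ℕ) (n : ℕ) (hn : 3 ≤ n) :
    ∑ j ∈ u.filter (fun j => lv j < n), lv j =
      (u.filter fun i => lv i = 1).card + 2 * (u.filter fun i => lv i = 2).card +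
        ∑ j ∈ (u.filter fun i => 3 ≤ lv i).filter (fun j => lv j < n), lv j := by
  rw [card_filter, card_filter, mul_sum, filter_filter, sum_filter, sum_filter,
    ← sum_add_distrib, ← sum_add_distrib]
  refine sum_congr rfl fun j _ => ?_
  split_ifs <;> omega

private theorem Fu_sum2' {ι : Type} (u : Finset ι) (lv : ι → ℕ) :
    ∑ j ∈ u, lv j = (u.filter fun i => lv i = 1).card + 2 * (u.filter fun i => lv i = 2).card +
        ∑ j ∈ (u.filter fun i => 3 ≤ lv i), lv j := by
  rw [card_filter, card_filter, mul_sum, sum_filter, ← sum_add_distrib, ← sum_add_distrib]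
  refine sum_congr rfl fun j _ => ?_
  split_ifs <;> omega

private theorem Fu_per_mono {G : Type} [AddCommGroup G] {X Y : Finset G} (h : X ⊆ Y)
    {K : AddSubgroup G} {d : G} {m : ℕ} (hX : Per X K d m) : Per Y K d m :=
  fun v h1 h2 k hk => h (hX v h1 h2 k hk)

/-- the coset filled by two elements and the member `h` -/
private theorem Fu_two {G ι : Type} [AddCommGroup G] (f : ι → G) (K : AddSubgroup G)
    (hK : Nat.card K = 3) (s : Finset ι) (i0 : ι) (hi0 : i0 ∉ s) (h0 : f i0 ∈ K)
    (h0' : f i0 ≠ 0) (T1 T2 : Finset ι) (hT1 : T1 ⊆ s) (hT2 : T2 ⊆ s) (x : G)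
    (h1 : x - ∑ i ∈ T1, f i ∈ K) (h2 : x - ∑ i ∈ T2, f i ∈ K)
    (hne : ∑ i ∈ T1, f i ≠ ∑ i ∈ T2, f i) : x ∈ FS (insert i0 s) f := by
  have h3 : (3 : ℕ) • f i0 = 0 := by
    have h5 := card_nsmul_eq_zero' (x := (⟨f i0, h0⟩ : K))
    rw [hK] at h5
    have h6 := congrArg Subtype.val h5
    simpa using h6
  have h3' : f i0 + f i0 + f i0 = 0 := by
    rw [← h3, succ_nsmul, succ_nsmul, one_nsmul]
  have hnegne : f i0 ≠ - f i0 := by
    intro h
    have h4 : f i0 + f i0 = 0 := by
      nth_rewrite 2 [h]; abel
    rw [h4, zero_add] at h3'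
    exact h0' h3'
  have key : ∀ y : G, y ∈ K → y = 0 ∨ y = f i0 ∨ y = - f i0 := fun y hy =>
    Fu_three K hK K.zero_mem h0 (K.neg_mem h0) (Ne.symm h0') (fun h => h0' (neg_eq_zero.1 h.symm))
      hnegne hy
  have hm1 : ∀ T : Finset ι, T ⊆ s → (∑ i ∈ T, f i ∈ FS (insert i0 s) f) ∧
      (∑ i ∈ T, f i + f i0 ∈ FS (insert i0 s) f) := by
    intro T hT
    refine ⟨mem_FS.2 ⟨T, hT.trans (subset_insert _ _), rfl⟩,
      mem_FS.2 ⟨insert i0 T, insert_subset_insert _ hT, ?_⟩⟩
    rw [sum_insert fun h => hi0 (hT h), add_comm]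
  rcases key _ h1 with h4 | h4 | h4
  · rw [sub_eq_zero.1 h4]; exact (hm1 T1 hT1).1
  · rw [sub_eq_iff_eq_add.1 h4, add_comm]; exact (hm1 T1 hT1).2
  · -- `x = T1 - h`
    rcases key _ h2 with h5 | h5 | h5
    · rw [sub_eq_zero.1 h5]; exact (hm1 T2 hT2).1
    · rw [sub_eq_iff_eq_add.1 h5, add_comm]; exact (hm1 T2 hT2).2
    · exfalso
      apply hne
      have h6 : x - ∑ i ∈ T1, f i = x - ∑ i ∈ T2, f i := h4.trans h5.symm
      exact sub_right_injective h6

theorem thm_Fu : St_Et → St_Fu := by
  intro hEt G ι _ _ u f K d lv hK hAS hlv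
  constructor
  · intro hc1 hl
    obtain ⟨a, b, c, hab, hac, hbc, hs⟩ := card_eq_three.1 hc1
    have ha : a ∈ u ∧ lv a = 1 := by
      have : a ∈ u.filter fun i => lv i = 1 := by rw [hs]; simp
      exact mem_filter.1 this
    have hb : b ∈ u ∧ lv b = 1 := by
      have : b ∈ u.filter fun i => lv i = 1 := by rw [hs]; simp
      exact mem_filter.1 this
    have hc : c ∈ u ∧ lv c = 1 := by
      have : c ∈ u.filter fun i => lv i = 1 := by rw [hs]; simp
      exact mem_filter.1 this
    have hKa : f a - d ∈ K := by simpa [ha.2] using hlv a ha.1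
    have hKb : f b - d ∈ K := by simpa [hb.2] using hlv b hb.1
    have hKc : f c - d ∈ K := by simpa [hc.2] using hlv c hc.1
    have key : ∀ x : G, x - d ∈ K → x = f a ∨ x = f b ∨ x = f c := by
      intro x hx
      have h1 := Fu_three K hK hKa hKb hKc
        (fun h => Fu_inj hAS ha.1 hb.1 hab (sub_left_injective h))
        (fun h => Fu_inj hAS ha.1 hc.1 hac (sub_left_injective h))
        (fun h => Fu_inj hAS hb.1 hc.1 hbc (sub_left_injective h)) hx
      rcases h1 with h1 | h1 | h1
      · exact Or.inl (sub_left_injective h1)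
      · exact Or.inr (Or.inl (sub_left_injective h1))
      · exact Or.inr (Or.inr (sub_left_injective h1))
    have hmem : ∀ T : Finset ι, T ⊆ {a, b, c} → ∑ i ∈ T, f i ∈ FS ({a, b, c} : Finset ι) f :=
      fun T hT => mem_FS.2 ⟨T, hT, rfl⟩
    have hper : Per (FS (u.filter fun i => lv i = 1) f) K d 3 := by
      rw [hs]
      intro v hv1 hv2 k hk
      have hv : v = 1 ∨ v = 2 := by omega
      rcases hv with rfl | rfl
      · rw [one_smul]
        rcases key (d + k) (by simpa using hk) with h1 | h1 | h1
        · rw [h1]; simpa using hmem {a} (by simp)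
        · rw [h1]; simpa using hmem {b} (by simp)
        · rw [h1]; simpa using hmem {c} (by simp)
      · have h2 : (f a + f b + f c - ((2 : ℕ) • d + k)) - d ∈ K := by
          have h3 := K.sub_mem (K.add_mem (K.add_mem hKa hKb) hKc) hk
          have h4 : f a - d + (f b - d) + (f c - d) - k =
              (f a + f b + f c - ((2 : ℕ) • d + k)) - d := by
            rw [two_nsmul]; abel
          rwa [h4] at h3
        rcases key _ h2 with h1 | h1 | h1
        · have h3 : (2 : ℕ) • d + k = f b + f c := by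
            rw [sub_eq_iff_eq_add] at h1
            have : f a + (f b + f c) = f a + ((2 : ℕ) • d + k) := by rw [← h1]; abel
            exact (add_left_cancel this).symm
          rw [h3]; simpa [sum_pair hbc] using hmem {b, c} (by intro i; simp; tauto)
        · have h3 : (2 : ℕ) • d + k = f a + f c := by
            rw [sub_eq_iff_eq_add] at h1
            have : f b + (f a + f c) = f b + ((2 : ℕ) • d + k) := by rw [← h1]; abel
            exact (add_left_cancel this).symm
          rw [h3]; simpa [sum_pair hac] using hmem {a, c} (by intro i; simp; tauto)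
        · have h3 : (2 : ℕ) • d + k = f a + f b := by
            rw [sub_eq_iff_eq_add] at h1
            have : f c + (f a + f b) = f c + ((2 : ℕ) • d + k) := by rw [← h1]; abel
            exact (add_left_cancel this).symm
          rw [h3]; simpa [sum_pair hab] using hmem {a, b} (by intro i; simp; tauto)
    have h1 := hEt G ι (u.filter fun i => lv i = 1) (u.filter fun i => 2 ≤ lv i) f K d lv 3
      (by
        rw [disjoint_left]
        intro i h1 h2
        have h3 := (mem_filter.1 h1).2
        have h4 := (mem_filter.1 h2).2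
        omega)
      (fun i hi => hlv i (mem_filter.1 hi).1) hper
      (fun i hi => by
        obtain ⟨h1, h2⟩ := mem_filter.1 hi
        refine ⟨by omega, ?_⟩
        have h3 := hl i h1 h2
        rw [Fu_sum1 u lv (lv i) h2, hc1] at h3
        exact h3)
    rw [Fu_sum1' u lv, hc1]
    refine Fu_per_mono (FS_mono ?_ f) h1
    exact union_subset (filter_subset _ _) (filter_subset _ _)
  · intro hc1 hc2 h0 hl
    obtain ⟨i0, hi0, hl0⟩ := h0
    obtain ⟨z, z', hzz, hs1⟩ := card_eq_two.1 hc1
    obtain ⟨y1, y2, y3, h12, h13, h23, hs2⟩ := card_eq_three.1 hc2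
    have hz : z ∈ u ∧ lv z = 1 := by
      have : z ∈ u.filter fun i => lv i = 1 := by rw [hs1]; simp
      exact mem_filter.1 this
    have hz' : z' ∈ u ∧ lv z' = 1 := by
      have : z' ∈ u.filter fun i => lv i = 1 := by rw [hs1]; simp
      exact mem_filter.1 this
    have hy1 : y1 ∈ u ∧ lv y1 = 2 := by
      have : y1 ∈ u.filter fun i => lv i = 2 := by rw [hs2]; simp
      exact mem_filter.1 this
    have hy2 : y2 ∈ u ∧ lv y2 = 2 := by
      have : y2 ∈ u.filter fun i => lv i = 2 := by rw [hs2]; simp
      exact mem_filter.1 this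
    have hy3 : y3 ∈ u ∧ lv y3 = 2 := by
      have : y3 ∈ u.filter fun i => lv i = 2 := by rw [hs2]; simp
      exact mem_filter.1 this
    have hKz : f z - d ∈ K := by simpa [hz.2] using hlv z hz.1
    have hKz' : f z' - d ∈ K := by simpa [hz'.2] using hlv z' hz'.1
    have hK1 : f y1 - (2 : ℕ) • d ∈ K := by simpa [hy1.2] using hlv y1 hy1.1
    have hK2 : f y2 - (2 : ℕ) • d ∈ K := by simpa [hy2.2] using hlv y2 hy2.1
    have hh : f i0 ∈ K := by simpa [hl0] using hlv i0 hi0
    have hh0 : f i0 ≠ 0 := hAS.1 i0 hi0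
    have hfz : f z ≠ f z' := Fu_inj hAS hz.1 hz'.1 hzz
    have hfy : f y1 ≠ f y2 := Fu_inj hAS hy1.1 hy2.1 h12
    have hne : ∀ {p q : ι}, lv p ≠ lv q → p ≠ q := fun h h' => h (by rw [h'])
    have hzy1 : z ≠ y1 := hne (by rw [hz.2, hy1.2]; norm_num)
    have hzy2 : z ≠ y2 := hne (by rw [hz.2, hy2.2]; norm_num)
    have hzy1' : z' ≠ y1 := hne (by rw [hz'.2, hy1.2]; norm_num)
    have hzy2' : z' ≠ y2 := hne (by rw [hz'.2, hy2.2]; norm_num)
    have hi0s : i0 ∉ ({z, z', y1, y2} : Finset ι) := by
      simp only [mem_insert, mem_singleton, not_or]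
      exact ⟨hne (by rw [hl0, hz.2]; norm_num), hne (by rw [hl0, hz'.2]; norm_num),
        hne (by rw [hl0, hy1.2]; norm_num), hne (by rw [hl0, hy2.2]; norm_num)⟩
    have htwo := Fu_two f K hK {z, z', y1, y2} i0 hi0s hh hh0
    have hper : Per (FS (insert i0 {z, z', y1, y2}) f) K d 6 := by
      intro v hv1 hv2 k hk
      have hv : v = 1 ∨ v = 2 ∨ v = 3 ∨ v = 4 ∨ v = 5 := by omega
      rcases hv with rfl | rfl | rfl | rfl | rfl
      · refine htwo {z} {z'} (by simp) (by simp) _ ?_ ?_ (by simpa using hfz)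
        · have h3 := K.sub_mem hk hKz
          have h4 : k - (f z - d) = (1 : ℕ) • d + k - ∑ i ∈ ({z} : Finset ι), f i := by
            rw [sum_singleton, one_smul]; abel
          rwa [h4] at h3
        · have h3 := K.sub_mem hk hKz'
          have h4 : k - (f z' - d) = (1 : ℕ) • d + k - ∑ i ∈ ({z'} : Finset ι), f i := by
            rw [sum_singleton, one_smul]; abel
          rwa [h4] at h3
      · refine htwo {y1} {y2} (by simp) (by simp) _ ?_ ?_ (by simpa using hfy)
        · have h3 := K.sub_mem hk hK1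
          have h4 : k - (f y1 - (2 : ℕ) • d) = (2 : ℕ) • d + k - ∑ i ∈ ({y1} : Finset ι), f i := by
            rw [sum_singleton]; abel
          rwa [h4] at h3
        · have h3 := K.sub_mem hk hK2
          have h4 : k - (f y2 - (2 : ℕ) • d) = (2 : ℕ) • d + k - ∑ i ∈ ({y2} : Finset ι), f i := by
            rw [sum_singleton]; abel
          rwa [h4] at h3
      · refine htwo {z, y1} {z', y1} (by intro i; simp; tauto) (by intro i; simp; tauto) _ ?_ ?_
          (by rw [sum_pair hzy1, sum_pair hzy1']; intro h; exact hfz (add_right_cancel h))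
        · have h3 := K.sub_mem (K.sub_mem hk hKz) hK1
          have h4 : k - (f z - d) - (f y1 - (2 : ℕ) • d) =
              (3 : ℕ) • d + k - ∑ i ∈ ({z, y1} : Finset ι), f i := by
            rw [sum_pair hzy1, succ_nsmul d 2]; abel
          rwa [h4] at h3
        · have h3 := K.sub_mem (K.sub_mem hk hKz') hK1
          have h4 : k - (f z' - d) - (f y1 - (2 : ℕ) • d) =
              (3 : ℕ) • d + k - ∑ i ∈ ({z', y1} : Finset ι), f i := by
            rw [sum_pair hzy1', succ_nsmul d 2]; abel
          rwa [h4] at h3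
      · have hs1 : ∑ i ∈ ({z, z', y1} : Finset ι), f i = f z + (f z' + f y1) := by
          rw [sum_insert (by simp [hzz, hzy1]), sum_pair hzy1']
        have hs2 : ∑ i ∈ ({z, z', y2} : Finset ι), f i = f z + (f z' + f y2) := by
          rw [sum_insert (by simp [hzz, hzy2]), sum_pair hzy2']
        refine htwo {z, z', y1} {z, z', y2} (by intro i; simp; tauto) (by intro i; simp; tauto)
          _ ?_ ?_ (by rw [hs1, hs2]; intro h; exact hfy (add_left_cancel (add_left_cancel h)))
        · have h3 := K.sub_mem (K.sub_mem (K.sub_mem hk hKz) hKz') hK1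
          have h4 : k - (f z - d) - (f z' - d) - (f y1 - (2 : ℕ) • d) =
              (4 : ℕ) • d + k - ∑ i ∈ ({z, z', y1} : Finset ι), f i := by
            rw [hs1, succ_nsmul d 3, succ_nsmul d 2]; abel
          rwa [h4] at h3
        · have h3 := K.sub_mem (K.sub_mem (K.sub_mem hk hKz) hKz') hK2
          have h4 : k - (f z - d) - (f z' - d) - (f y2 - (2 : ℕ) • d) =
              (4 : ℕ) • d + k - ∑ i ∈ ({z, z', y2} : Finset ι), f i := by
            rw [hs2, succ_nsmul d 3, succ_nsmul d 2]; abel
          rwa [h4] at h3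
      · have hs1 : ∑ i ∈ ({z, y1, y2} : Finset ι), f i = f z + (f y1 + f y2) := by
          rw [sum_insert (by simp [hzy1, hzy2]), sum_pair h12]
        have hs2 : ∑ i ∈ ({z', y1, y2} : Finset ι), f i = f z' + (f y1 + f y2) := by
          rw [sum_insert (by simp [hzy1', hzy2']), sum_pair h12]
        refine htwo {z, y1, y2} {z', y1, y2} (by intro i; simp; tauto) (by intro i; simp; tauto)
          _ ?_ ?_ (by rw [hs1, hs2]; intro h; exact hfz (add_right_cancel h))
        · have h3 := K.sub_mem (K.sub_mem (K.sub_mem hk hKz) hK1) hK2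
          have h4 : k - (f z - d) - (f y1 - (2 : ℕ) • d) - (f y2 - (2 : ℕ) • d) =
              (5 : ℕ) • d + k - ∑ i ∈ ({z, y1, y2} : Finset ι), f i := by
            rw [hs1, succ_nsmul d 4, succ_nsmul d 3, succ_nsmul d 2, two_nsmul]; abel
          rwa [h4] at h3
        · have h3 := K.sub_mem (K.sub_mem (K.sub_mem hk hKz') hK1) hK2
          have h4 : k - (f z' - d) - (f y1 - (2 : ℕ) • d) - (f y2 - (2 : ℕ) • d) =
              (5 : ℕ) • d + k - ∑ i ∈ ({z', y1, y2} : Finset ι), f i := by
            rw [hs2, succ_nsmul d 4, succ_nsmul d 3, succ_nsmul d 2, two_nsmul]; abel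
          rwa [h4] at h3
    have hy3R : y3 ∉ u.filter fun i => 3 ≤ lv i := by
      rw [mem_filter, not_and, hy3.2]
      intro _ h
      omega
    have hR : ∀ i ∈ insert y3 (u.filter fun i => 3 ≤ lv i), i ∈ u := by
      intro i hi
      rw [mem_insert] at hi
      rcases hi with rfl | hi
      · exact hy3.1
      · exact (mem_filter.1 hi).1
    have h1 := hEt G ι (insert i0 {z, z', y1, y2}) (insert y3 (u.filter fun i => 3 ≤ lv i)) f K d
      lv 6
      (by
        rw [disjoint_left]
        intro i h1 h2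
        simp only [mem_insert, mem_singleton] at h1
        rw [mem_insert, mem_filter] at h2
        rcases h1 with rfl | rfl | rfl | rfl | rfl
        · rcases h2 with rfl | h2
          · rw [hl0] at hy3; exact absurd hy3.2 (by norm_num)
          · have := h2.2; omega
        · rcases h2 with rfl | h2
          · have := hy3.2; have := hz.2; omega
          · have := hz.2; have := h2.2; omega
        · rcases h2 with rfl | h2
          · have := hy3.2; have := hz'.2; omega
          · have := hz'.2; have := h2.2; omega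
        · rcases h2 with h2 | h2
          · exact h13 h2
          · have := hy1.2; have := h2.2; omega
        · rcases h2 with h2 | h2
          · exact h23 h2
          · have := hy2.2; have := h2.2; omega)
      (fun i hi => hlv i (hR i hi)) hper
      (fun i hi => by
        rw [mem_insert] at hi
        rcases hi with rfl | hi
        · rw [hy3.2]
          exact ⟨by norm_num, by omega⟩
        · obtain ⟨h1, h2⟩ := mem_filter.1 hi
          refine ⟨by omega, ?_⟩
          have h3 := hl i h1 h2
          rw [Fu_sum2 u lv (lv i) h2, hc1, hc2] at h3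
          rw [filter_insert, if_pos (by rw [hy3.2]; omega), sum_insert (by
            intro h; exact hy3R (mem_filter.1 h).1), hy3.2]
          omega)
    rw [Fu_sum2' u lv, hc1, hc2]
    rw [sum_insert hy3R, hy3.2] at h1
    have h5 : 2 + 2 * 3 + ∑ j ∈ u.filter (fun i => 3 ≤ lv i), lv j =
        6 + (2 + ∑ j ∈ u.filter (fun i => 3 ≤ lv i), lv j) := by ring
    rw [h5]
    refine Fu_per_mono (FS_mono ?_ f) h1
    intro i hi
    rw [mem_union] at hi
    rcases hi with hi | hi
    · simp only [mem_insert, mem_singleton] at hi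
      rcases hi with rfl | rfl | rfl | rfl | rfl
      · exact hi0
      · exact hz.1
      · exact hz'.1
      · exact hy1.1
      · exact hy2.1
    · exact hR i hi

end Pool.Agent.SSC
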