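import Pool.Agent.SSC.St

/-!
# SSC G3: growth modulo a subgroup of order three (helper21)
-/

set_option autoImplicit false

noncomputable section

open Finset Pool.Agent.Helper64.Rho Pool.Agent.SDG Pool.Agent.MDR
open scoped Classical Pointwise

namespace Pool.Agent.SSC

private theorem G3_mem_st {G : Type} [AddCommGroup G] [Finite G] {A : Finset G}
    {H : AddSubgroup G} {x : G} : x ∈ st A H ↔ ∃ a ∈ A, x - a ∈ H := by
  unfold st
  rw [Set.Finite.mem_toFinset]
  rfl

private theorem G3_two {G : Type} [AddCommGroup G] [Finite G] (hN : Odd (Nat.card G)) {x : G}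
    (h : x + x = 0) : x = 0 := by
  have h1 : addOrderOf x ∣ 2 := addOrderOf_dvd_of_nsmul_eq_zero (by rw [two_nsmul]; exact h)
  have h2 : addOrderOf x ∣ Nat.card G := addOrderOf_dvd_natCard x
  have h3 : addOrderOf x = 1 := by
    rcases (Nat.dvd_prime Nat.prime_two).1 h1 with h | h
    · exact h
    · exfalso
      rw [h] at h2
      exact (Nat.not_even_iff_odd.2 hN) (even_iff_two_dvd.2 h2)
  exact AddMonoid.addOrderOf_eq_one_iff.1 h3

private theorem G3_odd {G : Type} [AddCommGroup G] [Finite G] (hN : Odd (Nat.card G))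
    {E : Finset G} (h0 : (0 : G) ∈ E) (hs : ∀ y ∈ E, -y ∈ E) : Odd E.card := by
  have h1 : ∑ x ∈ E.erase 0, (1 : ZMod 2) = 0 := by
    refine Finset.sum_involution (fun x _ => -x) ?_ ?_ ?_ ?_
    · intro a _
      decide
    · intro a ha _ h
      refine (Finset.mem_erase.1 ha).1 (G3_two hN ?_)
      nth_rewrite 1 [← h]
      exact neg_add_cancel a
    · intro a ha
      obtain ⟨h2, h3⟩ := Finset.mem_erase.1 ha
      exact Finset.mem_erase.2 ⟨fun h => h2 (neg_eq_zero.1 h), hs a h3⟩
    · intro a _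
      exact neg_neg a
  rw [Finset.sum_const, nsmul_eq_mul, mul_one] at h1
  have h2 : 2 ∣ (E.erase 0).card := (ZMod.natCast_eq_zero_iff _ 2).1 h1
  have h3 := Finset.card_erase_add_one h0
  obtain ⟨c, hc⟩ := h2
  exact ⟨c, by omega⟩

/-- the preimage of a finite set in the quotient -/
private theorem G3_pre {G : Type} [AddCommGroup G] [Finite G] (K : AddSubgroup G)
    (A : Finset G) (B : Finset (G ⧸ K)) (h : ∀ x : G, x ∈ A ↔ (QuotientAddGroup.mk x : G ⧸ K) ∈ B) :
    A.card = Nat.card K * B.card := by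
  have h1 : ∀ x ∈ A, (QuotientAddGroup.mk x : G ⧸ K) ∈ B := fun x hx => (h x).1 hx
  have hf : ∀ b ∈ B, (A.filter fun x => (QuotientAddGroup.mk x : G ⧸ K) = b).card = Nat.card K := by
    intro b hb
    obtain ⟨g, rfl⟩ := QuotientAddGroup.mk_surjective b
    have : Fintype K := Fintype.ofFinite K
    rw [Nat.card_eq_fintype_card, ← Finset.card_univ]
    symm
    refine Finset.card_bij (fun (k : K) _ => g + (k : G)) ?_ ?_ ?_
    · intro k _
      have h2 : (QuotientAddGroup.mk (g + (k : G)) : G ⧸ K) = QuotientAddGroup.mk g :=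
        QuotientAddGroup.mk_add_of_mem g k.2
      exact mem_filter.2 ⟨(h _).2 (by rw [h2]; exact hb), h2⟩
    · intro k _ k' _ hk
      exact Subtype.ext (add_left_cancel hk)
    · intro x hx
      obtain ⟨-, hx2⟩ := mem_filter.1 hx
      have h3 : -g + x ∈ K := QuotientAddGroup.eq.1 hx2.symm
      exact ⟨⟨-g + x, h3⟩, mem_univ _, by
        change g + (-g + x) = x
        abel⟩
  rw [Finset.card_eq_sum_card_fiberwise (f := fun x => (QuotientAddGroup.mk x : G ⧸ K)) (t := B) h1,
    Finset.sum_congr rfl hf, Finset.sum_const, smul_eq_mul, mul_comm]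

private theorem G3_st {G : Type} [AddCommGroup G] [Finite G] (D : Finset G) (K : AddSubgroup G) :
    (st D K).card = Nat.card K * (D.image fun x => (QuotientAddGroup.mk x : G ⧸ K)).card := by
  refine G3_pre K _ _ fun x => ?_
  rw [G3_mem_st, Finset.mem_image]
  constructor
  · rintro ⟨a, ha, hx⟩
    refine ⟨a, ha, QuotientAddGroup.eq.2 ?_⟩
    rwa [neg_add_eq_sub]
  · rintro ⟨a, ha, hx⟩
    refine ⟨a, ha, ?_⟩
    have := QuotientAddGroup.eq.1 hx
    rwa [neg_add_eq_sub] at this

private theorem G3_subst {G : Type} [AddCommGroup G] [Finite G] (D : Finset G) (H : AddSubgroup G) :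
    D ⊆ st D H := fun x hx => G3_mem_st.2 ⟨x, hx, by rw [sub_self]; exact H.zero_mem⟩

/-- not nearly filled in the quotient -/
private theorem G3_near {G : Type} [AddCommGroup G] [Finite G] (D : Finset G) (K : AddSubgroup G)
    (hK : Nat.card K = 3) (hst : (st D K).card ≤ D.card + 2)
    (hN : ∀ K' : AddSubgroup G, K' ≠ ⊥ → K' ≠ ⊤ → (st D K').card + 1 ≤ D.card + Nat.card K' →
      Nat.card K' = 3) : ¬ NearP (D.image fun x => (QuotientAddGroup.mk x : G ⧸ K)) := by
  rintro ⟨L, hL1, hL2, hL3⟩
  have hcard : Nat.card (L.comap (QuotientAddGroup.mk' K)) = 3 * Nat.card L := by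
    have h1 := G3_pre K (Set.toFinite {x : G | x ∈ L.comap (QuotientAddGroup.mk' K)}).toFinset
      (Set.toFinite {x : G ⧸ K | x ∈ L}).toFinset (fun x => by
        rw [Set.Finite.mem_toFinset, Set.Finite.mem_toFinset]
        rfl)
    rw [hK] at h1
    have h2 : (Set.toFinite {x : G | x ∈ L.comap (QuotientAddGroup.mk' K)}).toFinset.card =
        Nat.card (L.comap (QuotientAddGroup.mk' K)) := by
      rw [← Set.ncard_eq_toFinset_card]
      rfl
    have h3 : (Set.toFinite {x : G ⧸ K | x ∈ L}).toFinset.card = Nat.card L := by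
      rw [← Set.ncard_eq_toFinset_card]
      rfl
    rw [h2, h3] at h1
    exact h1
  have hst2 : (st D (L.comap (QuotientAddGroup.mk' K))).card =
      3 * (st (D.image fun x => (QuotientAddGroup.mk x : G ⧸ K)) L).card := by
    have h1 := G3_pre K (st D (L.comap (QuotientAddGroup.mk' K)))
      (st (D.image fun x => (QuotientAddGroup.mk x : G ⧸ K)) L) (fun x => by
        rw [G3_mem_st, G3_mem_st]
        constructor
        · rintro ⟨a, ha, hx⟩
          exact ⟨_, Finset.mem_image_of_mem _ ha, hx⟩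
        · rintro ⟨b, hb, hx⟩
          obtain ⟨a, ha, rfl⟩ := Finset.mem_image.1 hb
          exact ⟨a, ha, hx⟩)
    rwa [hK] at h1
  have hst3 := G3_st D K
  rw [hK] at hst3
  have hb : L.comap (QuotientAddGroup.mk' K) ≠ ⊥ := by
    intro h
    rw [h] at hcard
    rw [AddSubgroup.card_bot] at hcard
    omega
  have ht : L.comap (QuotientAddGroup.mk' K) ≠ ⊤ := by
    intro h
    apply hL2
    rw [eq_top_iff]
    intro y _
    obtain ⟨x, rfl⟩ := QuotientAddGroup.mk_surjective y
    have h1 : x ∈ L.comap (QuotientAddGroup.mk' K) := by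
      rw [h]
      exact AddSubgroup.mem_top x
    exact h1
  have hLpos : 0 < Nat.card L := Nat.card_pos
  have h3 := hN _ hb ht (by
    rw [hcard, hst2]
    omega)
  rw [hcard] at h3
  have h4 : Nat.card L = 1 := by omega
  exact hL1 (AddSubgroup.card_eq_one.1 h4)

theorem thm_G3 : MDR.St_Sy → MDR.St_Gw → St_Gq → St_G3 := by
  intro hSy hGw hGq G ι _ _ u f K hN hAS hgen hK hKt hst hnear
  obtain ⟨hcard, h0, hsym, hclos, -⟩ := hSy G ι u f hN hAS
  have hq : Nat.card G = Nat.card (G ⧸ K) * 3 := by
    rw [AddSubgroup.card_eq_card_quotient_mul_card_addSubgroup K, hK]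
  have hNq : Odd (Nat.card (G ⧸ K)) := by
    rw [hq] at hN
    exact (Nat.odd_mul.1 hN).1
  have hex : ∃ y ∈ sym u f, y ∉ K := by
    by_contra hcon
    push Not at hcon
    apply hKt
    rw [eq_top_iff, ← hgen, ← hclos, AddSubgroup.closure_le]
    intro y hy
    exact hcon y hy
  have h0' : (0 : G ⧸ K) ∈ (sym u f).image fun x => (QuotientAddGroup.mk x : G ⧸ K) :=
    Finset.mem_image.2 ⟨0, h0, rfl⟩
  have hsym' : ∀ y ∈ (sym u f).image fun x => (QuotientAddGroup.mk x : G ⧸ K),
      -y ∈ (sym u f).image fun x => (QuotientAddGroup.mk x : G ⧸ K) := by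
    intro y hy
    obtain ⟨x, hx, rfl⟩ := Finset.mem_image.1 hy
    exact Finset.mem_image.2 ⟨-x, hsym x hx, rfl⟩
  obtain ⟨a, ha⟩ := G3_odd hNq h0' hsym'
  have hst' := G3_st (sym u f) K
  rw [hK, ha] at hst'
  have hle : (sym u f).card ≤ (st (sym u f) K).card := Finset.card_le_card (G3_subst _ _)
  have ha1 : 1 ≤ a := by
    by_contra hcon
    have h1 : a = 0 := by omega
    rw [h1] at ha
    obtain ⟨y, hy, hyK⟩ := hex
    have h2 := Finset.card_le_one.1 (by omega : ((sym u f).image fun x =>
      (QuotientAddGroup.mk x : G ⧸ K)).card ≤ 1) _ (Finset.mem_image_of_mem _ hy) 0 h0'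
    exact hyK ((QuotientAddGroup.eq_zero_iff y).1 h2)
  have hnear' := G3_near (sym u f) K hK hst hnear
  by_cases hP : ∃ d : G ⧸ K, ∀ y ∈ (sym u f).image fun x => (QuotientAddGroup.mk x : G ⧸ K),
      ∃ k : ℕ, k ≤ a ∧ (y = k • d ∨ y = -(k • d))
  · right
    obtain ⟨d', hd'⟩ := hP
    obtain ⟨d, rfl⟩ := QuotientAddGroup.mk_surjective d'
    refine ⟨d, a, ?_, hst', ?_⟩
    · intro x
      have h1 : AddSubgroup.closure (sym u f : Set G) ≤
          (AddSubgroup.zmultiples (QuotientAddGroup.mk d : G ⧸ K)).comap (QuotientAddGroup.mk' K) := by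
        rw [AddSubgroup.closure_le]
        intro y hy
        obtain ⟨k, -, hk⟩ := hd' _ (Finset.mem_image_of_mem _ hy)
        change (QuotientAddGroup.mk y : G ⧸ K) ∈
          AddSubgroup.zmultiples (QuotientAddGroup.mk d : G ⧸ K)
        rcases hk with hk | hk
        · rw [hk]
          exact AddSubgroup.nsmul_mem _ (AddSubgroup.mem_zmultiples _) k
        · rw [hk]
          exact AddSubgroup.neg_mem _ (AddSubgroup.nsmul_mem _ (AddSubgroup.mem_zmultiples _) k)
      have h2 : x ∈ AddSubgroup.closure (sym u f : Set G) := by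
        rw [hclos, hgen]
        exact AddSubgroup.mem_top x
      have h3 : (QuotientAddGroup.mk x : G ⧸ K) ∈
          AddSubgroup.zmultiples (QuotientAddGroup.mk d : G ⧸ K) := h1 h2
      have h4 := mem_multiples_iff_mem_zmultiples.2 h3
      obtain ⟨k, hk⟩ := AddSubmonoid.mem_multiples_iff _ _ |>.1 h4
      refine ⟨k, ?_⟩
      have h5 : (QuotientAddGroup.mk (k • d) : G ⧸ K) = QuotientAddGroup.mk x := hk
      have h6 := QuotientAddGroup.eq.1 h5
      rwa [neg_add_eq_sub] at h6
    · intro i hi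
      have hm : f i ∈ sym u f := by
        unfold MDR.sym
        exact Finset.mem_union_right _ (Finset.mem_union_left _ (Finset.mem_image_of_mem _ hi))
      obtain ⟨k, hk, hk2⟩ := hd' _ (Finset.mem_image_of_mem _ hm)
      refine ⟨k, hk, ?_⟩
      rcases hk2 with h | h
      · left
        have h5 : (QuotientAddGroup.mk (k • d) : G ⧸ K) = QuotientAddGroup.mk (f i) := h.symm
        have h6 := QuotientAddGroup.eq.1 h5
        rwa [neg_add_eq_sub] at h6
      · right
        have h5 : (QuotientAddGroup.mk (-(k • d)) : G ⧸ K) = QuotientAddGroup.mk (f i) := h.symm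
        have h6 := QuotientAddGroup.eq.1 h5
        rwa [neg_neg, add_comm] at h6
  · left
    have hg := hGw (G ⧸ K) _ a hNq ha1 h0' hsym' ha hnear' hP
    intro i hi
    rcases Nat.lt_or_ge i 2 with h2 | h2
    · have h1 : i = 1 := by omega
      subst h1
      right
      have h3 : it (sym u f) 1 = sym u f := by
        change ({0} : Finset G) + sym u f = sym u f
        rw [Finset.singleton_add]
        simp
      rw [h3, hcard]
      omega
    · have h3 := hGq G (sym u f) K hN hK h0 hsym hex hst i h2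
      rcases hg i hi with h4 | h4
      · left
        rw [h3, hq]
        omega
      · right
        rw [h3]
        have h5 : u.card ≤ 3 * a + 1 := by omega
        have h6 : i * (2 * u.card + 2) ≤ i * (6 * a + 4) := Nat.mul_le_mul_left i (by omega)
        have h7 : i * (6 * a + 4) + 2 * i = 3 * (i * (2 * a + 2)) := by ring
        omega

end Pool.Agent.SSC
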