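import Pool.Agent.SSC.St

/-!
# SSC, Gq: periodicity of `D + D` modulo the group of order three (Lean: helper15)
-/

set_option autoImplicit false

noncomputable section

open Finset Pool.Agent.Helper64.Rho Pool.Agent.SDG Pool.Agent.MDR
open scoped Classical Pointwise

namespace Pool.Agent.SSC

section

variable {G : Type} [AddCommGroup G] [Finite G]

private theorem Gq_mem_st {A : Finset G} {H : AddSubgroup G} {x : G} :
    x ∈ st A H ↔ ∃ a ∈ A, x - a ∈ H := by
  unfold st
  simp

/-- the elements of `K` as a finset -/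
private def GqF (K : AddSubgroup G) : Finset G := (Set.toFinite (K : Set G)).toFinset

private theorem GqF_mem {K : AddSubgroup G} {x : G} : x ∈ GqF K ↔ x ∈ K := by
  unfold GqF
  simp

private theorem GqF_card (K : AddSubgroup G) : (GqF K).card = Nat.card K := by
  unfold GqF
  rw [← Set.ncard_eq_toFinset_card (K : Set G) (Set.toFinite _)]
  rfl

private theorem Gq_half {K : AddSubgroup G} (hG : Odd (Nat.card G)) {z : G} (hz : z + z ∈ K) :
    z ∈ K := by
  obtain ⟨m, hm⟩ := hG
  have h1 : Nat.card G • z = 0 := card_nsmul_eq_zero'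
  have h2 : (m + 1) • (z + z) = z := by
    have h3 : (m + 1) • (z + z) = Nat.card G • z + z := by
      have h4 : 2 * (m + 1) = 2 * m + 1 + 1 := by ring
      rw [hm, ← two_nsmul, ← mul_nsmul, ← succ_nsmul, h4]
    rw [h3, h1, zero_add]
  rw [← h2]
  exact K.nsmul_mem hz _

/-- the missing elements -/
private def GqM (D : Finset G) (K : AddSubgroup G) : Finset G := st D K \ D

private theorem GqM_mem {D : Finset G} {K : AddSubgroup G} {y k : G} (hy : y ∈ D) (hk : k ∈ K)
    (h : y + k ∉ D) : y + k ∈ GqM D K := by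
  unfold GqM
  rw [mem_sdiff, Gq_mem_st]
  refine ⟨⟨y, hy, ?_⟩, h⟩
  rw [add_sub_cancel_left]
  exact hk

private theorem GqM_card {D : Finset G} {K : AddSubgroup G} (h : (st D K).card ≤ D.card + 2) :
    (GqM D K).card ≤ 2 := by
  unfold GqM
  have h1 : D ⊆ st D K := fun x hx => Gq_mem_st.2 ⟨x, hx, by rw [sub_self]; exact K.zero_mem⟩
  rw [card_sdiff_of_subset h1]
  omega

private theorem GqM_neg {D : Finset G} {K : AddSubgroup G} (hs : ∀ y ∈ D, -y ∈ D) {m : G}
    (hm : m ∈ GqM D K) : -m ∈ GqM D K := by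
  unfold GqM at hm ⊢
  rw [mem_sdiff, Gq_mem_st] at hm ⊢
  obtain ⟨⟨a, ha, hma⟩, hmD⟩ := hm
  refine ⟨⟨-a, hs a ha, ?_⟩, fun h => hmD ?_⟩
  · have : -m - -a = -(m - a) := by abel
    rw [this]
    exact K.neg_mem hma
  · have := hs _ h
    rwa [neg_neg] at this

private theorem Gq_diff {D : Finset G} {K : AddSubgroup G} (hK : Nat.card K = 3)
    (hM : (GqM D K).card ≤ 2) {y y' k : G} (hy : y ∈ D) (hy' : y' ∈ D) (hk : k ∈ K)
    (hd : y' - y ∉ K) : y + y' + k ∈ D + D := by
  by_contra hx
  have h1 : ∀ k' ∈ GqF K, y + k' ∈ GqM D K ∨ y' + (k - k') ∈ GqM D K := by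
    intro k' hk'
    rw [GqF_mem] at hk'
    by_contra hc
    push Not at hc
    apply hx
    have h2 : y + k' ∈ D := by
      by_contra h
      exact hc.1 (GqM_mem hy hk' h)
    have h3 : y' + (k - k') ∈ D := by
      by_contra h
      exact hc.2 (GqM_mem hy' (K.sub_mem hk hk') h)
    have h4 := Finset.add_mem_add h2 h3
    have h5 : y + k' + (y' + (k - k')) = y + y' + k := by abel
    rwa [h5] at h4
  have h2 : (GqF K).card ≤ (GqM D K).card := by
    refine Finset.card_le_card_of_injOn
      (fun k' => if y + k' ∈ GqM D K then y + k' else y' + (k - k')) ?_ ?_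
    · intro k' hk'
      show (if y + k' ∈ GqM D K then y + k' else y' + (k - k')) ∈ GqM D K
      split_ifs with h
      · exact h
      · exact (h1 k' hk').resolve_left h
    · intro a ha b hb hab
      have ha' := GqF_mem.1 (mem_coe.1 ha)
      have hb' := GqF_mem.1 (mem_coe.1 hb)
      have hab2 : (if y + a ∈ GqM D K then y + a else y' + (k - a)) =
        if y + b ∈ GqM D K then y + b else y' + (k - b) := hab
      split_ifs at hab2
      · exact add_left_cancel hab2
      · exfalso
        apply hd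
        have h5 : y' - y = a - (k - b) := by
          have h6 : y' = y + a - (k - b) := by rw [hab2]; abel
          rw [h6]
          abel
        rw [h5]
        exact K.sub_mem ha' (K.sub_mem hk hb')
      · exfalso
        apply hd
        have h5 : y' - y = b - (k - a) := by
          have h6 : y' = y + b - (k - a) := by rw [← hab2]; abel
          rw [h6]
          abel
        rw [h5]
        exact K.sub_mem hb' (K.sub_mem hk ha')
      · have h5 := add_left_cancel hab2
        exact sub_right_injective h5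
  rw [GqF_card, hK] at h2
  omega

private theorem Gq_same {D : Finset G} {K : AddSubgroup G} (hG : Odd (Nat.card G))
    (hK : Nat.card K = 3) (hs : ∀ y ∈ D, -y ∈ D)
    (hM : (GqM D K).card ≤ 2) {y y' k : G} (hy : y ∈ D) (hy' : y' ∈ D) (hk : k ∈ K)
    (hd : y' - y ∈ K) (hyK : y ∉ K) : y + y' + k ∈ D + D := by
  by_contra hx
  have h1 : ∀ k' ∈ GqF K, y + k' ∈ GqM D K ∨ y' + (k - k') ∈ GqM D K := by
    intro k' hk'
    rw [GqF_mem] at hk'
    by_contra hc
    push Not at hc
    apply hx
    have h2 : y + k' ∈ D := by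
      by_contra h
      exact hc.1 (GqM_mem hy hk' h)
    have h3 : y' + (k - k') ∈ D := by
      by_contra h
      exact hc.2 (GqM_mem hy' (K.sub_mem hk hk') h)
    have h4 := Finset.add_mem_add h2 h3
    have h5 : y + k' + (y' + (k - k')) = y + y' + k := by abel
    rwa [h5] at h4
  -- at most one missing element in the coset of `y`
  have h2 : ∀ m ∈ GqM D K, ∀ m' ∈ GqM D K, m - y ∈ K → m' - y ∈ K → m = m' := by
    intro m hm m' hm' hmy hmy'
    by_contra hne
    have h3 : ({m, m', -m} : Finset G) ⊆ GqM D K := by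
      intro x hx
      simp only [mem_insert, mem_singleton] at hx
      rcases hx with rfl | rfl | rfl
      · exact hm
      · exact hm'
      · exact GqM_neg hs hm
    have h4 : ∀ n : G, n - y ∈ K → -m ≠ n := by
      intro n hn he
      apply hyK
      apply Gq_half hG
      have h5 : y + y = -(m - y) - (n - y) := by
        rw [← he]
        abel
      rw [h5]
      exact K.sub_mem (K.neg_mem hmy) hn
    have h5 : ({m, m', -m} : Finset G).card = 3 := by
      rw [card_eq_three]
      exact ⟨m, m', -m, hne, (h4 m hmy).symm, (h4 m' hmy').symm, rfl⟩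
    have h6 := card_le_card h3
    omega
  obtain ⟨m, hm, hmy⟩ : ∃ m ∈ GqM D K, m - y ∈ K := by
    have h3 : (0 : G) ∈ GqF K := GqF_mem.2 K.zero_mem
    rcases h1 0 h3 with h | h
    · exact ⟨_, h, by rw [add_sub_cancel_left]; exact K.zero_mem⟩
    · refine ⟨_, h, ?_⟩
      have h4 : y' + (k - 0) - y = (y' - y) + k := by abel
      rw [h4]
      exact K.add_mem hd hk
  have h3 : GqF K ⊆ {m - y, y' + k - m} := by
    intro k' hk'
    have hk2 := GqF_mem.1 hk'
    simp only [mem_insert, mem_singleton]
    rcases h1 k' hk' with h | h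
    · left
      have h4 := h2 _ h m hm (by rw [add_sub_cancel_left]; exact hk2) hmy
      rw [← h4]
      abel
    · right
      have h5 : y' + (k - k') - y ∈ K := by
        have h6 : y' + (k - k') - y = (y' - y) + (k - k') := by abel
        rw [h6]
        exact K.add_mem hd (K.sub_mem hk hk2)
      have h4 := h2 _ h m hm h5 hmy
      rw [← h4]
      abel
  have h4 := card_le_card h3
  have h5 : ({m - y, y' + k - m} : Finset G).card ≤ 2 := card_le_two
  rw [GqF_card, hK] at h4
  omega

private theorem Gq_per {D : Finset G} {K : AddSubgroup G} (hG : Odd (Nat.card G))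
    (hK : Nat.card K = 3) (hs : ∀ y ∈ D, -y ∈ D) (hz : ∃ y ∈ D, y ∉ K)
    (hc : (st D K).card ≤ D.card + 2) : ∀ x ∈ D + D, ∀ k ∈ K, x + k ∈ D + D := by
  intro x hx k hk
  have hM := GqM_card hc
  obtain ⟨y, hy, y', hy', rfl⟩ := Finset.mem_add.1 hx
  by_cases hd : y' - y ∈ K
  · by_cases hyK : y ∈ K
    · obtain ⟨z, hzD, hzK⟩ := hz
      have h1 : -z - z ∉ K := by
        intro h
        apply hzK
        apply Gq_half hG
        have h2 := K.neg_mem h
        have h3 : -(-z - z) = z + z := by abel
        rwa [h3] at h2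
      have hk2 : y + y' + k ∈ K := by
        have h2 : y + y' + k = y + (y' - y + y) + k := by abel
        rw [h2]
        exact K.add_mem (K.add_mem hyK (K.add_mem hd hyK)) hk
      have h2 := Gq_diff hK hM hzD (hs z hzD) hk2 h1
      rwa [add_neg_cancel, zero_add] at h2
    · exact Gq_same hG hK hs hM hy hy' hk hd hyK
  · exact Gq_diff hK hM hy hy' hk hd

omit [Finite G] in
private theorem Gq_it {D : Finset G} {K : AddSubgroup G}
    (h : ∀ x ∈ D + D, ∀ k ∈ K, x + k ∈ D + D) :
    ∀ i, ∀ x ∈ it D (i + 2), ∀ k ∈ K, x + k ∈ it D (i + 2) := by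
  intro i
  induction i with
  | zero =>
    have h1 : it D (0 + 2) = D + D := by
      show ({0} : Finset G) + D + D = D + D
      rw [Finset.singleton_add]
      simp
    rw [h1]
    exact h
  | succ i ih =>
    intro x hx k hk
    have h1 : it D (i + 1 + 2) = it D (i + 2) + D := rfl
    rw [h1] at hx ⊢
    obtain ⟨a, ha, d, hd, rfl⟩ := Finset.mem_add.1 hx
    have h2 : a + d + k = (a + k) + d := by abel
    rw [h2]
    exact Finset.add_mem_add (ih a ha k hk) hd

omit [Finite G] in
private theorem Gq_img (D : Finset G) (K : AddSubgroup G) (i : ℕ) :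
    (it D i).image (fun x => (QuotientAddGroup.mk x : G ⧸ K)) =
      it (D.image fun x => (QuotientAddGroup.mk x : G ⧸ K)) i := by
  induction i with
  | zero =>
    show Finset.image (fun x => (QuotientAddGroup.mk x : G ⧸ K)) {0} = {0}
    rw [Finset.image_singleton]
    rfl
  | succ i ih =>
    simp only [it]
    rw [← ih]
    ext b
    simp only [Finset.mem_image, Finset.mem_add]
    constructor
    · rintro ⟨x, ⟨a, ha, d, hd, rfl⟩, rfl⟩
      exact ⟨_, ⟨a, ha, rfl⟩, _, ⟨d, hd, rfl⟩, rfl⟩
    · rintro ⟨_, ⟨a, ha, rfl⟩, _, ⟨d, hd, rfl⟩, rfl⟩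
      exact ⟨a + d, ⟨a, ha, d, hd, rfl⟩, rfl⟩

private theorem Gq_card {X : Finset G} {K : AddSubgroup G}
    (h : ∀ x ∈ X, ∀ k ∈ K, x + k ∈ X) :
    X.card = Nat.card K * (X.image fun x => (QuotientAddGroup.mk x : G ⧸ K)).card := by
  rw [Finset.card_eq_sum_card_image (fun x => (QuotientAddGroup.mk x : G ⧸ K)) X,
    Finset.sum_const_nat (m := Nat.card K), mul_comm]
  intro b hb
  obtain ⟨x, hx, rfl⟩ := Finset.mem_image.1 hb
  rw [← GqF_card K, ← Finset.card_image_of_injective (GqF K) (add_right_injective x)]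
  congr 1
  ext z
  rw [Finset.mem_filter, Finset.mem_image]
  constructor
  · rintro ⟨hz, he⟩
    refine ⟨-x + z, GqF_mem.2 ?_, by abel⟩
    exact QuotientAddGroup.eq.1 he.symm
  · rintro ⟨k, hk, rfl⟩
    rw [GqF_mem] at hk
    refine ⟨h x hx k hk, ?_⟩
    show (QuotientAddGroup.mk (x + k) : G ⧸ K) = QuotientAddGroup.mk x
    rw [eq_comm, QuotientAddGroup.eq]
    rw [neg_add_cancel_left]
    exact hk

end

/-- **Gq** -/
theorem thm_Gq : St_Gq := by
  intro G _ _ D K hG hK _ hs hz hc i hi
  obtain ⟨j, rfl⟩ : ∃ j, i = j + 2 := ⟨i - 2, by omega⟩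
  have h1 := Gq_card (Gq_it (Gq_per hG hK hs hz hc) j)
  rw [h1, hK, Gq_img]

end Pool.Agent.SSC
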