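import Pool.Agent.SSC.St

/-!
SSC, module H5: growth in a minimal violating family.
-/

set_option autoImplicit false

noncomputable section

open Finset Pool.Agent.Helper64.Rho Pool.Agent.SDG Pool.Agent.MDR
open scoped Classical Pointwise

namespace Pool.Agent.SSC

/-- A generating family has a member outside every proper subgroup. -/
theorem H5_out {G ι : Type} [AddCommGroup G] {u : Finset ι} {f : ι → G} (hg : gen u f = ⊤)
    {K : AddSubgroup G} (hK : K ≠ ⊤) : ∃ i ∈ u, f i ∉ K := by
  by_contra h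
  push Not at h
  refine hK (top_le_iff.1 ?_)
  rw [← hg]
  unfold gen
  rw [AddSubgroup.closure_le]
  rintro x ⟨i, hi, rfl⟩
  exact h i (by simpa using hi)

theorem thm_H5 : Pool.Agent.SDG.St_Ba1 → Pool.Agent.SDG.St_Sm → Pool.Agent.MDR.St_GwF →
    St_Cl → St_SR → St_G3 → St_Kh → St_H5 := by
  intro hBa _ hGw _ hSR hG3 hKh G ι _ _ t s u f hC hus hAS hgen h5 hFS hN hE
  obtain ⟨-, -, hCls, -, -, -, hAp, -, -⟩ := id hC
  have hodd : Odd (Nat.card G) := hCls.1
  by_cases hNP : NearP (sym u f)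
  · obtain ⟨K, hK1, hK2, hK3⟩ := hNP
    have hall : ∀ K' : AddSubgroup G, K' ≠ ⊥ → K' ≠ ⊤ →
        (st (sym u f) K').card + 1 ≤ (sym u f).card + Nat.card K' →
        Nat.card K' = 3 ∧ (ins s f K').card = 1 ∧ 8 ≤ t := fun K' h1 h2 h3 =>
      hSR G ι t s u f K' hC hus hAS (H5_out hgen h2) h1 h3
    obtain ⟨e1, e2, -⟩ := hall K hK1 hK2 hK3
    have hle : (st (sym u f) K).card ≤ (sym u f).card + 2 := by omega
    have hin : (ins u f K).card ≤ 1 := by
      rw [← e2]
      exact card_le_card (filter_subset_filter _ hus)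
    have hApu : Aper (FS u f) := (hBa G ι f).2.1 s u hus hAp
    rcases hG3 G ι u f K hodd hAS hgen e1 hK2 hle (fun K' h1 h2 h3 => (hall K' h1 h2 h3).1) with
      hg | ⟨d, a', h1, h2, h3⟩
    · exact Or.inr hg
    · rcases hKh G ι u f K d a' hCls hAS hApu h5 e1 hin h1 h3 h2 hle hN with h | h
      · exact absurd h hE
      · omega
  · exact hGw G ι u f hodd hAS (by omega) hNP

end Pool.Agent.SSC
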