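import Pool.Agent.SSC.St

/-!
# SSC, Hv: the halves (swap argument)
-/

set_option autoImplicit false

noncomputable section

open Finset Pool.Agent.Helper64.Rho Pool.Agent.SDG Pool.Agent.MDR
open scoped Classical Pointwise

namespace Pool.Agent.SSC

section Hv

variable {G ι : Type} [AddCommGroup G]

/-- partners -/
private def Hv_R (f : ι → G) (a b : ι) : Prop := f a = f b ∨ f a = - f b

private theorem Hv_R_symm (f : ι → G) (a b : ι) (h : Hv_R f a b) : Hv_R f b a := by
  rcases h with h | h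
  · exact Or.inl h.symm
  · exact Or.inr (by rw [h, neg_neg])

private theorem Hv_R_trans (f : ι → G) (a b c : ι) (h : Hv_R f a b) (h' : Hv_R f b c) :
    Hv_R f a c := by
  rcases h with h | h <;> rcases h' with h' | h'
  · exact Or.inl (h.trans h')
  · exact Or.inr (h.trans h')
  · exact Or.inr (by rw [h, h'])
  · exact Or.inl (by rw [h, h', neg_neg])

private theorem Hv_R_mem (f : ι → G) (M : AddSubgroup G) (a b : ι) (h : Hv_R f a b)
    (hb : f b ∈ M) : f a ∈ M := by
  rcases h with h | h <;> rw [h]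
  · exact hb
  · exact M.neg_mem hb

/-- at most one member in every class -/
private def Hv_C (f : ι → G) (t : Finset ι) : Prop := ∀ a ∈ t, ∀ b ∈ t, Hv_R f a b → a = b

private theorem Hv_cap (f : ι → G) (t : Finset ι) : Cap 1 t f ↔ Hv_C f t := by
  constructor
  · intro h a ha b hb hab
    exact card_le_one.1 (h (f b)) a (mem_filter.2 ⟨ha, hab⟩) b (mem_filter.2 ⟨hb, Or.inl rfl⟩)
  · intro h x
    rw [card_le_one]
    intro a ha b hb
    rw [mem_filter] at ha hb
    refine h a ha.1 b hb.1 ?_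
    rcases ha.2 with h1 | h1 <;> rcases hb.2 with h2 | h2 <;> unfold Hv_R <;> rw [h1, h2]
    · exact Or.inl rfl
    · exact Or.inr (neg_neg x).symm
    · exact Or.inr rfl
    · exact Or.inl rfl

private theorem Hv_NP (f : ι → G) (A B : Finset ι) (hA : Hv_C f A) (h : B.card < A.card) :
    ∃ a ∈ A, ∀ b ∈ B, ¬ Hv_R f b a := by
  by_contra hno
  push Not at hno
  have hno' : ∀ z : ι, ∃ b : ι, z ∈ A → b ∈ B ∧ Hv_R f b z := by
    intro z
    by_cases hz : z ∈ A
    · obtain ⟨b, hb, hb'⟩ := hno z hz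
      exact ⟨b, fun _ => ⟨hb, hb'⟩⟩
    · exact ⟨z, fun h => absurd h hz⟩
  choose φ hφ using hno'
  have h3 : A.card ≤ B.card := by
    refine card_le_card_of_injOn φ (fun z hz => (hφ z hz).1) ?_
    intro z hz w hw hzw
    refine hA z hz w hw ?_
    have h1 := (hφ z hz).2
    have h2 := (hφ w hw).2
    rw [hzw] at h1
    exact Hv_R_trans f _ _ _ (Hv_R_symm f _ _ h1) h2
  omega

/-- splittings with the right sizes -/
private def Hv_P (f : ι → G) (s s1 s2 : Finset ι) : Prop :=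
  Disjoint s1 s2 ∧ s1 ∪ s2 = s ∧ Hv_C f s1 ∧ Hv_C f s2 ∧ s1.card = (s.card + 1) / 2 ∧
    s2.card = s.card / 2

private theorem Hv_swapC (f : ι → G) (s1 : Finset ι) (x y : ι) (h1 : Hv_C f s1)
    (hy : ∀ b ∈ s1, b ≠ x → ¬ Hv_R f b y) : Hv_C f (insert y (s1.erase x)) := by
  intro a ha b hb hab
  rcases mem_insert.1 ha with ha' | ha' <;> rcases mem_insert.1 hb with hb' | hb'
  · rw [ha', hb']
  · exfalso
    rw [ha'] at hab
    exact hy b (mem_of_mem_erase hb') (ne_of_mem_erase hb') (Hv_R_symm f _ _ hab)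
  · exfalso
    rw [hb'] at hab
    exact hy a (mem_of_mem_erase ha') (ne_of_mem_erase ha') hab
  · exact h1 a (mem_of_mem_erase ha') b (mem_of_mem_erase hb') hab

private theorem Hv_swap (f : ι → G) (s s1 s2 : Finset ι) (x y : ι) (hP : Hv_P f s s1 s2)
    (hx : x ∈ s1) (hy : y ∈ s2) (hx' : ∀ b ∈ s2, b ≠ y → ¬ Hv_R f b x)
    (hy' : ∀ b ∈ s1, b ≠ x → ¬ Hv_R f b y) :
    Hv_P f s (insert y (s1.erase x)) (insert x (s2.erase y)) := by
  obtain ⟨hd, hu, h1, h2, hc1, hc2⟩ := hP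
  have hxy : x ≠ y := fun h => (disjoint_left.1 hd hx) (h ▸ hy)
  have hx2 : x ∉ s2 := disjoint_left.1 hd hx
  have hy1 : y ∉ s1 := disjoint_right.1 hd hy
  refine ⟨?_, ?_, Hv_swapC f s1 x y h1 hy', Hv_swapC f s2 y x h2 hx', ?_, ?_⟩
  · rw [disjoint_left]
    intro a ha ha'
    rw [mem_insert, mem_erase] at ha ha'
    rcases ha with ha | ⟨ha, ha1⟩
    · rcases ha' with h | ⟨h, _⟩
      · exact hxy (h.symm.trans ha)
      · exact h ha
    · rcases ha' with h | ⟨h, h3⟩
      · exact ha h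
      · exact disjoint_left.1 hd ha1 h3
  · ext a
    rw [← hu]
    simp only [mem_union, mem_insert, mem_erase]
    by_cases hax : a = x
    · rw [hax]
      simp [hx]
    · by_cases hay : a = y
      · rw [hay]
        simp [hy]
      · simp [hax, hay]
  · rw [card_insert_of_notMem (fun h => hy1 (mem_of_mem_erase h)), card_erase_of_mem hx]
    have := card_pos.2 ⟨x, hx⟩
    omega
  · rw [card_insert_of_notMem (fun h => hx2 (mem_of_mem_erase h)), card_erase_of_mem hy]
    have := card_pos.2 ⟨y, hy⟩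
    omega

private theorem Hv_up (f : ι → G) (M : AddSubgroup G) (s1 : Finset ι) (x y : ι) (hx : f x ∈ M)
    (hy : y ∉ s1) (hy' : f y ∉ M) :
    (outs (insert y (s1.erase x)) f M).card = (outs s1 f M).card + 1 := by
  have h : outs (insert y (s1.erase x)) f M = insert y (outs s1 f M) := by
    ext a
    unfold outs
    simp only [mem_filter, mem_insert, mem_erase]
    constructor
    · rintro ⟨h | h, h'⟩
      · exact Or.inl h
      · exact Or.inr ⟨h.2, h'⟩
    · rintro (h | h)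
      · exact ⟨Or.inl h, h ▸ hy'⟩
      · exact ⟨Or.inr ⟨fun h' => h.2 (h' ▸ hx), h.1⟩, h.2⟩
  rw [h, card_insert_of_notMem]
  intro h'
  exact hy (mem_filter.1 h').1

private theorem Hv_dn (f : ι → G) (M : AddSubgroup G) (s1 : Finset ι) (x y : ι) (hx : x ∈ s1)
    (hx' : f x ∉ M) (hy' : f y ∈ M) :
    (outs (insert y (s1.erase x)) f M).card + 1 = (outs s1 f M).card := by
  have h : outs (insert y (s1.erase x)) f M = (outs s1 f M).erase x := by
    ext a
    unfold outs
    simp only [mem_filter, mem_insert, mem_erase]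
    constructor
    · rintro ⟨h | h, h'⟩
      · exact absurd (h ▸ hy') h'
      · exact ⟨h.1, h.2, h'⟩
    · rintro ⟨h1, h2, h3⟩
      exact ⟨Or.inr ⟨h1, h2⟩, h3⟩
  have hx2 : x ∈ outs s1 f M := mem_filter.2 ⟨hx, hx'⟩
  have h3 := card_pos.2 ⟨x, hx2⟩
  rw [h, card_erase_of_mem hx2]
  omega

private theorem Hv_card (f : ι → G) (M : AddSubgroup G) (s : Finset ι) :
    (ins s f M).card + (outs s f M).card = s.card := by
  unfold ins outs
  exact card_filter_add_card_filter_not _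

private theorem Hv_insU (f : ι → G) (M : AddSubgroup G) (s s1 s2 : Finset ι)
    (hP : Hv_P f s s1 s2) : (ins s1 f M).card + (ins s2 f M).card = (ins s f M).card := by
  obtain ⟨hd, hu, -⟩ := hP
  unfold ins
  rw [← hu, filter_union, card_union_of_disjoint]
  exact disjoint_filter_filter hd

/-- the second part has at most one member outside -/
private theorem Hv_E (f : ι → G) (M : AddSubgroup G) (s s1 s2 : Finset ι) (i0 : ι)
    (hs : 9 ≤ s.card) (hin : (ins s f M).card + 1 ≤ (s.card + 1) / 2) (hP : Hv_P f s s1 s2)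
    (hi : i0 ∈ s1) (ho : (outs s2 f M).card ≤ 1) :
    ∃ s1' s2' : Finset ι, Hv_P f s s1' s2' ∧ i0 ∈ s1' ∧ 3 ≤ (outs s1' f M).card ∧
      (outs s2' f M).card = (outs s2 f M).card + 1 := by
  have hP' := hP
  obtain ⟨hd, hu, h1, h2, hc1, hc2⟩ := hP'
  have hU := Hv_insU f M s s1 s2 hP
  have hC1 := Hv_card f M s1
  have hC2 := Hv_card f M s2
  obtain ⟨x, hx, hx'⟩ := Hv_NP f (ins s2 f M) (ins s1 f M)
    (fun a ha b hb => h2 a (mem_filter.1 ha).1 b (mem_filter.1 hb).1) (by omega)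
  obtain ⟨y, hy, hy'⟩ := Hv_NP f ((outs s1 f M).erase i0) (outs s2 f M)
    (fun a ha b hb => h1 a (mem_filter.1 (mem_of_mem_erase ha)).1 b
      (mem_filter.1 (mem_of_mem_erase hb)).1) (by
      have := pred_card_le_card_erase (s := outs s1 f M) (a := i0)
      omega)
  have hxs : x ∈ s2 := (mem_filter.1 hx).1
  have hxM : f x ∈ M := (mem_filter.1 hx).2
  have hys : y ∈ s1 := (mem_filter.1 (mem_of_mem_erase hy)).1
  have hyM : f y ∉ M := (mem_filter.1 (mem_of_mem_erase hy)).2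
  have hyi : y ≠ i0 := ne_of_mem_erase hy
  refine ⟨insert x (s1.erase y), insert y (s2.erase x), Hv_swap f s s1 s2 y x hP hys hxs ?_ ?_,
    mem_insert_of_mem (mem_erase.2 ⟨hyi.symm, hi⟩), ?_, ?_⟩
  · intro b hb _ hR
    by_cases hbM : f b ∈ M
    · exact hyM (Hv_R_mem f M _ _ (Hv_R_symm f _ _ hR) hbM)
    · exact hy' b (mem_filter.2 ⟨hb, hbM⟩) hR
  · intro b hb _ hR
    exact hx' b (mem_filter.2 ⟨hb, Hv_R_mem f M _ _ hR hxM⟩) hR
  · have := Hv_dn f M s1 y x hys hyM hxM
    omega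
  · exact Hv_up f M s2 x y hxM (disjoint_left.1 hd hys) hyM

end Hv

theorem thm_Hv : MDR.St_Sp2 → St_Hv := by
  intro hSp G ι _ s f M i0 hf hcap hs hin hi0
  -- a splitting with the right sizes, with `i0` in the first part
  have hA : ∃ s1 s2, Hv_P f s s1 s2 ∧ i0 ∈ s1 := by
    obtain ⟨s1, s2, hd, hu, ⟨_, hc1⟩, ⟨_, hc2⟩, hl1, hl2⟩ := hSp G ι s f hf hcap
    rw [Hv_cap] at hc1 hc2
    have hcard : s1.card + s2.card = s.card := by
      rw [← hu, card_union_of_disjoint hd]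
    have hP : Hv_P f s s1 s2 := ⟨hd, hu, hc1, hc2, by omega, by omega⟩
    by_cases hi1 : i0 ∈ s1
    · exact ⟨s1, s2, hP, hi1⟩
    have hi2 : i0 ∈ s2 := by
      rw [← hu, mem_union] at hi0
      exact hi0.resolve_left hi1
    by_cases hj : ∃ j ∈ s1, Hv_R f j i0
    · obtain ⟨j, hj, hji⟩ := hj
      refine ⟨insert i0 (s1.erase j), insert j (s2.erase i0),
        Hv_swap f s s1 s2 j i0 hP hj hi2 ?_ ?_, mem_insert_self _ _⟩
      · intro b hb hbi hR
        exact hbi (hc2 b hb i0 hi2 (Hv_R_trans f _ _ _ hR hji))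
      · intro b hb hbj hR
        exact hbj (hc1 b hb j hj (Hv_R_trans f _ _ _ hR (Hv_R_symm f _ _ hji)))
    · push Not at hj
      by_cases hev : s1.card = s2.card
      · exact ⟨s2, s1, ⟨hd.symm, by rw [union_comm, hu], hc2, hc1, by omega, by omega⟩, hi2⟩
      · obtain ⟨j, hj1, hj2⟩ := Hv_NP f s1 s2 hc1 (by omega)
        refine ⟨insert i0 (s1.erase j), insert j (s2.erase i0),
          Hv_swap f s s1 s2 j i0 hP hj1 hi2 ?_ ?_, mem_insert_self _ _⟩
        · intro b hb _ hR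
          exact hj2 b hb hR
        · intro b hb _ hR
          exact hj b hb hR
  obtain ⟨s1, s2, hP, hi⟩ := hA
  suffices h : ∃ s1 s2, Hv_P f s s1 s2 ∧ i0 ∈ s1 ∧ 2 ≤ (outs s1 f M).card ∧
      2 ≤ (outs s2 f M).card by
    obtain ⟨s1, s2, ⟨hd, hu, h1, h2, hc1, hc2⟩, hi, ho1, ho2⟩ := h
    refine ⟨s1, s2, hd, hu, ⟨fun i hi => hf i ?_, (Hv_cap f s1).2 h1⟩,
      ⟨fun i hi => hf i ?_, (Hv_cap f s2).2 h2⟩, hc1, hc2, hi, ho1, ho2⟩
    · rw [← hu]
      exact mem_union_left _ hi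
    · rw [← hu]
      exact mem_union_right _ hi
  by_cases ho2 : (outs s2 f M).card ≤ 1
  · obtain ⟨t1, t2, hQ, hj, hq1, hq2⟩ := Hv_E f M s s1 s2 i0 hs hin hP hi ho2
    by_cases ho3 : (outs t2 f M).card ≤ 1
    · obtain ⟨r1, r2, hQ', hj', hq3, hq4⟩ := Hv_E f M s t1 t2 i0 hs hin hQ hj ho3
      exact ⟨r1, r2, hQ', hj', by omega, by omega⟩
    · exact ⟨t1, t2, hQ, hj, by omega, by omega⟩
  by_cases ho1 : (outs s1 f M).card ≤ 1
  · have hP' := hP
    obtain ⟨hd, hu, h1, h2, hc1, hc2⟩ := hP'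
    have hU := Hv_insU f M s s1 s2 hP
    have hC1 := Hv_card f M s1
    have hC2 := Hv_card f M s2
    have hin2 : (ins s2 f M).card = 0 := by omega
    have hin2' : ∀ b ∈ s2, f b ∉ M := by
      intro b hb hbM
      have : b ∈ ins s2 f M := mem_filter.2 ⟨hb, hbM⟩
      rw [card_eq_zero.1 hin2] at this
      exact notMem_empty _ this
    obtain ⟨x, hx⟩ : ((ins s1 f M).erase i0).Nonempty := by
      rw [← card_pos]
      have := pred_card_le_card_erase (s := ins s1 f M) (a := i0)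
      omega
    obtain ⟨y, hy, hy'⟩ := Hv_NP f s2 (outs s1 f M) h2 (by omega)
    have hxs : x ∈ s1 := (mem_filter.1 (mem_of_mem_erase hx)).1
    have hxM : f x ∈ M := (mem_filter.1 (mem_of_mem_erase hx)).2
    have hxi : x ≠ i0 := ne_of_mem_erase hx
    have hyM : f y ∉ M := hin2' y hy
    refine ⟨insert y (s1.erase x), insert x (s2.erase y), Hv_swap f s s1 s2 x y hP hxs hy ?_ ?_,
      mem_insert_of_mem (mem_erase.2 ⟨hxi.symm, hi⟩), ?_, ?_⟩
    · intro b hb _ hR
      exact hin2' b hb (Hv_R_mem f M _ _ hR hxM)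
    · intro b hb _ hR
      by_cases hbM : f b ∈ M
      · exact hyM (Hv_R_mem f M _ _ (Hv_R_symm f _ _ hR) hbM)
      · exact hy' b (mem_filter.2 ⟨hb, hbM⟩) hR
    · have := Hv_up f M s1 x y hxM (disjoint_right.1 hd hy) hyM
      omega
    · have := Hv_dn f M s2 y x hy hyM hxM
      omega
  · exact ⟨s1, s2, hP, hi, by omega, by omega⟩

end Pool.Agent.SSC
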