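import Pool.Agent.SSC.St

/-!
# SSC, [KS]: sums of `k` different elements
-/

set_option autoImplicit false

noncomputable section

open Finset Pool.Agent.Helper64.Rho Pool.Agent.SDG Pool.Agent.MDR
open scoped Classical Pointwise

namespace Pool.Agent.SSC

section

variable {G : Type} [AddCommGroup G]

private theorem KS_mem {k : ℕ} {A : Finset G} {z : G} :
    z ∈ ks k A ↔ ∃ U : Finset G, U ⊆ A ∧ U.card = k ∧ ∑ x ∈ U, x = z := by
  unfold ks
  rw [Finset.mem_image]
  constructor
  · rintro ⟨U, hU, h⟩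
    rw [Finset.mem_powersetCard] at hU
    exact ⟨U, hU.1, hU.2, h⟩
  · rintro ⟨U, h1, h2, h3⟩
    exact ⟨U, Finset.mem_powersetCard.2 ⟨h1, h2⟩, h3⟩

private theorem KS_mono (k : ℕ) {A B : Finset G} (h : A ⊆ B) : ks k A ⊆ ks k B := by
  intro z hz
  rw [KS_mem] at hz ⊢
  obtain ⟨U, h1, h2, h3⟩ := hz
  exact ⟨U, h1.trans h, h2, h3⟩

private theorem KS_one (A : Finset G) : A.card ≤ (ks 1 A).card := by
  refine Finset.card_le_card fun a ha => ?_
  rw [KS_mem]
  exact ⟨{a}, Finset.singleton_subset_iff.2 ha, Finset.card_singleton a, Finset.sum_singleton _ a⟩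

private theorem KS_last (A : Finset G) (k : ℕ) (hk : k + 1 = A.card) :
    A.card ≤ (ks k A).card := by
  have h1 : (A.image fun a => ∑ x ∈ A, x - a) ⊆ ks k A := by
    intro z hz
    rw [Finset.mem_image] at hz
    obtain ⟨a, ha, rfl⟩ := hz
    rw [KS_mem]
    refine ⟨A.erase a, Finset.erase_subset _ _, ?_, ?_⟩
    · rw [Finset.card_erase_of_mem ha]; omega
    · have := Finset.add_sum_erase A (fun x => x) ha
      rw [← this]
      abel
  have h2 : (A.image fun a => ∑ x ∈ A, x - a).card = A.card :=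
    Finset.card_image_of_injective _ sub_right_injective
  rw [← h2]
  exact Finset.card_le_card h1

private theorem KS_symsum (hodd : ∀ x : G, x + x = 0 → x = 0) (T : Finset G)
    (hT : ∀ x ∈ T, -x ∈ T) : ∑ x ∈ T, x = 0 := by
  apply hodd
  have h1 : ∑ x ∈ T, x = ∑ x ∈ T, -x := by
    refine Finset.sum_nbij' (fun x => -x) (fun x => -x) hT hT ?_ ?_ ?_
    · intro x _; exact neg_neg x
    · intro x _; exact neg_neg x
    · intro x _; exact (neg_neg x).symm
  rw [Finset.sum_neg_distrib] at h1
  nth_rewrite 1 [h1]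
  exact neg_add_cancel _

private theorem KS_pairs (hodd : ∀ x : G, x + x = 0 → x = 0) (L : Finset G)
    (hneg : ∀ x ∈ L, -x ∈ L) : ∀ j : ℕ, 2 * j + 1 ≤ L.card →
    ∃ T : Finset G, T ⊆ L ∧ T.card = 2 * j ∧ (0 : G) ∉ T ∧ ∀ x ∈ T, -x ∈ T := by
  intro j
  induction j with
  | zero => exact fun _ => ⟨∅, Finset.empty_subset _, by simp, by simp, by simp⟩
  | succ j ih =>
    intro hj
    obtain ⟨T, h1, h2, h3, h4⟩ := ih (by omega)
    have h5 : (insert 0 T).card < L.card := by
      rw [Finset.card_insert_of_notMem h3]; omega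
    obtain ⟨x, hxL, hx⟩ := Finset.exists_mem_notMem_of_card_lt_card h5
    rw [Finset.mem_insert, not_or] at hx
    have h6 : -x ∉ T := fun h => hx.2 (by have := h4 _ h; rwa [neg_neg] at this)
    have h7 : x ≠ -x := by
      intro h
      apply hx.1
      apply hodd
      nth_rewrite 2 [h]
      exact add_neg_cancel x
    refine ⟨insert x (insert (-x) T), ?_, ?_, ?_, ?_⟩
    · intro y hy
      rw [Finset.mem_insert, Finset.mem_insert] at hy
      rcases hy with rfl | rfl | hy
      · exact hxL
      · exact hneg x hxL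
      · exact h1 hy
    · rw [Finset.card_insert_of_notMem, Finset.card_insert_of_notMem h6, h2]
      · ring
      · rw [Finset.mem_insert, not_or]
        exact ⟨h7, hx.2⟩
    · rw [Finset.mem_insert, Finset.mem_insert, not_or, not_or]
      refine ⟨fun h => hx.1 h.symm, fun h => hx.1 ?_, h3⟩
      rw [← neg_eq_zero]; exact h.symm
    · intro y hy
      rw [Finset.mem_insert, Finset.mem_insert] at hy ⊢
      rcases hy with rfl | rfl | hy
      · exact Or.inr (Or.inl rfl)
      · exact Or.inl (neg_neg x)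
      · exact Or.inr (Or.inr (h4 y hy))

/-- subgroups -/
private theorem KS_sub (hodd : ∀ x : G, x + x = 0 → x = 0) (L : Finset G) (h0 : (0 : G) ∈ L)
    (hsub : ∀ a ∈ L, ∀ b ∈ L, a - b ∈ L) (k : ℕ) (hk : k + 1 ≤ L.card)
    (hW : L.card ≤ (ks k L).card + 1) : ks k L = L := by
  have hneg : ∀ x ∈ L, -x ∈ L := fun x hx => by
    have := hsub 0 h0 x hx
    rwa [zero_sub] at this
  have hadd : ∀ a b, a ∈ L → b ∈ L → a + b ∈ L := fun a b ha hb => by
    have := hsub a ha (-b) (hneg b hb)
    rwa [sub_neg_eq_add] at this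
  have hle : ks k L ⊆ L := by
    intro z hz
    rw [KS_mem] at hz
    obtain ⟨U, h1, -, rfl⟩ := hz
    exact Finset.sum_induction _ (fun z => z ∈ L) hadd h0 fun x hx => h1 hx
  have hsymm : ∀ z, z ∈ ks k L → -z ∈ ks k L := by
    intro z hz
    rw [KS_mem] at hz ⊢
    obtain ⟨U, h1, h2, rfl⟩ := hz
    refine ⟨U.image fun x => -x, ?_, ?_, ?_⟩
    · intro y hy
      rw [Finset.mem_image] at hy
      obtain ⟨x, hx, rfl⟩ := hy
      exact hneg x (h1 hx)
    · rw [Finset.card_image_of_injective _ neg_injective, h2]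
    · rw [Finset.sum_image fun a _ b _ h => neg_injective h, Finset.sum_neg_distrib]
  have hzero : (0 : G) ∈ ks k L := by
    rw [KS_mem]
    rcases Nat.even_or_odd' k with ⟨j, hj | hj⟩
    · obtain ⟨T, t1, t2, -, t4⟩ := KS_pairs hodd L hneg j (by omega)
      exact ⟨T, t1, by omega, KS_symsum hodd T t4⟩
    · obtain ⟨T, t1, t2, t3, t4⟩ := KS_pairs hodd L hneg j (by omega)
      refine ⟨insert 0 T, Finset.insert_subset h0 t1, ?_, ?_⟩
      · rw [Finset.card_insert_of_notMem t3]; omega
      · rw [Finset.sum_insert t3, KS_symsum hodd T t4, add_zero]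
  by_contra hne
  have h1 : ∃ m ∈ L, m ∉ ks k L := by
    by_contra h
    push Not at h
    exact hne (Finset.Subset.antisymm hle h)
  obtain ⟨m, hm, hm2⟩ := h1
  have h2 : -m ∉ ks k L := fun h => hm2 (by have := hsymm _ h; rwa [neg_neg] at this)
  have h3 : m ≠ -m := by
    intro h
    have h4 : m + m = 0 := by
      nth_rewrite 2 [h]
      exact add_neg_cancel m
    rw [hodd m h4] at hm2
    exact hm2 hzero
  have h5 : ({m, -m} : Finset G) ⊆ L \ ks k L := by
    intro y hy
    rw [Finset.mem_insert, Finset.mem_singleton] at hy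
    rw [Finset.mem_sdiff]
    rcases hy with rfl | rfl
    · exact ⟨hm, hm2⟩
    · exact ⟨hneg m hm, h2⟩
  have h6 := Finset.card_le_card h5
  rw [Finset.card_pair h3, Finset.card_sdiff_of_subset hle] at h6
  omega

/-- double counting of the differences -/
private theorem KS_count (Q D : Finset G) (c : ℕ) (h0 : (0 : G) ∈ D)
    (h : ∀ d ∈ D, d ≠ 0 → c ≤ (Q.filter fun q => q + d ∈ Q).card) :
    Q.card + (D.card - 1) * c ≤ Q.card * Q.card := by
  have h1 : ∑ d ∈ D, (Q.filter fun q => q + d ∈ Q).card ≤ Q.card * Q.card := by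
    have e1 : ∀ d, (Q.filter fun q => q + d ∈ Q).card = ∑ q ∈ Q, if q + d ∈ Q then 1 else 0 :=
      fun d => Finset.card_filter _ _
    rw [Finset.sum_congr rfl fun d _ => e1 d, Finset.sum_comm]
    refine (Finset.sum_le_card_nsmul Q _ Q.card fun q _ => ?_).trans (le_of_eq (by simp))
    rw [← Finset.card_filter]
    refine Finset.card_le_card_of_injOn (fun d => q + d) ?_ ?_
    · intro d hd
      rw [Finset.mem_coe, Finset.mem_filter] at hd
      exact hd.2
    · intro a _ b _ hab
      exact add_left_cancel hab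
  have h2 : Q.card + (D.card - 1) * c ≤ ∑ d ∈ D, (Q.filter fun q => q + d ∈ Q).card := by
    rw [← Finset.add_sum_erase D _ h0]
    refine Nat.add_le_add ?_ ?_
    · refine le_of_eq ?_
      congr 1
      rw [Finset.filter_true_of_mem]
      intro q hq
      rwa [add_zero]
    · rw [← Finset.card_erase_of_mem h0]
      have := Finset.card_nsmul_le_sum (D.erase 0) (fun d => (Q.filter fun q => q + d ∈ Q).card) c
        (fun d hd => h d (Finset.mem_of_mem_erase hd) (Finset.ne_of_mem_erase hd))
      simpa only [smul_eq_mul] using this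
  exact h2.trans h1

private theorem KS_main (hodd : ∀ x : G, x + x = 0 → x = 0) : ∀ n : ℕ, ∀ A : Finset G,
    A.card = n → ∀ k : ℕ, 1 ≤ k → k + 1 ≤ n → n ≤ (ks k A).card := by
  intro n
  induction n using Nat.strong_induction_on with
  | _ n ih =>
  intro A hA k hk hkn
  rcases Nat.lt_or_ge 1 k with hk1 | hk1
  swap
  · have : k = 1 := le_antisymm hk1 hk
    rw [this, ← hA]
    exact KS_one A
  rcases Nat.lt_or_ge (k + 1) n with hkn1 | hkn1
  swap
  · rw [← hA]
    exact KS_last A k (by omega)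
  by_contra hlt
  push Not at hlt
  have hers : ∀ (B : Finset G), B.card = n → n ≤ (ks k B).card + 1 := by
    intro B hB
    have hne : B.Nonempty := Finset.card_pos.1 (by omega)
    obtain ⟨b, hb⟩ := hne
    have h1 := ih (n - 1) (by omega) (B.erase b) (by rw [Finset.card_erase_of_mem hb, hB]) k hk
      (by omega)
    have h2 := Finset.card_le_card (KS_mono k (Finset.erase_subset b B))
    omega
  have hQ : (ks k A).card = n - 1 := by
    have := hers A hA
    omega
  have hpair : ∀ x ∈ A, ∀ y ∈ A, x ≠ y →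
      n - 2 ≤ ((ks k A).filter fun q => q + (x - y) ∈ ks k A).card := by
    intro x hx y hy hxy
    have hy' : y ∈ A.erase x := Finset.mem_erase.2 ⟨hxy.symm, hy⟩
    have h1 := ih (n - 2) (by omega) ((A.erase x).erase y) (by
      rw [Finset.card_erase_of_mem hy', Finset.card_erase_of_mem hx, hA]; omega) (k - 1)
      (by omega) (by omega)
    have hins : ∀ z ∈ A, (z = x ∨ z = y) → ∀ r ∈ ks (k - 1) ((A.erase x).erase y),
        z + r ∈ ks k A := by
      intro z hz hzxy r hr
      rw [KS_mem] at hr ⊢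
      obtain ⟨U, u1, u2, rfl⟩ := hr
      have hzU : z ∉ U := by
        intro h
        have h2 := u1 h
        rw [Finset.mem_erase, Finset.mem_erase] at h2
        rcases hzxy with h3 | h3
        · exact h2.2.1 h3
        · exact h2.1 h3
      refine ⟨insert z U, ?_, ?_, ?_⟩
      · refine Finset.insert_subset hz ?_
        exact u1.trans ((Finset.erase_subset _ _).trans (Finset.erase_subset _ _))
      · rw [Finset.card_insert_of_notMem hzU, u2]; omega
      · rw [Finset.sum_insert hzU]
    have h2 : ((ks (k - 1) ((A.erase x).erase y)).image fun r => y + r) ⊆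
        (ks k A).filter fun q => q + (x - y) ∈ ks k A := by
      intro q hq
      rw [Finset.mem_image] at hq
      obtain ⟨r, hr, rfl⟩ := hq
      rw [Finset.mem_filter]
      refine ⟨hins y hy (Or.inr rfl) r hr, ?_⟩
      have e : y + r + (x - y) = x + r := by abel
      rw [e]
      exact hins x hx (Or.inl rfl) r hr
    have h3 := Finset.card_le_card h2
    rw [Finset.card_image_of_injective _ (add_right_injective y)] at h3
    exact h1.trans h3
  obtain ⟨D, hD⟩ : ∃ D : Finset G, D = (A ×ˢ A).image fun p => p.1 - p.2 := ⟨_, rfl⟩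
  have hDmem : ∀ d, d ∈ D ↔ ∃ a ∈ A, ∃ b ∈ A, d = a - b := by
    intro d
    rw [hD, Finset.mem_image]
    constructor
    · rintro ⟨⟨a, b⟩, hp, h⟩
      rw [Finset.mem_product] at hp
      exact ⟨a, hp.1, b, hp.2, h.symm⟩
    · rintro ⟨a, ha, b, hb, h⟩
      exact ⟨(a, b), Finset.mem_product.2 ⟨ha, hb⟩, h.symm⟩
  obtain ⟨a0, ha0⟩ : A.Nonempty := Finset.card_pos.1 (by omega)
  have h0D : (0 : G) ∈ D := (hDmem 0).2 ⟨a0, ha0, a0, ha0, (sub_self a0).symm⟩
  have hcount := KS_count (ks k A) D (n - 2) h0D (by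
    intro d hd hd0
    obtain ⟨a, ha, b, hb, rfl⟩ := (hDmem d).1 hd
    refine hpair a ha b hb ?_
    rintro rfl
    exact hd0 (sub_self a))
  have hDcard : D.card ≤ n := by
    rw [hQ] at hcount
    by_contra h
    push Not at h
    obtain ⟨e, he⟩ : ∃ e, n = e + 3 := ⟨n - 3, by omega⟩
    obtain ⟨f, hf⟩ : ∃ f, D.card = n + 1 + f := ⟨D.card - (n + 1), by omega⟩
    rw [hf, he] at hcount
    have e1 : e + 3 - 1 = e + 2 := rfl
    have e2 : e + 3 - 2 = e + 1 := rfl
    have e3 : e + 3 + 1 + f - 1 = e + 3 + f := by omega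
    rw [e1, e2, e3] at hcount
    nlinarith
  obtain ⟨L, hL⟩ : ∃ L : Finset G, L = A.image fun a => a - a0 := ⟨_, rfl⟩
  have hLcard : L.card = n := by
    rw [hL, Finset.card_image_of_injective _ (sub_left_injective), hA]
  have hLD : L = D := by
    refine Finset.eq_of_subset_of_card_le ?_ (by omega)
    intro z hz
    rw [hL, Finset.mem_image] at hz
    obtain ⟨a, ha, rfl⟩ := hz
    exact (hDmem _).2 ⟨a, ha, a0, ha0, rfl⟩
  have hLsub : ∀ a ∈ L, ∀ b ∈ L, a - b ∈ L := by
    intro a ha b hb
    rw [hL, Finset.mem_image] at ha hb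
    obtain ⟨a', ha', rfl⟩ := ha
    obtain ⟨b', hb', rfl⟩ := hb
    rw [hLD, hDmem]
    exact ⟨a', ha', b', hb', by abel⟩
  have hksL := KS_sub hodd L (by rw [hLD]; exact h0D) hLsub k (by omega) (by
    rw [hLcard]; exact hers L hLcard)
  have himg : (ks k L).image (fun w => k • a0 + w) ⊆ ks k A := by
    intro z hz
    rw [Finset.mem_image] at hz
    obtain ⟨w, hw, rfl⟩ := hz
    rw [KS_mem] at hw ⊢
    obtain ⟨U, u1, u2, rfl⟩ := hw
    refine ⟨U.image fun x => a0 + x, ?_, ?_, ?_⟩
    · intro y hy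
      rw [Finset.mem_image] at hy
      obtain ⟨x, hx, rfl⟩ := hy
      have h1 := u1 hx
      rw [hL, Finset.mem_image] at h1
      obtain ⟨a, ha, rfl⟩ := h1
      rw [add_sub_cancel]
      exact ha
    · rw [Finset.card_image_of_injective _ (add_right_injective a0), u2]
    · rw [Finset.sum_image fun a _ b _ h => add_right_injective a0 h, Finset.sum_add_distrib,
        Finset.sum_const, u2]
  have h1 := Finset.card_le_card himg
  rw [Finset.card_image_of_injective _ (add_right_injective (k • a0)), hksL, hLcard] at h1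
  omega

end

theorem thm_KS : St_KS := by
  intro G _ _ hG A k hk hkA
  refine KS_main ?_ A.card A rfl k hk hkA
  intro x hx
  obtain ⟨m, hm⟩ := hG
  have h1 : Nat.card G • x = 0 := card_nsmul_eq_zero'
  have e : (2 * m + 1) • x = m • (x + x) + x := by
    rw [add_nsmul, one_nsmul, two_mul, add_nsmul, smul_add]
  rw [hm, e, hx, smul_zero, zero_add] at h1
  exact h1

end Pool.Agent.SSC
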