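import Pool.Agent.SSC.St

/-!
# SSC, Ke: exceptional families with `r ≥ 1`
-/

set_option autoImplicit false

noncomputable section

open Finset Pool.Agent.Helper64.Rho Pool.Agent.SDG Pool.Agent.MDR
open scoped Classical Pointwise

namespace Pool.Agent.SSC

/-- counting by levels -/
theorem Ke_count {ι : Type} (u : Finset ι) (lv : ι → ℕ) (a r : ℕ) (hle : ∀ i ∈ u, lv i ≤ a + 1)
    (h0 : (u.filter fun i => lv i = 0).card = 1)
    (h1 : ∀ k, 1 ≤ k → k ≤ a → (u.filter fun i => lv i = k).card = 3)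
    (h2 : (u.filter fun i => lv i = a + 1).card = r) :
    u.card = 3 * a + r + 1 ∧ 2 * ∑ i ∈ u, lv i = 3 * (a * (a + 1)) + 2 * (r * (a + 1)) := by
  have hmaps : ∀ i ∈ u, lv i ∈ range (a + 2) := fun i hi =>
    mem_range.2 (by have := hle i hi; omega)
  constructor
  · rw [card_eq_sum_card_fiberwise hmaps, sum_range_succ, sum_range_succ', h0, h2]
    have h3 : ∑ k ∈ range a, (u.filter fun i => lv i = k + 1).card = ∑ _k ∈ range a, 3 :=
      sum_congr rfl (fun k hk => h1 (k + 1) (by omega) (by have := mem_range.1 hk; omega))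
    rw [h3, sum_const, card_range, smul_eq_mul]
    ring
  · have e : ∑ i ∈ u, lv i = ∑ k ∈ range (a + 2), (u.filter fun i => lv i = k).card * k := by
      rw [← sum_fiberwise_of_maps_to hmaps]
      refine sum_congr rfl fun k _ => ?_
      rw [sum_congr rfl (fun i hi => (mem_filter.1 hi).2), sum_const, smul_eq_mul]
    rw [e, sum_range_succ, h2]
    have h3 : ∑ k ∈ range (a + 1), (u.filter fun i => lv i = k).card * k =
        ∑ k ∈ range (a + 1), 3 * k := by
      refine sum_congr rfl (fun k hk => ?_)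
      rcases Nat.eq_zero_or_pos k with h | h
      · rw [h, mul_zero, mul_zero]
      · rw [h1 k h (by have := mem_range.1 hk; omega)]
    rw [h3, ← mul_sum]
    have h4 := Finset.sum_range_id_mul_two (a + 1)
    rw [Nat.add_sub_cancel] at h4
    linarith

/-- the numbers -/
theorem Ke_num (a r l m q : ℕ) (ha : 1 ≤ a) (hr : r = 1 ∨ r = 2) (hl : l = 3 * a + r + 1)
    (hm : 2 * m = 3 * (a * (a + 1)) + 2 * (r * (a + 1))) (hN : l * (l - 1) + 3 ≤ 3 * q) :
    6 * m = l * (l + 1) ∧ m + 1 ≤ q ∧ 2 * (a + 1) + 1 ≤ q ∧ 1 ≤ m := by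
  have h1 : 6 * m = l * (l + 1) := by
    have e : 6 * m = 3 * (3 * (a * (a + 1)) + 2 * (r * (a + 1))) := by omega
    rw [e, hl]
    rcases hr with h | h <;> rw [h] <;> ring
  obtain ⟨l', rfl⟩ : ∃ l', l = l' + 4 := ⟨l - 4, by omega⟩
  have e2 : l' + 4 - 1 = l' + 3 := rfl
  rw [e2] at hN
  have h2 : m + 1 ≤ q := by nlinarith
  have h3 : 4 * (a + 1) ≤ 2 * m := by
    rw [hm]
    nlinarith
  refine ⟨h1, h2, by omega, by omega⟩

theorem thm_Ke : SDG.St_Ba1 → SDG.St_Kn → MDR.St_Sg → St_Cl → St_Lv → St_Fu → St_Ct → St_Ke := by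
  intro _ _ hSg _ hLv hFu hCt G ι _ _ u f K a hC hA hAp hKAP hcard hN
  obtain ⟨hK3, hin, ha, d, lv0, hd, hlv0, hc3, hc2⟩ := hKAP
  have hodd := hC.1
  obtain ⟨f', lv, hf', hfl, hl0, hlq, hun⟩ := hLv G ι f K d hodd hd
  obtain ⟨r, hr⟩ : ∃ r, ((outs u f K).filter fun i => lv0 i = a + 1).card = r := ⟨_, rfl⟩
  rw [hr] at hc2
  -- the levels of the definition
  obtain ⟨lv1, hlv1⟩ : ∃ lv1 : ι → ℕ, ∀ i, lv1 i = if f i ∈ K then 0 else lv0 i :=
    ⟨_, fun _ => rfl⟩
  have hout : ∀ i ∈ u, f i ∉ K → i ∈ outs u f K := fun i hi h => mem_filter.2 ⟨hi, h⟩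
  have hle : ∀ i ∈ u, lv1 i ≤ a + 1 := by
    intro i hi
    rw [hlv1]
    split_ifs with h
    · omega
    · exact (hlv0 i (hout i hi h)).2.1
  have hf0 : (u.filter fun i => lv1 i = 0) = ins u f K := by
    unfold ins
    refine filter_congr fun i hi => ?_
    rw [hlv1]
    split_ifs with h
    · simp [h]
    · have := (hlv0 i (hout i hi h)).1
      constructor
      · intro h'
        omega
      · intro h'
        exact absurd h' h
  have hfk : ∀ k, 1 ≤ k → (u.filter fun i => lv1 i = k) =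
      (outs u f K).filter fun i => lv0 i = k := by
    intro k hk
    unfold outs
    rw [filter_filter]
    refine filter_congr fun i hi => ?_
    rw [hlv1]
    split_ifs with h
    · constructor
      · intro h'
        omega
      · intro h'
        exact absurd h h'.1
    · exact ⟨fun h' => ⟨h, h'⟩, fun h' => h'.2⟩
  obtain ⟨hcu, hsu⟩ := Ke_count u lv1 a r hle (by rw [hf0, hin])
    (fun k hk hk' => by rw [hfk k hk, hc3 k hk hk']) (by rw [hfk _ (by omega), hr])
  have hr12 : r = 1 ∨ r = 2 := by omega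
  have hq : 3 * K.index = Nat.card G := by
    rw [← hK3]
    exact AddSubgroup.card_mul_index K
  rw [← hq] at hN
  obtain ⟨n1, n2, n3, n4⟩ := Ke_num a r u.card (∑ i ∈ u, lv1 i) K.index ha hr12 hcu hsu hN
  -- agreement of the levels
  have hag : ∀ i ∈ u, lv i = lv1 i := by
    intro i hi
    rw [hlv1]
    split_ifs with h
    · exact (hl0 i).2 h
    · have h1 := hlv0 i (hout i hi h)
      exact hun i (lv0 i) (by omega) h1.2.2
  have hS : ∑ i ∈ u, lv i = ∑ i ∈ u, lv1 i := sum_congr rfl hag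
  have hF : ∀ k, (u.filter fun i => lv i = k) = u.filter fun i => lv1 i = k := fun k =>
    filter_congr fun i hi => by rw [hag i hi]
  rw [← hS] at n1 n2 n4
  obtain ⟨s1, -, -, -, -, s6, -, -⟩ := hSg G ι u f f' (fun i _ => hf' i)
  have hper : Per (FS u f') K d (∑ i ∈ u, lv i) := by
    refine (hFu G ι u f' K d lv hK3 (s6 hA) (fun i _ => hfl i)).1 ?_ ?_
    · rw [hF, hfk 1 le_rfl, hc3 1 le_rfl ha]
    · intro i hi h2
      obtain ⟨k, hk⟩ : ∃ k, lv i = k + 1 := ⟨lv i - 1, by omega⟩
      have hk1 : k + 1 ≤ a + 1 := by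
        rw [← hk, hag i hi]
        exact hle i hi
      have h3 : ∑ j ∈ u.filter (fun j => lv j = k), lv j = 3 * k := by
        rw [sum_congr rfl (fun j hj => (mem_filter.1 hj).2), sum_const, smul_eq_mul, hF,
          hfk k (by omega), hc3 k (by omega) (by omega)]
      have h4 : ∑ j ∈ u.filter (fun j => lv j = k), lv j ≤
          ∑ j ∈ u.filter (fun j => lv j < lv i), lv j := by
        refine sum_le_sum_of_subset ?_
        intro j hj
        rw [mem_filter] at hj ⊢
        exact ⟨hj.1, by omega⟩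
      omega
  have hct := (hCt G (FS u f') K d (∑ i ∈ u, lv i) hK3 hd n4 hper).1 n2
  -- the member in `K`
  obtain ⟨h, hh⟩ := card_eq_one.1 hin
  have hhin : h ∈ ins u f K := by
    rw [hh]
    exact mem_singleton_self h
  have hhu : h ∈ u := (mem_filter.1 hhin).1
  have hhK : f h ∈ K := (mem_filter.1 hhin).2
  have hh'K : f' h ∈ K := by
    rcases hf' h with e | e
    · rw [e]
      exact hhK
    · rw [e]
      exact K.neg_mem hhK
  have hh'0 : f' h ≠ 0 := (s6 hA).1 h hhu
  have c1 : 2 ≤ ((FS u f').filter fun x => x ∈ K).card := by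
    have hsub : ({0, f' h} : Finset G) ⊆ (FS u f').filter fun x => x ∈ K := by
      intro x hx
      rw [mem_insert, mem_singleton] at hx
      rw [mem_filter]
      rcases hx with e | e
      · rw [e]
        exact ⟨zero_mem_FS u f', K.zero_mem⟩
      · rw [e]
        refine ⟨mem_FS.2 ⟨{h}, singleton_subset_iff.2 hhu, sum_singleton _ _⟩, hh'K⟩
    calc 2 = ({0, f' h} : Finset G).card := (card_pair hh'0.symm).symm
      _ ≤ _ := card_le_card hsub
  have hw : (∑ i ∈ u, f' i) - (∑ i ∈ u, lv i) • d ∈ K := by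
    rw [Finset.sum_smul, ← sum_sub_distrib]
    exact K.sum_mem fun i _ => hfl i
  have c2 : 2 ≤ ((FS u f').filter fun x => x - (∑ i ∈ u, lv i) • d ∈ K).card := by
    have hne : (∑ i ∈ u, f' i) ≠ (∑ i ∈ u, f' i) - f' h := by
      intro e
      exact hh'0 (sub_eq_self.1 e.symm)
    have hsub : ({∑ i ∈ u, f' i, (∑ i ∈ u, f' i) - f' h} : Finset G) ⊆
        (FS u f').filter fun x => x - (∑ i ∈ u, lv i) • d ∈ K := by
      intro x hx
      rw [mem_insert, mem_singleton] at hx
      rw [mem_filter]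
      rcases hx with e | e
      · rw [e]
        exact ⟨mem_FS.2 ⟨u, Subset.refl u, rfl⟩, hw⟩
      · rw [e]
        refine ⟨mem_FS.2 ⟨u.erase h, erase_subset h u, ?_⟩, ?_⟩
        · rw [← add_sum_erase u f' hhu]
          abel
        · have e3 : (∑ i ∈ u, f' i) - f' h - (∑ i ∈ u, lv i) • d =
              ((∑ i ∈ u, f' i) - (∑ i ∈ u, lv i) • d) - f' h := by abel
          rw [e3]
          exact K.sub_mem hw hh'K
    calc 2 = ({∑ i ∈ u, f' i, (∑ i ∈ u, f' i) - f' h} : Finset G).card := (card_pair hne).symm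
      _ ≤ _ := card_le_card hsub
  rw [s1] at hct
  omega

end Pool.Agent.SSC
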