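import Pool.Agent.SSC.St
import Pool.Agent.MDR.Sy

/-!
# SSC Kx: extension of an exceptional family (helper72)
-/

set_option autoImplicit false

noncomputable section

open Finset Pool.Agent.Helper64.Rho Pool.Agent.SDG Pool.Agent.MDR
open scoped Classical Pointwise

namespace Pool.Agent.SSC

private theorem Kx_fib {ι : Type} (o : Finset ι) (lv : ι → ℕ) (n : ℕ) (h : ∀ j ∈ o, lv j < n) :
    ∑ j ∈ o, lv j = ∑ k ∈ range n, k * (o.filter fun j => lv j = k).card := by
  rw [← Finset.sum_fiberwise_of_maps_to (g := lv) (t := range n) (fun j hj => mem_range.2 (h j hj))]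
  apply sum_congr rfl
  intro k _
  have h1 : ∑ j ∈ o.filter (fun j => lv j = k), lv j = ∑ j ∈ o.filter (fun j => lv j = k), k :=
    sum_congr rfl fun j hj => (mem_filter.1 hj).2
  rw [h1, sum_const, smul_eq_mul, mul_comm]

private theorem Kx_cnt {ι : Type} (o : Finset ι) (lv : ι → ℕ) (a r : ℕ)
    (h1 : ∀ j ∈ o, 1 ≤ lv j ∧ lv j ≤ a + 1)
    (h2 : ∀ k, 1 ≤ k → k ≤ a → (o.filter fun j => lv j = k).card = 3)
    (h3 : (o.filter fun j => lv j = a + 1).card = r) :
    o.card = 3 * a + r ∧ 2 * ∑ j ∈ o, lv j = 3 * (a * (a + 1)) + 2 * (r * (a + 1)) ∧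
      ∀ n, 2 ≤ n → n ≤ a + 1 → n + 1 ≤ ∑ j ∈ o.filter (fun j => lv j < n), lv j := by
  have h0 : (o.filter fun j => lv j = 0).card = 0 := by
    rw [card_eq_zero, filter_eq_empty_iff]
    intro j hj h
    have := (h1 j hj).1
    omega
  have hk : ∀ n, n ≤ a + 1 → ∑ k ∈ range n, k * (o.filter fun j => lv j = k).card =
      3 * ∑ k ∈ range n, k := by
    intro n hn
    rw [mul_sum]
    apply sum_congr rfl
    intro k hk
    rcases Nat.eq_zero_or_pos k with h | h
    · rw [h]
      simp
    · rw [h2 k h (by have := mem_range.1 hk; omega), mul_comm]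
  refine ⟨?_, ?_, ?_⟩
  · have e := card_eq_sum_card_fiberwise (f := lv) (s := o) (t := range (a + 2)) (fun j hj => by
      have := (h1 j hj).2
      simp only [coe_range, Set.mem_Iio]
      omega)
    rw [e, sum_range_succ, h3, sum_range_succ', h0]
    have e2 : ∑ k ∈ range a, (o.filter fun j => lv j = k + 1).card = ∑ _k ∈ range a, 3 := by
      apply sum_congr rfl
      intro k hk
      have := mem_range.1 hk
      exact h2 (k + 1) (by omega) (by omega)
    rw [e2, sum_const, card_range, smul_eq_mul]
    ring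
  · rw [Kx_fib o lv (a + 2) (fun j hj => by have := (h1 j hj).2; omega), sum_range_succ, h3,
      hk (a + 1) le_rfl]
    have e := sum_range_id_mul_two (a + 1)
    rw [Nat.add_sub_cancel] at e
    linarith
  · intro n hn hna
    have e1 := Kx_fib (o.filter fun j => lv j < n) lv n (fun j hj => (mem_filter.1 hj).2)
    have e2 : ∑ k ∈ range n, k * ((o.filter fun j => lv j < n).filter fun j => lv j = k).card =
        ∑ k ∈ range n, k * (o.filter fun j => lv j = k).card := by
      apply sum_congr rfl
      intro k hk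
      have hk' := mem_range.1 hk
      congr 2
      ext j
      simp only [mem_filter]
      constructor
      · rintro ⟨⟨x, _⟩, z⟩
        exact ⟨x, z⟩
      · rintro ⟨x, z⟩
        exact ⟨⟨x, by omega⟩, z⟩
    rw [e1, e2, hk n hna]
    have e := sum_range_id_mul_two n
    obtain ⟨m, rfl⟩ : ∃ m, n = m + 2 := ⟨n - 2, by omega⟩
    have e3 : m + 2 - 1 = m + 1 := by omega
    rw [e3] at e
    nlinarith

/-- Two sums in the group and two sums of the top level. -/
private theorem Kx_two {G ι : Type} [AddCommGroup G] (v : Finset ι) (g : ι → G) (K : AddSubgroup G)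
    (d : G) (M : ℕ) (h : ι) (hv : h ∈ v) (hK : g h ∈ K) (h0 : g h ≠ 0)
    (hM : (∑ j ∈ v, g j) - M • d ∈ K) :
    2 ≤ ((FS v g).filter fun x => x ∈ K).card ∧
    2 ≤ ((FS v g).filter fun x => x - M • d ∈ K).card := by
  have m1 : (0 : G) ∈ FS v g := zero_mem_FS v g
  have m2 : g h ∈ FS v g := mem_FS.2 ⟨{h}, singleton_subset_iff.2 hv, by simp⟩
  have m3 : ∑ j ∈ v, g j ∈ FS v g := mem_FS.2 ⟨v, Subset.refl _, rfl⟩
  have m4 : (∑ j ∈ v, g j) - g h ∈ FS v g := by
    refine mem_FS.2 ⟨v.erase h, erase_subset _ _, ?_⟩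
    rw [← add_sum_erase v g hv]
    abel
  constructor
  · have e : ({0, g h} : Finset G) ⊆ (FS v g).filter fun x => x ∈ K := by
      intro x hx
      rw [mem_insert, mem_singleton] at hx
      rw [mem_filter]
      rcases hx with rfl | rfl
      · exact ⟨m1, K.zero_mem⟩
      · exact ⟨m2, hK⟩
    have c := card_le_card e
    rwa [card_pair h0.symm] at c
  · have e : ({∑ j ∈ v, g j, (∑ j ∈ v, g j) - g h} : Finset G) ⊆
        (FS v g).filter fun x => x - M • d ∈ K := by
      intro x hx
      rw [mem_insert, mem_singleton] at hx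
      rw [mem_filter]
      rcases hx with rfl | rfl
      · exact ⟨m3, hM⟩
      · refine ⟨m4, ?_⟩
        have : (∑ j ∈ v, g j) - g h - M • d = ((∑ j ∈ v, g j) - M • d) - g h := by abel
        rw [this]
        exact K.sub_mem hM hK
    have c := card_le_card e
    have hne : (∑ j ∈ v, g j) ≠ (∑ j ∈ v, g j) - g h := by
      intro h1
      apply h0
      have : g h = (∑ j ∈ v, g j) - ((∑ j ∈ v, g j) - g h) := by abel
      rw [this, ← h1, sub_self]
    rwa [card_pair hne] at c

private theorem Kx_sub {G ι : Type} [AddCommGroup G] {s t : Finset ι} {f : ι → G} (h : AS t f)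
    (hs : s ⊆ t) : AS s f :=
  ⟨fun i hi => h.1 i (hs hi), fun x => (card_le_card (filter_subset_filter _ hs)).trans (h.2 x)⟩

private theorem Kx_inj {G ι : Type} [AddCommGroup G] {s : Finset ι} {f : ι → G} (h : AS s f) :
    Set.InjOn f (s : Set ι) := by
  intro i hi j hj hij
  have h1 := card_le_one.1 (h.2 (f i))
  exact h1 i (mem_filter.2 ⟨hi, Or.inl rfl⟩) j (mem_filter.2 ⟨hj, Or.inl hij.symm⟩)

private theorem Kx_lev {G ι : Type} [AddCommGroup G] [Finite G] {s : Finset ι} {g : ι → G}
    (h : AS s g) (K : AddSubgroup G) (hK : Nat.card K = 3) (d : G) (lv : ι → ℕ)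
    (hl : ∀ j ∈ s, g j - lv j • d ∈ K) (n : ℕ) : (s.filter fun j => lv j = n).card ≤ 3 := by
  rw [← hK]
  have : Fintype K := Fintype.ofFinite K
  rw [Nat.card_eq_fintype_card, ← card_univ]
  apply card_le_card_of_injOn (fun j => if hj : g j - n • d ∈ K then (⟨g j - n • d, hj⟩ : K) else 0)
  · intro j _
    exact mem_univ _
  · intro x hx y hy hxy
    rw [mem_coe, mem_filter] at hx hy
    have h1 : g x - n • d ∈ K := by
      rw [← hx.2]
      exact hl x hx.1
    have h2 : g y - n • d ∈ K := by
      rw [← hy.2]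
      exact hl y hy.1
    dsimp only at hxy
    rw [dif_pos h1, dif_pos h2] at hxy
    have h3 : g x - n • d = g y - n • d := congrArg Subtype.val hxy
    exact Kx_inj h hx.1 hy.1 (sub_left_inj.1 h3)

/-- Elements outside the group. -/
private theorem Kx_out {G ι : Type} [AddCommGroup G] [Finite G] (o : Finset ι) (f : ι → G)
    (K : AddSubgroup G) (hK : Nat.card K = 3) (hO : Odd (Nat.card G)) (h : AS o f)
    (ho : ∀ j ∈ o, f j ∉ K) : 2 * o.card + 3 ≤ Nat.card G := by
  have h1 := (thm_Sy G ι o f hO h).1
  have : Fintype G := Fintype.ofFinite G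
  rw [Nat.card_eq_fintype_card, ← card_univ]
  have hKc : (univ.filter fun x : G => x ∈ K).card = 3 := by
    rw [← hK, Nat.card_eq_fintype_card, Fintype.card_subtype]
  have hd : Disjoint ((sym o f).erase 0) (univ.filter fun x : G => x ∈ K) := by
    rw [Finset.disjoint_left]
    intro x hx hxK
    rw [mem_erase] at hx
    rw [mem_filter] at hxK
    unfold sym at hx
    rw [mem_union, mem_singleton, mem_union, mem_image, mem_image] at hx
    rcases hx.2 with h2 | ⟨j, hj, h2⟩ | ⟨j, hj, h2⟩
    · exact hx.1 h2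
    · apply ho j hj
      rw [h2]
      exact hxK.2
    · apply ho j hj
      rw [← K.neg_mem_iff, h2]
      exact hxK.2
  have h2 := card_le_card (subset_univ ((sym o f).erase 0 ∪ univ.filter fun x : G => x ∈ K))
  rw [card_union_of_disjoint hd, hKc, card_erase_of_mem (by
    unfold sym
    simp), h1] at h2
  omega

theorem thm_Kx : SDG.St_Ba1 → SDG.St_Kn → MDR.St_Sg → St_Cl → St_Lv → St_Et → St_Fu → St_Ct → St_Kx := by
  intro _ _ hSg _ hLv hEt hFu hCt G ι _ _ u f K a i hC hAS _ hi hKAP hfi hN
  obtain ⟨hK3, hin, ha, d, lv0, hd, hlv0, hc3, hc2⟩ := hKAP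
  obtain ⟨g, lv, hg, hgl, hl0, hlq, hlu⟩ := hLv G ι f K d hC.1 hd
  obtain ⟨v, hv⟩ : ∃ v, v = u.erase i := ⟨_, rfl⟩
  rw [← hv] at hin hlv0 hc3 hc2
  have hvu : v ⊆ u := by
    rw [hv]
    exact erase_subset _ _
  have hiv : i ∉ v := by
    rw [hv]
    exact notMem_erase _ _
  have huv : insert i v = u := by
    rw [hv]
    exact insert_erase hi
  have hucard : u.card = v.card + 1 := by
    rw [← huv, card_insert_of_notMem hiv]
  -- the index
  obtain ⟨q, hq⟩ : ∃ q, q = K.index := ⟨_, rfl⟩
  have hNq : Nat.card G = 3 * q := by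
    rw [hq, ← hK3]
    exact (AddSubgroup.card_mul_index K).symm
  have hqo : Odd q := by
    have h1 := hC.1
    rw [hNq] at h1
    exact (Nat.odd_mul.1 h1).2
  obtain ⟨b, hb⟩ := hqo
  -- members outside the group
  obtain ⟨o, ho⟩ : ∃ o, o = outs v f K := ⟨_, rfl⟩
  rw [← ho] at hlv0 hc3 hc2
  have hov : o ⊆ v := by
    rw [ho]
    exact filter_subset _ _
  have homem : ∀ j ∈ v, j ∈ o ↔ f j ∉ K := by
    intro j hj
    rw [ho]
    unfold outs
    rw [mem_filter]
    exact ⟨fun h => h.2, fun h => ⟨hj, h⟩⟩
  have hASv : AS v f := Kx_sub hAS hvu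
  have hout := Kx_out o f K hK3 hC.1 (Kx_sub hASv hov) (fun j hj => (homem j (hov hj)).1 hj)
  obtain ⟨r, hr⟩ : ∃ r, r = (o.filter fun j => lv0 j = a + 1).card := ⟨_, rfl⟩
  rw [← hr] at hc2
  obtain ⟨c1, _, _⟩ := Kx_cnt o lv0 a r (fun j hj => ⟨(hlv0 j hj).1, (hlv0 j hj).2.1⟩) hc3 hr.symm
  have hq1 : 2 * a + 1 ≤ q := by omega
  have hlveq : ∀ j ∈ o, lv j = lv0 j := by
    intro j hj
    apply hlu j (lv0 j) _ (hlv0 j hj).2.2
    rw [← hq]
    rcases Nat.lt_or_ge (lv0 j) (a + 1) with h | h
    · omega
    · have h1 : lv0 j = a + 1 := le_antisymm (hlv0 j hj).2.1 h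
      have h2 : 0 < r := by
        rw [hr, card_pos]
        exact ⟨j, mem_filter.2 ⟨hj, h1⟩⟩
      omega
  have hfeq : ∀ n, (o.filter fun j => lv j = n) = o.filter fun j => lv0 j = n := by
    intro n
    apply filter_congr
    intro j hj
    rw [hlveq j hj]
  have hlvo : ∀ j ∈ o, 1 ≤ lv j ∧ lv j ≤ a + 1 := by
    intro j hj
    rw [hlveq j hj]
    exact ⟨(hlv0 j hj).1, (hlv0 j hj).2.1⟩
  have hc3' : ∀ k, 1 ≤ k → k ≤ a → (o.filter fun j => lv j = k).card = 3 := by
    intro k h1 h2
    rw [hfeq k]
    exact hc3 k h1 h2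
  have hr' : (o.filter fun j => lv j = a + 1).card = r := by
    rw [hfeq]
    exact hr.symm
  obtain ⟨_, cm, cl⟩ := Kx_cnt o lv a r hlvo hc3' hr'
  have hlvz : ∀ j ∈ v, j ∉ o → lv j = 0 := by
    intro j hj hjo
    rw [homem j hj, not_not] at hjo
    exact (hl0 j).2 hjo
  have hfv : ∀ n, n ≠ 0 → (v.filter fun j => lv j = n) = o.filter fun j => lv j = n := by
    intro n hn
    ext j
    simp only [mem_filter]
    constructor
    · rintro ⟨h1, h2⟩
      refine ⟨?_, h2⟩
      by_contra h3
      rw [hlvz j h1 h3] at h2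
      exact hn h2.symm
    · rintro ⟨h1, h2⟩
      exact ⟨hov h1, h2⟩
  obtain ⟨m, hm⟩ : ∃ m, m = ∑ j ∈ v, lv j := ⟨_, rfl⟩
  have hmo : m = ∑ j ∈ o, lv j := by
    rw [hm]
    exact (sum_subset hov hlvz).symm
  rw [← hmo] at cm
  have hvcard : v.card = o.card + 1 := by
    have h1 := card_filter_add_card_filter_not (s := v) (fun j => f j ∈ K)
    have h2 : (v.filter fun j => f j ∈ K).card = 1 := hin
    have h3 : (v.filter fun j => f j ∉ K).card = o.card := by
      rw [ho]
      rfl
    omega
  -- the member in the group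
  obtain ⟨h, hh⟩ := card_eq_one.1 hin
  have hh2 : h ∈ ins v f K := by
    rw [hh]
    exact mem_singleton_self h
  unfold ins at hh2
  rw [mem_filter] at hh2
  obtain ⟨hhv, hhK⟩ := hh2
  have hghK : g h ∈ K := by
    have h1 := hgl h
    rw [(hl0 h).2 hhK, zero_smul, sub_zero] at h1
    exact h1
  obtain ⟨sg1, _, _, _, _, sg2, _, _⟩ := hSg G ι u f g (fun j _ => hg j)
  have hASg := sg2 hAS
  have hASgv : AS v g := Kx_sub hASg hvu
  have hgh0 : g h ≠ 0 := hASg.1 h (hvu hhv)
  -- sums of all members
  have hsum : ∀ w : Finset ι, (∑ j ∈ w, g j) - (∑ j ∈ w, lv j) • d ∈ K := by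
    intro w
    rw [sum_smul, ← sum_sub_distrib]
    exact K.sum_mem fun j _ => hgl j
  have hv2 := Kx_two v g K d m h hhv hghK hgh0 (by rw [hm]; exact hsum v)
  -- the periodic interval of the old family
  have hm1 : 1 ≤ m := by nlinarith
  have hPer : Per (FS v g) K d m := by
    rw [hm]
    apply (hFu G ι v g K d lv hK3 hASgv (fun j _ => hgl j)).1
    · rw [hfv 1 one_ne_zero]
      exact hc3' 1 le_rfl ha
    · intro j hj hj2
      have hjo : j ∈ o := by
        by_contra hjo
        rw [hlvz j hj hjo] at hj2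
        omega
      refine (cl (lv j) hj2 (hlvo j hjo).2).trans ?_
      exact sum_le_sum_of_subset (filter_subset_filter _ hov)
  obtain ⟨t1, t2, t3, _⟩ := hCt G (FS v g) K d m hK3 hd hm1 hPer
  rw [← hq] at t1 t2 t3
  have hXle : (FS v g).card ≤ (FS u g).card := card_le_card (FS_mono hvu g)
  -- the claim
  have h6m : 6 * m ≤ u.card * (u.card - 1) := by
    rw [hucard, hvcard, c1, Nat.add_sub_cancel]
    have : r = 0 ∨ r = 1 ∨ r = 2 := by omega
    rcases this with rfl | rfl | rfl <;> nlinarith
  have hclaim : 2 * m + 1 ≤ q := by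
    rcases hN with hN | hN
    · rw [hNq] at hN
      omega
    · rw [hNq, ← sg1] at hN
      rcases Nat.lt_or_ge m q with hlt | hge
      · have := t1 hlt
        omega
      · rcases hge.eq_or_lt with heq | hgt
        · have := t2 heq.symm
          omega
        · have h7 := t3 hgt
          have h8 : (FS v g).card = Nat.card G := by
            have : Fintype G := Fintype.ofFinite G
            rw [Nat.card_eq_fintype_card, ← card_univ]
            congr 1
            exact eq_univ_of_forall h7
          rw [hNq] at h8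
          omega
  -- the new member
  obtain ⟨j, hj⟩ : ∃ j, j = lv i := ⟨_, rfl⟩
  have hj1 : 1 ≤ j := by
    rw [hj]
    apply Nat.one_le_iff_ne_zero.2
    intro h0
    exact hfi ((hl0 i).1 h0)
  have hjq : 2 * j + 1 ≤ q := by
    rw [hj, hq]
    exact hlq i
  have hou : outs u f K = insert i o := by
    rw [← huv, ho]
    unfold outs
    rw [filter_insert, if_pos hfi]
  have hinu : (ins u f K).card = 1 := by
    have : ins u f K = ins v f K := by
      rw [← huv]
      unfold ins
      rw [filter_insert, if_neg hfi]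
    rw [this]
    exact hin
  have hio : i ∉ o := fun h => hiv (hov h)
  have hcong : ∀ x, f x - lv x • d ∈ K ∨ f x + lv x • d ∈ K := by
    intro x
    rcases hg x with h1 | h1
    · left
      rw [← h1]
      exact hgl x
    · right
      have h2 := hgl x
      rw [h1] at h2
      have h3 := K.neg_mem h2
      have h4 : -(-f x - lv x • d) = f x + lv x • d := by abel
      rwa [h4] at h3
  rcases Nat.lt_or_ge j (a + 1) with hja | hja
  · -- a full level
    exfalso
    have h1 := Kx_lev hASg K hK3 d lv (fun x _ => hgl x) j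
    have h2 : (u.filter fun x => lv x = j) = insert i (o.filter fun x => lv x = j) := by
      rw [← huv, filter_insert, if_pos hj.symm, hfv j (by omega)]
    rw [h2, card_insert_of_notMem (fun h => hio (mem_filter.1 h).1), hc3' j hj1 (by omega)] at h1
    omega
  rcases hja.eq_or_lt with hja | hja
  · -- level `a + 1`
    left
    have hlev : ∀ k, k ≠ j → ((insert i o).filter fun x => lv x = k) = o.filter fun x => lv x = k := by
      intro k hk
      rw [filter_insert, if_neg (by rw [← hj]; exact fun h => hk h.symm)]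
    have hlev2 : ((insert i o).filter fun x => lv x = j).card = r + 1 := by
      rw [filter_insert, if_pos hj.symm, card_insert_of_notMem (fun h => hio (mem_filter.1 h).1),
        ← hja, hr']
    rcases Nat.lt_or_ge r 2 with hr2 | hr2
    · refine ⟨K, a, hK3, hinu, ha, d, lv, hd, ?_, ?_, ?_⟩
      · intro x hx
        rw [hou, mem_insert] at hx
        rcases hx with rfl | hx
        · exact ⟨by omega, by omega, hcong _⟩
        · exact ⟨(hlvo x hx).1, (hlvo x hx).2, hcong _⟩
      · intro k hk1 hk2
        rw [hou, hlev k (by omega)]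
        exact hc3' k hk1 hk2
      · rw [hou, hja, hlev2]
        omega
    · refine ⟨K, a + 1, hK3, hinu, by omega, d, lv, hd, ?_, ?_, ?_⟩
      · intro x hx
        rw [hou, mem_insert] at hx
        rcases hx with rfl | hx
        · exact ⟨by omega, by omega, hcong _⟩
        · exact ⟨(hlvo x hx).1, by have := (hlvo x hx).2; omega, hcong _⟩
      · intro k hk1 hk2
        rcases Nat.lt_or_ge k (a + 1) with hk | hk
        · rw [hou, hlev k (by omega)]
          exact hc3' k hk1 (by omega)
        · have hk3 : k = j := by omega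
          rw [hou, hk3, hlev2]
          omega
      · have h0 : ((outs u f K).filter fun x => lv x = a + 1 + 1) = ∅ := by
          rw [filter_eq_empty_iff]
          intro x hx h1
          rw [hou, mem_insert] at hx
          rcases hx with rfl | hx
          · omega
          · have := (hlvo x hx).2
            omega
        rw [h0]
        simp
  · -- higher levels
    right
    have hsu : ∑ x ∈ u, lv x = m + j := by
      rw [← huv, sum_insert hiv, ← hm, ← hj, add_comm]
    have hu2 := Kx_two u g K d (m + j) h (hvu hhv) hghK hgh0 (by rw [← hsu]; exact hsum u)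
    have hkey : 3 * m + 3 * a + 6 ≤ (FS u g).card := by
      rcases Nat.lt_or_ge j m with hjm | hjm
      · have hP : Per (FS (v ∪ {i}) g) K d (m + ∑ x ∈ ({i} : Finset ι), lv x) := by
          apply hEt G ι v {i} g K d lv m (disjoint_singleton_right.2 hiv) _ hPer
          · intro x hx
            rw [mem_singleton] at hx
            rw [hx, ← hj]
            exact ⟨hj1, by omega⟩
          · intro x _
            exact hgl x
        have hvi : v ∪ {i} = u := by
          rw [← huv]
          ext x
          simp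
        rw [hvi, sum_singleton, ← hj] at hP
        have t4 := (hCt G (FS u g) K d (m + j) hK3 hd (by omega) hP).1 (by rw [← hq]; omega)
        omega
      · have t5 := (hCt G (FS u g) K d m hK3 hd hm1 (fun w h1 h2 k hk =>
          FS_mono hvu g (hPer w h1 h2 k hk))).2.2.2 j hjm (by rw [← hq]; omega) (by
            intro w h1 h2 x hx
            have h3 : x - (g i - j • d) ∈ K := K.sub_mem hx (by rw [hj]; exact hgl i)
            have h4 := hPer w h1 h2 _ h3
            rw [← huv, FS_insert hiv, mem_union]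
            right
            rw [mem_image]
            refine ⟨_, h4, ?_⟩
            rw [add_smul]
            abel)
        have h8 : 2 ≤ ((FS u g).filter fun x => x - m • d ∈ K).card :=
          hv2.2.trans (card_le_card (filter_subset_filter _ (FS_mono hvu g)))
        have h9 := hu2.1
        have h10 := hu2.2
        rw [add_comm m j] at h10
        have h11 : a + 2 ≤ m := by nlinarith
        omega
    rw [← sg1]
    have hl : u.card = 3 * a + r + 2 := by omega
    have h12 : u.card * (u.card + 1) + 4 ≤ 6 * m + 6 * a + 12 := by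
      rw [hl]
      have : r = 0 ∨ r = 1 ∨ r = 2 := by omega
      rcases this with rfl | rfl | rfl <;> nlinarith
    omega

end Pool.Agent.SSC
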