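import Pool.Agent.SSC.St

/-!
# SSC, module Lv: levels
-/

set_option autoImplicit false

noncomputable section

open Finset Pool.Agent.Helper64.Rho Pool.Agent.SDG Pool.Agent.MDR
open scoped Classical Pointwise

namespace Pool.Agent.SSC

private theorem Lv_dvd {G : Type} [AddCommGroup G] [Finite G] (K : AddSubgroup G) (d : G)
    (h : ∀ x : G, ∃ k : ℕ, x - k • d ∈ K) (z : ℤ) : z • d ∈ K ↔ (K.index : ℤ) ∣ z := by
  have h1 : addOrderOf (d : G ⧸ K) = K.index := by
    rw [AddSubgroup.index]
    refine addOrderOf_eq_card_of_forall_mem_zmultiples fun x => ?_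
    obtain ⟨y, rfl⟩ := QuotientAddGroup.mk_surjective x
    obtain ⟨k, hk⟩ := h y
    refine AddSubgroup.mem_zmultiples_iff.2 ⟨k, ?_⟩
    have h2 : ((y - k • d : G) : G ⧸ K) = 0 := (QuotientAddGroup.eq_zero_iff _).2 hk
    rw [QuotientAddGroup.mk_sub, QuotientAddGroup.mk_nsmul, sub_eq_zero] at h2
    rw [natCast_zsmul]
    exact h2.symm
  rw [← h1, addOrderOf_dvd_iff_zsmul_eq_zero, ← QuotientAddGroup.mk_zsmul,
    QuotientAddGroup.eq_zero_iff]

theorem thm_Lv : St_Lv := by
  intro G ι _ _ f K d hodd h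
  have hq0 : 0 < K.index := Nat.pos_of_ne_zero K.index_ne_zero_of_finite
  have hqodd : Odd K.index := Odd.of_dvd_nat hodd K.index_dvd_card
  obtain ⟨w, hw⟩ := hqodd
  have hdv := Lv_dvd K d h
  have h1 : ∀ i, ∃ n : ℕ, n < K.index ∧ f i - n • d ∈ K := by
    intro i
    obtain ⟨k, hk⟩ := h (f i)
    refine ⟨k % K.index, Nat.mod_lt _ hq0, ?_⟩
    have h2 : ((k : ℤ) - ((k % K.index : ℕ) : ℤ)) • d ∈ K := by
      rw [hdv]
      exact ⟨(k / K.index : ℕ), by
        have := Nat.mod_add_div k K.index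
        have h3 : ((k % K.index : ℕ) : ℤ) + (K.index : ℤ) * ((k / K.index : ℕ) : ℤ) = k := by
          exact_mod_cast this
        linarith⟩
    rw [sub_smul, natCast_zsmul, natCast_zsmul] at h2
    have h3 := K.add_mem hk h2
    have h4 : f i - k • d + (k • d - (k % K.index) • d) = f i - (k % K.index) • d := by abel
    rwa [h4] at h3
  choose n hn1 hn2 using h1
  -- existence of `f'`, `lv`
  have h2 : ∀ i, ∃ (g : G) (l : ℕ), (g = f i ∨ g = - f i) ∧ g - l • d ∈ K ∧
      2 * l + 1 ≤ K.index := by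
    intro i
    by_cases hc : 2 * n i + 1 ≤ K.index
    · exact ⟨f i, n i, Or.inl rfl, hn2 i, hc⟩
    · refine ⟨- f i, K.index - n i, Or.inr rfl, ?_, ?_⟩
      · have h3 : ((K.index : ℤ)) • d ∈ K := (hdv _).2 dvd_rfl
        rw [natCast_zsmul] at h3
        have h4 : K.index • d = (K.index - n i) • d + n i • d := by
          rw [← add_smul, Nat.sub_add_cancel (hn1 i).le]
        have h5 := K.neg_mem (K.add_mem (hn2 i) h3)
        have h6 : -(f i - n i • d + K.index • d) = - f i - (K.index - n i) • d := by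
          rw [h4]; abel
        rwa [h6] at h5
      · have := hn1 i
        omega
  choose f' lv hf hlv hq using h2
  have hint : ∀ i, ∃ b : ℤ, b.natAbs = lv i ∧ f i - b • d ∈ K := by
    intro i
    rcases hf i with h3 | h3
    · refine ⟨lv i, by simp, ?_⟩
      rw [natCast_zsmul, ← h3]
      exact hlv i
    · refine ⟨-(lv i : ℤ), by simp, ?_⟩
      have h4 := K.neg_mem (hlv i)
      rw [h3] at h4
      have h5 : -(- f i - lv i • d) = f i - (-(lv i : ℤ)) • d := by
        rw [neg_smul, natCast_zsmul]; abel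
      rwa [h5] at h4
  have huniq : ∀ (i : ι) (k : ℕ), 2 * k + 1 ≤ K.index →
      (f i - k • d ∈ K ∨ f i + k • d ∈ K) → lv i = k := by
    intro i k hk h3
    obtain ⟨b, hb1, hb2⟩ := hint i
    obtain ⟨a, ha1, ha2⟩ : ∃ a : ℤ, a.natAbs = k ∧ f i - a • d ∈ K := by
      rcases h3 with h3 | h3
      · exact ⟨k, by simp, by rwa [natCast_zsmul]⟩
      · refine ⟨-(k : ℤ), by simp, ?_⟩
        rw [neg_smul, natCast_zsmul, sub_neg_eq_add]
        exact h3
    have h4 : (a - b) • d ∈ K := by
      have h5 := K.sub_mem hb2 ha2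
      have h6 : f i - b • d - (f i - a • d) = (a - b) • d := by
        rw [sub_smul]; abel
      rwa [h6] at h5
    rw [hdv] at h4
    have h5 : (a - b).natAbs < K.index := by
      have := hq i
      omega
    have h6 : a - b = 0 := by
      refine Int.eq_zero_of_abs_lt_dvd h4 ?_
      rw [Int.abs_eq_natAbs]
      exact_mod_cast h5
    have h7 : a = b := by linarith
    rw [← hb1, ← ha1, h7]
  refine ⟨f', lv, hf, hlv, ?_, hq, huniq⟩
  intro i
  constructor
  · intro h3
    have h4 := hlv i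
    rw [h3, zero_smul, sub_zero] at h4
    rcases hf i with h5 | h5
    · rwa [← h5]
    · rw [h5] at h4
      exact (K.neg_mem_iff).1 h4
  · intro h3
    exact huniq i 0 (by omega) (Or.inl (by simpa using h3))

end Pool.Agent.SSC
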