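import Pool.Agent.SSC.St

/-!
# SSC Nu: number inequalities for `cf` (helper81)
-/

set_option autoImplicit false

noncomputable section

open Finset Pool.Agent.Helper64.Rho Pool.Agent.SDG Pool.Agent.MDR
open scoped Classical Pointwise

namespace Pool.Agent.SSC

private theorem Nu_bd (h : SDG.St_Nm1) (n : ℕ) :
    4 * (cf 2 n : ℤ) ≤ 4 + ((n : ℤ) + 1) ^ 2 ∧ 3 + ((n : ℤ) + 1) ^ 2 ≤ 4 * (cf 2 n : ℤ) := by
  have h1 := h.2.2.1 n
  rcases Nat.even_or_odd' n with ⟨a, ha | ha⟩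
  · have h2 : (n + 1) ^ 2 = 4 * (a ^ 2 + a) + 1 := by rw [ha]; ring
    have h3 : cf 2 n = 1 + (a ^ 2 + a) := by rw [h1, h2]; omega
    have h4 : ((n : ℤ) + 1) ^ 2 = 4 * ((a : ℤ) ^ 2 + a) + 1 := by exact_mod_cast h2
    rw [h3, h4]
    push_cast
    constructor <;> linarith
  · have h2 : (n + 1) ^ 2 = 4 * (a + 1) ^ 2 := by rw [ha]; ring
    have h3 : cf 2 n = 1 + (a + 1) ^ 2 := by rw [h1, h2]; omega
    have h4 : ((n : ℤ) + 1) ^ 2 = 4 * ((a : ℤ) + 1) ^ 2 := by exact_mod_cast h2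
    rw [h3, h4]
    push_cast
    constructor <;> linarith

theorem thm_Nu : SDG.St_Nm1 → St_Nu := by
  intro h
  refine ⟨?_, ?_, ?_, ?_, ?_⟩
  · intro t τ e ht hτ h1 h3
    have a1 := (Nu_bd h t).1
    have a2 := (Nu_bd h τ).2
    have hz : (t : ℤ) = τ + e := by exact_mod_cast hτ.symm
    have ht' : (9 : ℤ) ≤ t := by exact_mod_cast ht
    have goal : (cf 2 t : ℤ) ≤ ((e : ℤ) + 1) * cf 2 τ := by
      have he : e = 1 ∨ e = 2 ∨ e = 3 := by omega
      rcases he with rfl | rfl | rfl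
      · have : (τ : ℤ) = t - 1 := by rw [hz]; push_cast; ring
        rw [this] at a2
        push_cast
        nlinarith
      · have : (τ : ℤ) = t - 2 := by rw [hz]; push_cast; ring
        rw [this] at a2
        push_cast
        nlinarith
      · have : (τ : ℤ) = t - 3 := by rw [hz]; push_cast; ring
        rw [this] at a2
        push_cast
        nlinarith
    exact_mod_cast goal
  · intro t τ e ht hτ h4 h5
    obtain ⟨c, rfl⟩ : ∃ c, e = c + 4 := ⟨e - 4, by omega⟩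
    rw [Nat.add_sub_cancel]
    have hτ3 : 3 ≤ τ := by omega
    have hc : c + 1 ≤ τ := by omega
    rcases Nat.lt_or_ge τ 4 with h6 | h6
    · have hτ' : τ = 3 := by omega
      have hc' : c = 2 := by omega
      have ht'' : t = 9 := by omega
      subst hτ' hc' ht''
      rw [h.2.2.1, h.2.2.1, h.2.2.1]
      norm_num
    · have a1 := (Nu_bd h t).1
      have a2 := (Nu_bd h τ).2
      have a3 := (Nu_bd h c).2
      have hz : (t : ℤ) = τ + (c + 4) := by exact_mod_cast hτ.symm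
      have hc2 : (c : ℤ) + 1 ≤ τ := by exact_mod_cast hc
      have h62 : (4 : ℤ) ≤ τ := by exact_mod_cast h6
      have hc0 : (0 : ℤ) ≤ c := Int.natCast_nonneg c
      rw [hz] at a1
      have goal : (cf 2 t : ℤ) + 1 ≤ 5 * cf 2 τ + cf 2 c := by nlinarith
      exact_mod_cast goal
  · intro t τ e ht hτ h4 h5
    obtain ⟨c, rfl⟩ : ∃ c, e = c + 2 := ⟨e - 2, by omega⟩
    rw [Nat.add_sub_cancel]
    have hc : c + 2 ≤ τ := by omega
    have a1 := (Nu_bd h t).1
    have a2 := (Nu_bd h τ).2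
    have a3 := (Nu_bd h c).2
    have hz : (t : ℤ) = τ + (c + 2) := by exact_mod_cast hτ.symm
    have hc2 : (c : ℤ) + 2 ≤ τ := by exact_mod_cast hc
    have hc0 : (0 : ℤ) ≤ c := Int.natCast_nonneg c
    rw [hz] at a1
    have goal : (cf 2 t : ℤ) + 1 ≤ 3 * cf 2 τ + cf 2 c := by nlinarith
    exact_mod_cast goal
  · intro l hl
    obtain ⟨c, rfl⟩ : ∃ c, l = c + 2 := ⟨l - 2, by omega⟩
    rw [Nat.add_sub_cancel]
    rcases Nat.lt_or_ge c 6 with h6 | h6
    · have hc : c = 5 := by omega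
      subst hc
      rw [h.2.2.1]
      norm_num
    · have a2 := (Nu_bd h c).2
      have h62 : (6 : ℤ) ≤ c := by exact_mod_cast h6
      have goal : 3 + ((c : ℤ) + 2) * ((c : ℤ) + 2 + 1) ≤ 6 * cf 2 c := by nlinarith
      exact_mod_cast goal
  · intro w hw1 hw2
    have hw : w = 2 ∨ w = 3 ∨ w = 4 ∨ w = 5 ∨ w = 6 := by omega
    rcases hw with rfl | rfl | rfl | rfl | rfl <;> decide

end Pool.Agent.SSC
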