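import Pool.Agent.SSC.St

/-!
# SSC, module Od: the odd step
-/

set_option autoImplicit false

open Finset Pool.Agent.Helper64.Rho Pool.Agent.SDG Pool.Agent.MDR
open scoped Classical Pointwise

namespace Pool.Agent.SSC

/-- at most one member in a subgroup of order three -/
theorem Od_ins (hBa : Pool.Agent.SDG.St_Ba1) (hSm : Pool.Agent.SDG.St_Sm)
    (hKn : Pool.Agent.SDG.St_Kn) {G ι : Type} [AddCommGroup G] [Finite G] {u : Finset ι}
    {f : ι → G} {K : AddSubgroup G} (h0 : ∀ i ∈ u, f i ≠ 0) (hA : Aper (FS u f))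
    (hK : Nat.card K = 3) : (ins u f K).card ≤ 1 := by
  have hsub : ins u f K ⊆ u := Finset.filter_subset _ _
  have hA' : Aper (FS (ins u f K) f) := (hBa G ι f).2.1 u (ins u f K) hsub hA
  have hKb : K ≠ ⊥ := by
    rintro rfl
    rw [AddSubgroup.card_bot] at hK
    omega
  have hmem : ∀ x ∈ FS (ins u f K) f, x ∈ K := fun x hx =>
    FS_subset_of_mem (fun i hi => (Finset.mem_filter.1 hi).2) hx
  have h1 := (hKn G).2.2.2 (FS (ins u f K) f) K ⟨0, zero_mem_FS _ _⟩ hKb hmem hA'
  have h2 := (hSm G ι (ins u f K) f (fun i hi => h0 i (hsub hi)) hA').1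
  omega

/-- members outside the generated subgroup -/
theorem Od_outs {G ι : Type} [AddCommGroup G] (u : Finset ι) (f : ι → G) :
    outs u f (gen u f) = ∅ := by
  refine Finset.filter_eq_empty_iff.2 fun j hj => ?_
  rw [not_not]
  exact AddSubgroup.subset_closure ⟨j, Finset.mem_coe.2 hj, rfl⟩

theorem thm_Od : Pool.Agent.SDG.St_Nm1 → Pool.Agent.SDG.St_Ba1 → Pool.Agent.SDG.St_Sm →
    Pool.Agent.SDG.St_Kn → Pool.Agent.MDR.St_Sy → Pool.Agent.MDR.St_Pg → Pool.Agent.MDR.St_Ex →
    Pool.Agent.MDR.St_A1 → St_Cl → St_Dr → St_Bn → St_Kx → St_H5 → St_FE → St_Ho → St_Ke →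
    St_Kg → St_Od := by
  intro hNm hBa hSm hKn hSy hPg hEx hA1 _ hDr hBn hKx hH5 hFE hHo hKe hKg G ι _ _ l s f hl hCtx
  obtain ⟨m, rfl⟩ : ∃ m, l = m + 1 := ⟨l - 1, by omega⟩
  obtain ⟨t, ht⟩ : ∃ t, t = 2 * (m + 1) - 1 := ⟨_, rfl⟩
  rw [← ht] at hCtx
  have hC := hCtx
  obtain ⟨hPF, hTT, hCls, hsc, hne, hcap, hAper, hgen, hlt⟩ := hC
  have hodd : Odd (Nat.card G) := hCls.1
  have hFE' := hFE G ι t s f hCtx
  obtain ⟨s1, s2, hd, hun, hAS1, hAS2, hc1, hc2, hout, hin2⟩ := hHo G ι t s f hCtx (by omega)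
  have hc1' : s1.card = m + 1 := by omega
  have hc2' : s2.card = m := by omega
  -- numbers
  obtain ⟨q, hq⟩ : ∃ q, q = m * (m + 1) := ⟨_, rfl⟩
  have e1 : (m + 1) * (m + 1 + 1) = q + 2 * m + 2 := by rw [hq]; ring
  have e2 : (m + 1) * (m + 1 - 1) = q := by rw [hq, Nat.add_sub_cancel]; ring
  have e3 : m * m + 2 * m = q + m := by rw [hq]; ring
  have ecf : cf 2 t = q + m + 2 := by
    have h1 : (2 * (m + 1)) ^ 2 = 4 * ((m + 1) ^ 2) := by ring
    rw [hNm.2.2.1 t, show t + 1 = 2 * (m + 1) by omega, h1,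
      Nat.mul_div_cancel_left _ (by norm_num), hq]
    ring
  have ecf' : cf 2 (t - 1) = q + 1 := by
    have h1 : (2 * m + 1) ^ 2 = 4 * q + 1 := by rw [hq]; ring
    rw [hNm.2.2.1 (t - 1), show t - 1 + 1 = 2 * m + 1 by omega, h1]
    omega
  -- the two halves
  have hs1 : s1 ⊆ s := by
    rw [← hun]
    exact subset_union_left
  have hs2 : s2 ⊆ s := by
    rw [← hun]
    exact subset_union_right
  have hA1p : Aper (FS s1 f) := (hBa G ι f).2.1 s s1 hs1 hAper
  have hFS : FS s f = FS s1 f + FS s2 f := by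
    rw [← hun]
    exact (hBa G ι f).1 s1 s2 hd
  have hX0 : (FS s1 f).Nonempty := ⟨0, zero_mem_FS _ _⟩
  have hX20 : (FS s2 f).Nonempty := ⟨0, zero_mem_FS _ _⟩
  have hAp12 : Aper (FS s1 f + FS s2 f) := by
    rw [← hFS]
    exact hAper
  have hk1 := (hKn G).1 _ _ hX0 hX20 hAp12
  rw [← hFS] at hk1
  have hs1ne : s1.Nonempty := Finset.card_pos.1 (by omega)
  have htb : (⊤ : AddSubgroup G) ≠ ⊥ := by
    intro h
    obtain ⟨i, hi⟩ := hs1ne
    have h1 : f i ∈ (⊤ : AddSubgroup G) := AddSubgroup.mem_top _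
    rw [h] at h1
    exact hAS1.1 i hi (AddSubgroup.mem_bot.1 h1)
  have hk2 : (FS s1 f).card + (FS s2 f).card ≤ Nat.card G := by
    have h1 := (hKn G).2.1 (FS s1 f) (FS s2 f) ⊤ hX0 hX20 htb
      (fun _ _ => AddSubgroup.mem_top _) (fun _ _ => AddSubgroup.mem_top _) hAp12
    rwa [AddSubgroup.card_top] at h1
  have hN := hBn G ι t s f hCtx (by omega)
  rw [ecf'] at hN
  rw [ecf] at hlt
  -- (i)
  have hi : 2 + q ≤ 2 * (FS s2 f).card := by
    by_cases h : 2 * (FS s2 f).card ≤ Nat.card G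
    · rcases (hFE' s2 ⟨hs2, hAS2, fun M hM => (hout M hM).2, h⟩ (by omega)).1 with h1 | ⟨K, a, hK⟩
      · rw [hc2', ← hq] at h1
        exact h1
      · exfalso
        have h2 := hK.2.1
        rw [hin2 K hK.1, card_empty] at h2
        omega
    · omega
  -- (ii)
  have hii : 2 * (FS s1 f).card ≤ q + 2 * m + 2 := by omega
  -- (iii)
  have hexc : ¬ Exc f s1 := by
    rintro ⟨K, a, hK⟩
    by_cases h3 : s1.card = 3 * a + 1
    · have h4 := hKg G ι s1 s2 f K a hCls hd hAS1 hAS2 (by rw [hun]; exact hAper) hK h3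
        (fun i hi2 hiK => by
          have h5 : i ∈ ins s2 f K := Finset.mem_filter.2 ⟨hi2, hiK⟩
          rw [hin2 K hK.1] at h5
          exact absurd h5 (Finset.notMem_empty i)) (Or.inr (by omega))
      rw [hun, show s1.card + s2.card = t by omega, ecf] at h4
      omega
    · have h4 := hKe G ι s1 f K a hCls hAS1 hA1p hK h3 (by rw [hc1', e2]; omega)
      rw [hc1', e1] at h4
      omega
  -- (iv)
  have hout3 : ∀ M : AddSubgroup G, M ≠ ⊤ → 3 ≤ (outs s1 f M).card := by
    intro M hM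
    have h1 := (hout M hM).1
    have h2 := hDr G ι t s s1 f M hCtx hs1 hAS1 (by omega) (by rw [hc1', e1]; omega)
    omega
  have hout' : ∀ i ∈ s1, ∀ M : AddSubgroup G, M ≠ ⊤ → 2 ≤ (outs (s1.erase i) f M).card := by
    intro i hi M hM
    have h3 := hout3 M hM
    have h4 : outs s1 f M ⊆ insert i (outs (s1.erase i) f M) := by
      intro j hj
      rw [Finset.mem_insert]
      by_cases hji : j = i
      · exact Or.inl hji
      · have h5 := Finset.mem_filter.1 hj
        exact Or.inr (Finset.mem_filter.2 ⟨Finset.mem_erase.2 ⟨hji, h5.1⟩, h5.2⟩)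
    have h5 := (Finset.card_le_card h4).trans (Finset.card_insert_le _ _)
    omega
  have hFam' : ∀ i ∈ s1, 2 * (FS (s1.erase i) f).card ≤ Nat.card G → Fam s f (s1.erase i) := by
    intro i hi h
    refine ⟨(Finset.erase_subset _ _).trans hs1,
      ⟨fun j hj => hAS1.1 j (Finset.mem_of_mem_erase hj), fun x => ?_⟩, hout' i hi, h⟩
    exact (Finset.card_le_card (Finset.filter_subset_filter _ (Finset.erase_subset _ _))).trans
      (hAS1.2 x)
  have hcE : ∀ i ∈ s1, (s1.erase i).card = m := by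
    intro i hi
    rw [Finset.card_erase_of_mem hi, hc1', Nat.add_sub_cancel]
  have hgenE : ∀ i ∈ s1, gen (s1.erase i) f = ⊤ := by
    intro i hi
    by_contra h
    have h1 := hout' i hi _ h
    rw [Od_outs, card_empty] at h1
    omega
  have hexc' : ∀ i ∈ s1, ¬ Exc f (s1.erase i) := by
    rintro i hi ⟨K, a, hK⟩
    have hiK : f i ∉ K := by
      intro hiK
      have h1 := Od_ins hBa hSm hKn hAS1.1 hA1p hK.1
      have h2 : insert i (ins (s1.erase i) f K) ⊆ ins s1 f K := by
        intro j hj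
        rcases Finset.mem_insert.1 hj with rfl | hj
        · exact Finset.mem_filter.2 ⟨hi, hiK⟩
        · have h5 := Finset.mem_filter.1 hj
          exact Finset.mem_filter.2 ⟨Finset.mem_of_mem_erase h5.1, h5.2⟩
      have h3 : i ∉ ins (s1.erase i) f K := fun h =>
        (Finset.mem_erase.1 (Finset.mem_filter.1 h).1).1 rfl
      have h4 := Finset.card_le_card h2
      rw [Finset.card_insert_of_notMem h3, hK.2.1] at h4
      omega
    rcases hKx G ι s1 f K a i hCls hAS1 hA1p hi hK hiK (Or.inl (by rw [hc1', e2]; omega)) with h | h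
    · exact hexc h
    · rw [hc1', e1] at h
      omega
  have hlow : ∀ i ∈ s1, 2 + q ≤ 2 * (FS (s1.erase i) f).card := by
    intro i hi
    by_cases h : 2 * (FS (s1.erase i) f).card ≤ Nat.card G
    · rcases (hFE' _ (hFam' i hi h) (by rw [hcE i hi]; omega)).1 with h1 | h1
      · rw [hcE i hi, ← hq] at h1
        exact h1
      · exact absurd h1 (hexc' i hi)
    · omega
  have hlam : ∀ i ∈ s1, lam (FS s1 f) (f i) + 2 ≤ m + 1 := by
    intro i hi
    by_contra hcon
    have h1 := (hBa G ι f).2.2.1 s1 i hi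
    have h2 := hlow i hi
    have h3 : 2 * (FS (s1.erase i) f).card = 2 + q := by omega
    have h5 : 2 * (FS (s1.erase i) f).card ≤ Nat.card G := by omega
    rcases (hFE' _ (hFam' i hi h5) (by rw [hcE i hi]; omega)).2 (by rw [hcE i hi, e3]; omega)
      (by rw [hcE i hi, ← hq]; omega) with h6 | h6
    · have h7 := (hEx G ι s1 f i hodd hAS1 hi (by omega) h6 (hgenE i hi)
        (by rw [hc1', e2]; omega)).1
      rw [hc1', e1] at h7
      omega
    · exact hexc' i hi h6
  obtain ⟨hSc, hS0, hSn, hScl, hSl⟩ := hSy G ι s1 f hodd hAS1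
  have hlamD : ∀ y ∈ sym s1 f, lam (FS s1 f) y + 2 ≤ m + 1 := by
    intro y hy
    have h1 := hSl (FS s1 f) (m - 1) (fun i hi => by
      have h2 := hlam i hi
      omega) y hy
    omega
  -- (v)
  have hgen1 : gen s1 f = ⊤ := by
    by_contra h
    have h1 := hout3 _ h
    rw [Od_outs, card_empty] at h1
    omega
  have hgrow : Grow f s1 := by
    rcases hH5 G ι t s s1 f hCtx hs1 hAS1 hgen1 (by omega) (by rw [hc1', e1]; omega)
      (Or.inl (by rw [hc1', e2]; omega)) hexc with h | h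
    · exfalso
      obtain ⟨d, c, _, _, _, _, h5⟩ := hPg G ι s1 f hodd hAS1 (by omega) h
      have h6 := h5 hA1p
      rw [hc1', e1] at h6
      omega
    · exact h
  -- (vi)
  have hXlow : 2 + q ≤ 2 * (FS s1 f).card := by
    obtain ⟨i, hi⟩ := hs1ne
    have h1 := hlow i hi
    have h2 := Finset.card_le_card (FS_mono (Finset.erase_subset i s1) f)
    omega
  by_cases h : 2 * (FS s1 f).card ≤ Nat.card G
  · refine hA1 G (FS s1 f) (sym s1 f) (m + 1) hS0 (by omega) hlamD (by rw [e2]; exact hXlow)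
      fun i hi => ?_
    rcases hgrow i hi with h1 | h1
    · left
      omega
    · right
      rw [hc1'] at h1
      exact h1
  · have : Fintype G := Fintype.ofFinite G
    have hcc : ((FS s1 f)ᶜ).card = Nat.card G - (FS s1 f).card := by
      rw [Finset.card_compl, Nat.card_eq_fintype_card]
    refine hA1 G (FS s1 f)ᶜ (sym s1 f) (m + 1) hS0 (by omega) (fun y hy => ?_)
      (by rw [e2, hcc]; omega) fun i hi => ?_
    · rw [lam_compl]
      exact hlamD y hy
    · rcases hgrow i hi with h1 | h1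
      · left
        rw [hcc]
        omega
      · right
        rw [hc1'] at h1
        exact h1

end Pool.Agent.SSC
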