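import Pool.Agent.SSC.St

/-!
# SSC: at most eight members (`S8`)
-/

set_option autoImplicit false

noncomputable section

open Finset Pool.Agent.Helper64.Rho Pool.Agent.SDG Pool.Agent.MDR
open scoped Classical Pointwise

namespace Pool.Agent.SSC

private lemma S8_three {G : Type} [AddCommGroup G] (A T : Finset G) (L : AddSubgroup G) (a b : G)
    (hA : ∀ x ∈ A, x ∈ L) (ha : a ∉ L) (hb : b ∉ L) (hab : a - b ∉ L) (h0 : ∀ x ∈ A, x ∈ T)
    (h1 : ∀ x ∈ A, x + a ∈ T) (h2 : ∀ x ∈ A, x + b ∈ T) : 3 * A.card ≤ T.card := by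
  have i1 : (A.image fun x => x + a).card = A.card :=
    card_image_of_injective _ (add_left_injective a)
  have i2 : (A.image fun x => x + b).card = A.card :=
    card_image_of_injective _ (add_left_injective b)
  have d1 : Disjoint A (A.image fun x => x + a) := by
    rw [disjoint_left]
    intro x hx hx2
    obtain ⟨y, hy, rfl⟩ := mem_image.1 hx2
    apply ha
    have := L.sub_mem (hA _ hx) (hA y hy)
    simpa using this
  have d2 : Disjoint (A ∪ A.image fun x => x + a) (A.image fun x => x + b) := by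
    rw [disjoint_left]
    intro x hx hx2
    obtain ⟨y, hy, rfl⟩ := mem_image.1 hx2
    rcases mem_union.1 hx with h | h
    · apply hb
      have := L.sub_mem (hA _ h) (hA y hy)
      simpa using this
    · obtain ⟨z, hz, hz2⟩ := mem_image.1 h
      apply hab
      have h3 := L.sub_mem (hA y hy) (hA z hz)
      have h4 : a - b = y - z := by
        have h5 : z + a = y + b := hz2
        have h6 : a = y + b - z := by rw [← h5]; abel
        rw [h6]; abel
      rw [h4]; exact h3
  have h3 : (A ∪ A.image fun x => x + a) ∪ (A.image fun x => x + b) ⊆ T := by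
    intro x hx
    rcases mem_union.1 hx with h | h
    · rcases mem_union.1 h with h | h
      · exact h0 x h
      · obtain ⟨y, hy, rfl⟩ := mem_image.1 h
        exact h1 y hy
    · obtain ⟨y, hy, rfl⟩ := mem_image.1 h
      exact h2 y hy
  have h4 := card_le_card h3
  rw [card_union_of_disjoint d2, card_union_of_disjoint d1, i1, i2] at h4
  omega

private lemma S8_add1 {G ι : Type} [AddCommGroup G] {v s : Finset ι} {f : ι → G} {i : ι} {x : G}
    (hv : v ⊆ s) (hi : i ∈ s) (hiv : i ∉ v) (hx : x ∈ FS v f) : x + f i ∈ FS s f := by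
  obtain ⟨u, hu, rfl⟩ := mem_FS.1 hx
  refine mem_FS.2 ⟨insert i u, insert_subset hi (hu.trans hv), ?_⟩
  rw [sum_insert fun h => hiv (hu h), add_comm]

private lemma S8_add2 {G ι : Type} [AddCommGroup G] {v s : Finset ι} {f : ι → G} {i j : ι} {x : G}
    (hv : v ⊆ s) (hi : i ∈ s) (hj : j ∈ s) (hiv : i ∉ v) (hjv : j ∉ v) (hij : i ≠ j)
    (hx : x ∈ FS v f) : x + (f i + f j) ∈ FS s f := by
  obtain ⟨u, hu, rfl⟩ := mem_FS.1 hx
  refine mem_FS.2 ⟨insert i (insert j u), insert_subset hi (insert_subset hj (hu.trans hv)), ?_⟩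
  rw [sum_insert, sum_insert fun h => hjv (hu h)]
  · abel
  · rw [mem_insert, not_or]
    exact ⟨hij, fun h => hiv (hu h)⟩

/-- odd order: `2 x ∈ L` implies `x ∈ L` -/
private lemma S8_two {G : Type} [AddCommGroup G] [Finite G] (hG : Odd (Nat.card G)) (L : AddSubgroup G)
    (x : G) (h : x + x ∈ L) : x ∈ L := by
  obtain ⟨m, hm⟩ := hG
  have h1 : (Nat.card G) • x = 0 := by
    have h2 := addOrderOf_dvd_natCard x
    exact addOrderOf_dvd_iff_nsmul_eq_zero.1 h2
  have h3 : x = -(m • (x + x)) := by
    rw [hm] at h1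
    have h4 : (2 * m + 1) • x = m • (x + x) + x := by
      rw [add_smul, one_smul, mul_comm, mul_smul, two_smul]
    rw [h4] at h1
    exact (neg_eq_of_add_eq_zero_right h1).symm
  rw [h3]
  exact L.neg_mem (L.nsmul_mem h m)

private lemma S8_cf (h : Pool.Agent.SDG.St_Nm1) (t : ℕ) : cf 2 t = 1 + (t + 1) ^ 2 / 4 := h.2.2.1 t

private lemma S8_mem3 {G : Type} [AddCommGroup G] (h : G) (h3 : (3 : ℕ) • h = 0) (x : G)
    (hx : x ∈ AddSubgroup.zmultiples h) : x = 0 ∨ x = h ∨ x = -h := by
  obtain ⟨n, rfl⟩ := AddSubgroup.mem_zmultiples_iff.1 hx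
  have h3' : (3 : ℤ) • h = 0 := by
    have : (3 : ℤ) • h = (3 : ℕ) • h := by
      rw [← natCast_zsmul]; rfl
    rw [this, h3]
  have h4 : n • h = (n % 3) • h := by
    conv_lhs => rw [← Int.emod_add_mul_ediv n 3]
    rw [add_smul, mul_comm, mul_smul, h3', smul_zero, add_zero]
  rw [h4]
  have h5 : n % 3 = 0 ∨ n % 3 = 1 ∨ n % 3 = 2 := by omega
  rcases h5 with h5 | h5 | h5
  · left; rw [h5, zero_smul]
  · right; left; rw [h5, one_smul]
  · right; right
    rw [h5]
    have h6 : (3 : ℤ) • h = (2 : ℤ) • h + h := by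
      have : (3 : ℤ) = 2 + 1 := by norm_num
      rw [this, add_smul, one_smul]
    rw [h6] at h3'
    exact (neg_eq_of_add_eq_zero_left h3').symm

private lemma S8_st {G ι : Type} [AddCommGroup G] [Finite G] (v : Finset ι) (f : ι → G) (h z : G)
    (h3 : (3 : ℕ) • h = 0)
    (hK : ∀ i ∈ v, f i ∈ AddSubgroup.zmultiples h ∨ f i - z ∈ AddSubgroup.zmultiples h ∨
      f i + z ∈ AddSubgroup.zmultiples h) :
    (st (sym v f) (AddSubgroup.zmultiples h)).card ≤ 9 := by
  set K := AddSubgroup.zmultiples h with hKdef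
  let A : Finset G := {0, h, -h}
  have hA : ∀ x ∈ K, x ∈ A := by
    intro x hx
    rcases S8_mem3 h h3 x hx with h | h | h
    · simp [A, h]
    · simp [A, h]
    · simp [A, h]
  have hAc : A.card ≤ 3 := card_le_three
  have key : ∀ x ∈ st (sym v f) K, x ∈ K ∨ x - z ∈ K ∨ x + z ∈ K := by
    intro x hx
    have hx' : ∃ a ∈ sym v f, x - a ∈ K := by
      simpa [st] using hx
    obtain ⟨a, ha, hxa⟩ := hx'
    have ha' : a ∈ K ∨ a - z ∈ K ∨ a + z ∈ K := by
      simp only [sym, mem_union, mem_singleton, mem_image] at ha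
      rcases ha with rfl | ⟨i, hi, rfl⟩ | ⟨i, hi, rfl⟩
      · exact Or.inl K.zero_mem
      · exact hK i hi
      · rcases hK i hi with h | h | h
        · exact Or.inl (K.neg_mem h)
        · right; right
          have := K.neg_mem h
          have e : -(f i - z) = -f i + z := by abel
          rwa [e] at this
        · right; left
          have := K.neg_mem h
          have e : -(f i + z) = -f i - z := by abel
          rwa [e] at this
    rcases ha' with h | h | h
    · left
      have := K.add_mem hxa h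
      have e : x - a + a = x := by abel
      rwa [e] at this
    · right; left
      have := K.add_mem hxa h
      have e : x - a + (a - z) = x - z := by abel
      rwa [e] at this
    · right; right
      have := K.add_mem hxa h
      have e : x - a + (a + z) = x + z := by abel
      rwa [e] at this
  have hsub : st (sym v f) K ⊆ (A ∪ A.image fun x => x + z) ∪ A.image fun x => x - z := by
    intro x hx
    rcases key x hx with h | h | h
    · exact mem_union_left _ (mem_union_left _ (hA x h))
    · refine mem_union_left _ (mem_union_right _ (mem_image.2 ⟨x - z, hA _ h, ?_⟩))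
      abel
    · refine mem_union_right _ (mem_image.2 ⟨x + z, hA _ h, ?_⟩)
      abel
  have c1 : (A.image fun x => x + z).card ≤ 3 := le_trans card_image_le hAc
  have c2 : (A.image fun x => x - z).card ≤ 3 := le_trans card_image_le hAc
  have c3 := card_le_card hsub
  have c4 := card_union_le (A ∪ A.image fun x => x + z) (A.image fun x => x - z)
  have c5 := card_union_le A (A.image fun x => x + z)
  omega

/-- a part of type `{h, z, z + h, z - h}` -/
private lemma S8_typeK (hNm1 : Pool.Agent.SDG.St_Nm1) (hBa1 : Pool.Agent.SDG.St_Ba1)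
    (hSy : Pool.Agent.MDR.St_Sy) (hSR : St_SR) (hKg : St_Kg)
    {G ι : Type} [AddCommGroup G] [Finite G] {t : ℕ} {s v v' : Finset ι} {f : ι → G} (ht : t ≤ 8)
    (hctx : Ctx t s f) (hd : Disjoint v v') (hun : v ∪ v' = s) (hv : AS v f) (hv' : AS v' f)
    (h4 : v.card = 4) (h z : G) (hh : h ≠ 0) (h3 : (3 : ℕ) • h = 0)
    (hK4 : ∀ i ∈ v, f i = h ∨ f i = -h ∨ f i = z ∨ f i = -z ∨ f i = z + h ∨ f i = -(z + h) ∨
      f i = z - h ∨ f i = -(z - h)) : False := by
  have hctx' := hctx
  obtain ⟨hPF, hTT, hCls, hst, hne, hCap, hAper, hgen, hviol⟩ := hctx'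
  have hodd := hCls.1
  have hvs : v ⊆ s := by rw [← hun]; exact subset_union_left
  obtain ⟨K, hKdef⟩ : ∃ K : AddSubgroup G, K = AddSubgroup.zmultiples h := ⟨_, rfl⟩
  have hhK : h ∈ K := by rw [hKdef]; exact AddSubgroup.mem_zmultiples h
  have hKc : Nat.card K = 3 := by
    have hp : Fact (Nat.Prime 3) := ⟨Nat.prime_three⟩
    rw [hKdef, Nat.card_zmultiples]
    exact addOrderOf_eq_prime h3 hh
  have hKbot : K ≠ ⊥ := by
    intro hb
    rw [hb, AddSubgroup.mem_bot] at hhK
    exact hh hhK
  have hmem3 : ∀ x ∈ K, x = 0 ∨ x = h ∨ x = -h := by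
    intro x hx
    rw [hKdef] at hx
    exact S8_mem3 h h3 x hx
  -- the classes modulo K
  have hcl : ∀ i ∈ v, f i ∈ K ∨ f i - z ∈ K ∨ f i + z ∈ K := by
    intro i hi
    rcases hK4 i hi with e | e | e | e | e | e | e | e
    · left; rw [e]; exact hhK
    · left; rw [e]; exact K.neg_mem hhK
    · right; left; rw [e, sub_self]; exact K.zero_mem
    · right; right; rw [e, neg_add_cancel]; exact K.zero_mem
    · right; left; rw [e, add_sub_cancel_left]; exact hhK
    · right; right
      have e2 : -(z + h) + z = -h := by abel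
      rw [e, e2]; exact K.neg_mem hhK
    · right; left
      have e2 : z - h - z = -h := by abel
      rw [e, e2]; exact K.neg_mem hhK
    · right; right
      have e2 : -(z - h) + z = h := by abel
      rw [e, e2]; exact hhK
  -- some member outside K
  have hout : ∃ i ∈ v, f i ∉ K := by
    by_contra hcon
    push Not at hcon
    have h5 : v ⊆ v.filter fun i => f i = h ∨ f i = -h := by
      intro i hi
      rw [mem_filter]
      refine ⟨hi, ?_⟩
      rcases hmem3 (f i) (hcon i hi) with e | e | e
      · exact absurd e (hv.1 i hi)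
      · exact Or.inl e
      · exact Or.inr e
    have h6 := card_le_card h5
    have h7 := hv.2 h
    omega
  -- some member in K
  have hin : ∃ i ∈ v, f i ∈ K := by
    by_contra hcon
    push Not at hcon
    have h5 : v ⊆ ((v.filter fun i => f i = z ∨ f i = -z) ∪
        (v.filter fun i => f i = z + h ∨ f i = -(z + h))) ∪
        (v.filter fun i => f i = z - h ∨ f i = -(z - h)) := by
      intro i hi
      simp only [mem_union, mem_filter]
      rcases hK4 i hi with e | e | e | e | e | e | e | e
      · exact absurd (by rw [e]; exact hhK) (hcon i hi)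
      · exact absurd (by rw [e]; exact K.neg_mem hhK) (hcon i hi)
      · exact Or.inl (Or.inl ⟨hi, Or.inl e⟩)
      · exact Or.inl (Or.inl ⟨hi, Or.inr e⟩)
      · exact Or.inl (Or.inr ⟨hi, Or.inl e⟩)
      · exact Or.inl (Or.inr ⟨hi, Or.inr e⟩)
      · exact Or.inr ⟨hi, Or.inl e⟩
      · exact Or.inr ⟨hi, Or.inr e⟩
    have h6 := card_le_card h5
    have h7 := card_union_le ((v.filter fun i => f i = z ∨ f i = -z) ∪
        (v.filter fun i => f i = z + h ∨ f i = -(z + h)))
        (v.filter fun i => f i = z - h ∨ f i = -(z - h))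
    have h8 := card_union_le (v.filter fun i => f i = z ∨ f i = -z)
        (v.filter fun i => f i = z + h ∨ f i = -(z + h))
    have h9 := hv.2 z
    have h10 := hv.2 (z + h)
    have h11 := hv.2 (z - h)
    omega
  have hstc : (st (sym v f) K).card + 1 ≤ (sym v f).card + Nat.card K := by
    have h5 := (hSy G ι v f hodd hv).1
    have h6 : (st (sym v f) K).card ≤ 9 := by
      rw [hKdef]
      apply S8_st v f h z h3
      rw [hKdef] at hcl
      exact hcl
    rw [h5, h4, hKc]
    omega
  obtain ⟨_, hins1, ht8⟩ := hSR G ι t s v f K hctx hvs hv hout hKbot hstc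
  have ht8' : t = 8 := by omega
  subst ht8'
  have hv'c : v'.card = 4 := by
    have := card_union_of_disjoint hd
    rw [hun, hst, h4] at this
    omega
  -- v' has no member in K
  have hv'K : ∀ i ∈ v', f i ∉ K := by
    intro i hi hiK
    obtain ⟨j, hj, hjK⟩ := hin
    have h5 : i ∈ ins s f K := by
      rw [ins, mem_filter]
      exact ⟨by rw [← hun]; exact mem_union_right _ hi, hiK⟩
    have h6 : j ∈ ins s f K := by
      rw [ins, mem_filter]
      exact ⟨hvs hj, hjK⟩
    have h7 : i = j := by
      rw [card_eq_one] at hins1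
      obtain ⟨a, ha⟩ := hins1
      rw [ha, mem_singleton] at h5 h6
      rw [h5, h6]
    rw [h7] at hi
    exact (disjoint_left.1 hd hj) hi
  have hcf8 : cf 2 8 = 21 := by
    rw [S8_cf hNm1]
    norm_num
  have hcf7 : cf 2 7 = 17 := by
    rw [S8_cf hNm1]
    norm_num
  have hcf4 : cf 2 4 = 7 := by
    rw [S8_cf hNm1]
    norm_num
  rw [hcf8] at hviol
  by_cases hL : gen v f = ⊤
  · -- exceptional
    have hinsv : (ins v f K).card = 1 := by
      obtain ⟨j, hj, hjK⟩ := hin
      have h5 : ins v f K ⊆ ins s f K := by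
        intro i hi
        rw [ins, mem_filter] at hi ⊢
        exact ⟨hvs hi.1, hi.2⟩
      have h6 := card_le_card h5
      have h7 : 0 < (ins v f K).card := card_pos.2 ⟨j, by rw [ins, mem_filter]; exact ⟨hj, hjK⟩⟩
      omega
    have houtsv : (outs v f K).card = 3 := by
      have h5 := card_filter_add_card_filter_not (s := v) (fun i => f i ∈ K)
      rw [ins] at hinsv
      rw [hinsv, h4] at h5
      rw [outs]
      omega
    have hgenz : ∀ x : G, ∃ k : ℕ, x - k • z ∈ K := by
      intro x
      have h5 : gen v f ≤ K ⊔ AddSubgroup.zmultiples z := by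
        rw [gen, AddSubgroup.closure_le]
        rintro _ ⟨i, hi, rfl⟩
        have hz : z ∈ K ⊔ AddSubgroup.zmultiples z :=
          AddSubgroup.mem_sup_right (AddSubgroup.mem_zmultiples z)
        rcases hcl i hi with e | e | e
        · exact AddSubgroup.mem_sup_left e
        · have h6 := add_mem (AddSubgroup.mem_sup_left (T := AddSubgroup.zmultiples z) e) hz
          rw [sub_add_cancel] at h6
          exact h6
        · have h6 := sub_mem (AddSubgroup.mem_sup_left (T := AddSubgroup.zmultiples z) e) hz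
          rw [add_sub_cancel_right] at h6
          exact h6
      rw [hL] at h5
      have h6 : x ∈ K ⊔ AddSubgroup.zmultiples z := h5 (AddSubgroup.mem_top x)
      obtain ⟨y, hy, w, hw, hyw⟩ := AddSubgroup.mem_sup.1 h6
      have h7 : w ∈ AddSubmonoid.multiples z := mem_multiples_iff_mem_zmultiples.2 hw
      obtain ⟨k, hk⟩ := AddSubmonoid.mem_multiples_iff _ _ |>.1 h7
      refine ⟨k, ?_⟩
      rw [hk, ← hyw, add_sub_cancel_right]
      exact hy
    have hKAP : KAP v f K 1 := by
      refine ⟨hKc, hinsv, le_rfl, z, fun _ => 1, hgenz, ?_, ?_, ?_⟩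
      · intro i hi
        rw [outs, mem_filter] at hi
        refine ⟨le_rfl, by norm_num, ?_⟩
        rw [one_smul]
        rcases hcl i hi.1 with e | e | e
        · exact absurd e hi.2
        · exact Or.inl e
        · exact Or.inr e
      · intro k hk1 hk2
        have hk : k = 1 := by omega
        rw [hk, filter_true_of_mem fun _ _ => rfl]
        exact houtsv
      · rw [filter_false_of_mem]
        · simp
        · intro i _
          norm_num
    have h5 := hKg G ι v v' f K 1 hCls hd hv hv' (by rw [hun]; exact hAper) hKAP (by rw [h4]) hv'K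
      (Or.inl (by rw [hv'c]))
    rw [h4, hv'c, hun] at h5
    have h6 : cf 2 (4 + 4) = 21 := hcf8
    rw [h6] at h5
    omega
  · -- a proper subgroup
    obtain ⟨L, hLdef⟩ : ∃ L : AddSubgroup G, L = gen v f := ⟨_, rfl⟩
    rw [← hLdef] at hL
    have hB := hBa1 G ι f
    have hvL : ∀ i ∈ v, f i ∈ L := by
      intro i hi
      rw [hLdef, gen]
      exact AddSubgroup.subset_closure ⟨i, hi, rfl⟩
    have hFSL : ∀ x ∈ FS v f, x ∈ L := by
      intro x hx
      rw [hLdef]
      exact hB.2.2.2.2.2.2 v x hx
    have hsL : ∃ i ∈ s, f i ∉ L := by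
      by_contra hcon
      push Not at hcon
      apply hL
      rw [eq_top_iff, ← hgen, gen, AddSubgroup.closure_le]
      rintro _ ⟨i, hi, rfl⟩
      exact hcon i hi
    obtain ⟨i, hi, hiL⟩ := hsL
    by_cases h2 : ∃ j ∈ s, f j ∉ L ∧ j ≠ i
    · obtain ⟨j, hj, hjL, hji⟩ := h2
      have hiv : i ∉ v := fun h => hiL (hvL i h)
      have hjv : j ∉ v := fun h => hjL (hvL j h)
      have hFSv : 7 ≤ (FS v f).card := by
        have h5 := hPF 4 (by norm_num) G ι v f hCls h4 (fun k hk => hne k (hvs hk))
          (fun x => le_trans (hv.2 x) (by norm_num)) (hB.2.1 s v hvs hAper)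
        rw [hcf4] at h5
        exact h5
      have h0 : ∀ x ∈ FS v f, x ∈ FS s f := fun x hx => FS_mono hvs f hx
      have h1 : ∀ x ∈ FS v f, x + f i ∈ FS s f := fun x hx => S8_add1 hvs hi hiv hx
      have h1' : ∀ x ∈ FS v f, x + f j ∈ FS s f := fun x hx => S8_add1 hvs hj hjv hx
      have h12 : ∀ x ∈ FS v f, x + (f i + f j) ∈ FS s f :=
        fun x hx => S8_add2 hvs hi hj hiv hjv hji.symm hx
      by_cases hsub : f i - f j ∈ L
      · have h5 : f i + f j ∉ L := by
          intro h6
          apply hiL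
          apply S8_two hodd L
          have h7 := L.add_mem h6 hsub
          have e : f i + f j + (f i - f j) = f i + f i := by abel
          rwa [e] at h7
        have h6 : f i - (f i + f j) ∉ L := by
          intro h7
          apply hjL
          have h8 := L.neg_mem h7
          have e : -(f i - (f i + f j)) = f j := by abel
          rwa [e] at h8
        have h7 := S8_three (FS v f) (FS s f) L (f i) (f i + f j) hFSL hiL h5 h6 h0 h1 h12
        omega
      · have h7 := S8_three (FS v f) (FS s f) L (f i) (f j) hFSL hiL hjL hsub h0 h1 h1'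
        omega
    · push Not at h2
      have h5 : f i ∉ gen (s.erase i) f := by
        intro h6
        apply hiL
        have h7 : gen (s.erase i) f ≤ L := by
          rw [gen, AddSubgroup.closure_le]
          rintro _ ⟨j, hj, rfl⟩
          rw [mem_coe, mem_erase] at hj
          by_contra hjL
          exact hj.1 (h2 j hj.2 hjL)
        exact h7 h6
      have h6 := hB.2.2.2.1 s i hi h5
      have h7 := hPF 7 (by norm_num) G ι (s.erase i) f hCls (by rw [card_erase_of_mem hi, hst])
        (fun k hk => hne k (mem_of_mem_erase hk))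
        (fun x => le_trans (card_le_card (filter_subset_filter _ (erase_subset i s))) (hCap x))
        (hB.2.1 s (s.erase i) (erase_subset i s) hAper)
      rw [hcf7] at h7
      omega

theorem thm_S8 : Pool.Agent.SDG.St_Nm1 → Pool.Agent.SDG.St_Ba1 → Pool.Agent.SDG.St_Sm →
    Pool.Agent.SDG.St_Kn → Pool.Agent.MDR.St_Sp2 → Pool.Agent.MDR.St_B3 → Pool.Agent.MDR.St_Pg →
    Pool.Agent.MDR.St_Sy → St_Cl → St_SR → St_Bo → St_Kg → St_S8 := by
  intro hNm1 hBa1 _ hKn hSp2 hB3 hPg hSy _ hSR hBo hKg
  intro G ι _ _ t s f ht hctx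
  have hctx' := hctx
  obtain ⟨hPF, hTT, hCls, hst, hne, hCap, hAper, hgen, hviol⟩ := hctx'
  have hodd := hCls.1
  obtain ⟨s1, s2, hd, hun, ha1, ha2, hc1, hc2⟩ := hSp2 G ι s f hne hCap
  have hcard : s1.card + s2.card = t := by
    rw [← hst, ← hun, card_union_of_disjoint hd]
  have hB := hBa1 G ι f
  have part : ∀ v v' : Finset ι, Disjoint v v' → v ∪ v' = s → AS v f → AS v' f → v.card ≤ 4 →
      2 + v.card * (v.card + 1) ≤ 2 * (FS v f).card := by
    intro v v' hd hun hv hv' hvc
    rcases Nat.lt_or_ge v.card 4 with h | h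
    · exact hB3 G ι v f hodd hv (by omega)
    · have h4 : v.card = 4 := by omega
      have hvs : v ⊆ s := by rw [← hun]; exact subset_union_left
      rcases hBo G ι v f hodd hv h4 with h12 | hP | ⟨h, z, hh, h3, hK⟩
      · rw [h4]; omega
      · obtain ⟨d, c, _, _, _, _, hfin⟩ := hPg G ι v f hodd hv (by omega) hP
        exact (hfin (hB.2.1 s v hvs hAper)).ge
      · exact (S8_typeK hNm1 hBa1 hSy hSR hKg ht hctx hd hun hv hv' h4 h z hh h3 hK).elim
  have p1 := part s1 s2 hd hun ha1 ha2 (by omega)
  have p2 := part s2 s1 hd.symm (by rw [union_comm]; exact hun) ha2 ha1 (by omega)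
  have hT : FS s f = FS s1 f + FS s2 f := by rw [← hun, hB.1 s1 s2 hd]
  have hk := (hKn G).1 (FS s1 f) (FS s2 f) ⟨0, zero_mem_FS _ _⟩ ⟨0, zero_mem_FS _ _⟩
    (by rw [← hT]; exact hAper)
  rw [← hT] at hk
  rw [S8_cf hNm1, ← hcard] at hviol
  have b1 : s1.card ≤ 4 := by omega
  have b2 : s2.card ≤ 4 := by omega
  obtain ⟨l1, hl1⟩ : ∃ l, l = s1.card := ⟨_, rfl⟩
  obtain ⟨l2, hl2⟩ : ∃ l, l = s2.card := ⟨_, rfl⟩
  rw [← hl1] at p1 hviol b1 hc1 hc2
  rw [← hl2] at p2 hviol b2 hc1 hc2
  interval_cases l1 <;> interval_cases l2 <;> omega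

end Pool.Agent.SSC
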