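import Pool.Agent.SDG.All
import Pool.Agent.MDR.Av0
import Pool.Agent.MDR.Sg
import Pool.Agent.MDR.Sy
import Pool.Agent.MDR.Pg
import Pool.Agent.MDR.Ex
import Pool.Agent.MDR.B3
import Pool.Agent.MDR.Gw
import Pool.Agent.MDR.A1
import Pool.Agent.MDR.A2
import Pool.Agent.MDR.GwF
import Pool.Agent.MDR.En
import Pool.Agent.MDR.SC
import Pool.Agent.MDR.N5
import Pool.Agent.MDR.Sp2
import Pool.Agent.SSC.Nu
import Pool.Agent.SSC.Cl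
import Pool.Agent.SSC.KS
import Pool.Agent.SSC.Fl
import Pool.Agent.SSC.Wi
import Pool.Agent.SSC.Nf
import Pool.Agent.SSC.SR
import Pool.Agent.SSC.Ix
import Pool.Agent.SSC.Hv
import Pool.Agent.SSC.Dr
import Pool.Agent.SSC.Bn
import Pool.Agent.SSC.Bo
import Pool.Agent.SSC.Lv
import Pool.Agent.SSC.Et
import Pool.Agent.SSC.Fu
import Pool.Agent.SSC.Ct
import Pool.Agent.SSC.Kx
import Pool.Agent.SSC.Kh
import Pool.Agent.SSC.Ke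
import Pool.Agent.SSC.Kg
import Pool.Agent.SSC.Gq
import Pool.Agent.SSC.G3
import Pool.Agent.SSC.H5
import Pool.Agent.SSC.FE
import Pool.Agent.SSC.Ho
import Pool.Agent.SSC.Ev
import Pool.Agent.SSC.Od
import Pool.Agent.SSC.S8
import Pool.Agent.SSC.PF
import Pool.Agent.SSC.Fn

/-!
# SSC: assembly (helper22)
-/

set_option autoImplicit false

noncomputable section

open Finset Pool.Agent.Helper64.Rho
open scoped Classical Pointwise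

namespace Pool.Agent.SSC
theorem mdr_Av0 : Pool.Agent.MDR.St_Av0 := Pool.Agent.MDR.thm_Av0
theorem mdr_Sg : Pool.Agent.MDR.St_Sg := Pool.Agent.MDR.thm_Sg
theorem mdr_Sy : Pool.Agent.MDR.St_Sy := Pool.Agent.MDR.thm_Sy
theorem mdr_Pg : Pool.Agent.MDR.St_Pg := Pool.Agent.MDR.thm_Pg mdr_Sg
theorem mdr_Ex : Pool.Agent.MDR.St_Ex := Pool.Agent.MDR.thm_Ex mdr_Pg
theorem mdr_B3 : Pool.Agent.MDR.St_B3 := Pool.Agent.MDR.thm_B3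
theorem mdr_Gw : Pool.Agent.MDR.St_Gw := Pool.Agent.MDR.thm_Gw
theorem mdr_A1 : Pool.Agent.MDR.St_A1 := Pool.Agent.MDR.thm_A1 mdr_Av0
theorem mdr_A2 : Pool.Agent.MDR.St_A2 := Pool.Agent.MDR.thm_A2 mdr_Av0
theorem mdr_GwF : Pool.Agent.MDR.St_GwF := Pool.Agent.MDR.thm_GwF mdr_Gw mdr_Sy
theorem mdr_En : Pool.Agent.MDR.St_En := Pool.Agent.MDR.thm_En mdr_Sy mdr_Pg mdr_Ex mdr_A1 mdr_A2 Pool.Agent.SDG.all_Ba1
theorem mdr_SC : Pool.Agent.MDR.St_SC := Pool.Agent.MDR.thm_SC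
theorem mdr_N5 : Pool.Agent.MDR.St_N5 := Pool.Agent.MDR.thm_N5 Pool.Agent.SDG.all_Nm1
theorem mdr_Sp2 : Pool.Agent.MDR.St_Sp2 := Pool.Agent.MDR.thm_Sp2

theorem all_Nu : St_Nu := thm_Nu Pool.Agent.SDG.all_Nm1
theorem all_Cl : St_Cl := thm_Cl
theorem all_KS : St_KS := thm_KS
theorem all_Fl : St_Fl := thm_Fl all_KS Pool.Agent.SDG.all_Sm Pool.Agent.SDG.all_Ba1
theorem all_Wi : St_Wi := thm_Wi all_Fl
theorem all_Nf : St_Nf := thm_Nf mdr_Sy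
theorem all_SR : St_SR := thm_SR Pool.Agent.SDG.all_Nm1 Pool.Agent.SDG.all_Ba1 Pool.Agent.SDG.all_Kn Pool.Agent.SDG.all_Qu mdr_Sg mdr_SC mdr_N5 all_Nu all_Cl all_Wi all_Nf
theorem all_Ix : St_Ix := thm_Ix Pool.Agent.SDG.all_Nm1 Pool.Agent.SDG.all_Ba1 Pool.Agent.SDG.all_Kn Pool.Agent.SDG.all_Sm all_Nu
theorem all_Hv : St_Hv := thm_Hv mdr_Sp2
theorem all_Dr : St_Dr := thm_Dr Pool.Agent.SDG.all_Nm1 Pool.Agent.SDG.all_Ba1 Pool.Agent.SDG.all_Sm mdr_B3 all_Nu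
theorem all_Bn : St_Bn := thm_Bn Pool.Agent.SDG.all_Nm1 Pool.Agent.SDG.all_Ba1 Pool.Agent.SDG.all_Kn Pool.Agent.SDG.all_Sm
theorem all_Bo : St_Bo := thm_Bo
theorem all_Lv : St_Lv := thm_Lv
theorem all_Et : St_Et := thm_Et
theorem all_Fu : St_Fu := thm_Fu all_Et
theorem all_Ct : St_Ct := thm_Ct
theorem all_Kx : St_Kx := thm_Kx Pool.Agent.SDG.all_Ba1 Pool.Agent.SDG.all_Kn mdr_Sg all_Cl all_Lv all_Et all_Fu all_Ct
theorem all_Kh : St_Kh := thm_Kh Pool.Agent.SDG.all_Ba1 mdr_Sg mdr_Sy all_Cl all_Lv all_Fu all_Ct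
theorem all_Ke : St_Ke := thm_Ke Pool.Agent.SDG.all_Ba1 Pool.Agent.SDG.all_Kn mdr_Sg all_Cl all_Lv all_Fu all_Ct
theorem all_Kg : St_Kg := thm_Kg Pool.Agent.SDG.all_Nm1 Pool.Agent.SDG.all_Ba1 Pool.Agent.SDG.all_Kn mdr_Sg all_Cl all_Lv all_Et all_Fu all_Ct
theorem all_Gq : St_Gq := thm_Gq
theorem all_G3 : St_G3 := thm_G3 mdr_Sy mdr_Gw all_Gq
theorem all_H5 : St_H5 := thm_H5 Pool.Agent.SDG.all_Ba1 Pool.Agent.SDG.all_Sm mdr_GwF all_Cl all_SR all_G3 all_Kh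
theorem all_FE : St_FE := thm_FE Pool.Agent.SDG.all_Ba1 Pool.Agent.SDG.all_Sm mdr_Pg mdr_En all_Cl all_Dr all_Bo all_Kx all_H5
theorem all_Ho : St_Ho := thm_Ho Pool.Agent.SDG.all_Ba1 Pool.Agent.SDG.all_Sm all_Cl all_Ix all_Hv all_Bn
theorem all_Ev : St_Ev := thm_Ev Pool.Agent.SDG.all_Nm1 Pool.Agent.SDG.all_Ba1 Pool.Agent.SDG.all_Kn all_Bn all_FE all_Ho all_Ke all_Kg
theorem all_Od : St_Od := thm_Od Pool.Agent.SDG.all_Nm1 Pool.Agent.SDG.all_Ba1 Pool.Agent.SDG.all_Sm Pool.Agent.SDG.all_Kn mdr_Sy mdr_Pg mdr_Ex mdr_A1 all_Cl all_Dr all_Bn all_Kx all_H5 all_FE all_Ho all_Ke all_Kg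
theorem all_S8 : St_S8 := thm_S8 Pool.Agent.SDG.all_Nm1 Pool.Agent.SDG.all_Ba1 Pool.Agent.SDG.all_Sm Pool.Agent.SDG.all_Kn mdr_Sp2 mdr_B3 mdr_Pg mdr_Sy all_Cl all_SR all_Bo all_Kg
theorem all_PF : St_PF := thm_PF Pool.Agent.SDG.all_Tr Pool.Agent.SDG.all_main all_Cl all_S8 all_Ev all_Od
theorem all_Fn : St_Fn := thm_Fn all_PF Pool.Agent.SDG.all_main Pool.Agent.SDG.all_Nm1 Pool.Agent.SDG.all_Ba1 Pool.Agent.SDG.all_Se Pool.Agent.SDG.all_Up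

end Pool.Agent.SSC
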